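import Mathlib

/-!
# BOND, dual side: definitions

A finite loopless multigraph `D` with vertex type `W` and edge type `E` is given by the two-element
set of ends of every edge.  Weights are functions `p : E → ℕ` (0 = absent, 1 = real, 2 = fat);
the multigraph never changes, only the weights do.
-/

set_option autoImplicit false

/-- A loopless multigraph: every edge has exactly two ends. -/
structure BDu (W E : Type) [DecidableEq W] where
  /-- the ends of an edge -/
  inc : E → Finset W
  two : ∀ e, (inc e).card = 2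

namespace BDu

variable {W E : Type} [DecidableEq W] [DecidableEq E] (D : BDu W E)

/-- The vertices of an edge set. -/
def VS (F : Finset E) : Finset W := F.biUnion D.inc

/-- The degree of a vertex in an edge set. -/
def dg (F : Finset E) (v : W) : ℕ := (F.filter fun e => v ∈ D.inc e).card

/-- Adjacency by an edge of `F`. -/
def Adj (F : Finset E) (u v : W) : Prop := u ≠ v ∧ ∃ e ∈ F, u ∈ D.inc e ∧ v ∈ D.inc e

/-- One step along an edge of `F` outside the vertex set `A`. -/
def Stp (F : Finset E) (A : Finset W) (u v : W) : Prop := D.Adj F u v ∧ u ∉ A ∧ v ∉ A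

/-- `u` and `v` are linked in `F` by a walk avoiding `A`. -/
def Lk (F : Finset E) (A : Finset W) : W → W → Prop := Relation.ReflTransGen (D.Stp F A)

/-- Two-connected edge set (two parallel edges are allowed). -/
def TwoC (F : Finset E) : Prop :=
  2 ≤ F.card ∧ ∀ x u v, u ∈ D.VS F → v ∈ D.VS F → u ≠ x → v ≠ x → D.Lk F {x} u v

/-- The edge set of a circuit. -/
def IsCirc (C : Finset E) : Prop :=
  C.Nonempty ∧ (∀ v ∈ D.VS C, D.dg C v = 2) ∧ ∀ u ∈ D.VS C, ∀ v ∈ D.VS C, D.Lk C ∅ u v

/-- The edge set of a path from `s` to `t`. -/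
structure IsPth (P : Finset E) (s t : W) : Prop where
  ne : s ≠ t
  dgs : D.dg P s = 1
  dgt : D.dg P t = 1
  inn : ∀ v ∈ D.VS P, v ≠ s → v ≠ t → D.dg P v = 2
  con : ∀ u ∈ D.VS P, ∀ v ∈ D.VS P, D.Lk P ∅ u v

/-- `F` is a connected two-terminal piece with terminals `a`, `b`: after the deletion of any vertex
every other vertex is still linked to a terminal. -/
structure Term (F : Finset E) (a b : W) : Prop where
  ne : a ≠ b
  ma : a ∈ D.VS F
  mb : b ∈ D.VS F
  con : D.Lk F ∅ a b
  esc : ∀ x, ∀ v ∈ D.VS F, v ≠ x → (a ≠ x ∧ D.Lk F {x} v a) ∨ (b ≠ x ∧ D.Lk F {x} v b)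

/-- A 2-separation of `S` none of whose sides is a path between the two vertices. -/
structure Sep (S E1 E2 : Finset E) (a b : W) : Prop where
  un : E1 ∪ E2 = S
  dis : Disjoint E1 E2
  ne : a ≠ b
  vs : D.VS E1 ∩ D.VS E2 = {a, b}
  np1 : ¬ D.IsPth E1 a b
  np2 : ¬ D.IsPth E2 a b

/-- Three-connected up to paths: every 2-separation has a side which is a path. -/
def TC (S : Finset E) : Prop := ∀ E1 E2 a b, ¬ D.Sep S E1 E2 a b

section Weights

variable [Fintype E]

/-- The support of a weight. -/
def supp (p : E → ℕ) : Finset E := Finset.univ.filter fun e => p e ≠ 0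

/-- The weighted degree. -/
def pv (p : E → ℕ) (v : W) : ℕ := ∑ e ∈ Finset.univ.filter (fun e => v ∈ D.inc e), p e

/-- Subtract one on `Z`. -/
def sub (p : E → ℕ) (Z : Finset E) : E → ℕ := fun e => p e - if e ∈ Z then 1 else 0

/-- Add one on `Z`. -/
def add (p : E → ℕ) (Z : Finset E) : E → ℕ := fun e => p e + if e ∈ Z then 1 else 0

/-- The weight `p` on `F`, the constant `k` on the path `P`, zero elsewhere. -/
def clo (p : E → ℕ) (F P : Finset E) (k : ℕ) : E → ℕ :=
  fun e => if e ∈ F then p e else if e ∈ P then k else 0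

/-- A good circuit: what is left after subtracting it is two-connected. -/
def Good (p : E → ℕ) (C : Finset E) : Prop :=
  D.IsCirc C ∧ C ⊆ supp p ∧ D.TwoC (supp (sub p C))

/-- Covers by circuits exist for all even weights with two-connected support inside `S₀`. -/
def COVE (S₀ : Finset E) : Prop :=
  ∀ p : E → ℕ, (∀ e, p e ≤ 2) → supp p ⊆ S₀ → D.TwoC (supp p) → (∀ v, Even (D.pv p v)) →
    ∃ (n : ℕ) (m : Fin n → Finset E), (∀ i, D.IsCirc (m i)) ∧
      ∀ e, p e = (Finset.univ.filter fun i => e ∈ m i).card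

/-- Admissible weights: at most 2, two-connected support, some vertex of weight at least 3. -/
structure Adm (p : E → ℕ) : Prop where
  le : ∀ e, p e ≤ 2
  tc : D.TwoC (supp p)
  big : ∃ v, 3 ≤ D.pv p v

/-- Existence of a good circuit when at most one vertex has weight 3. -/
def EX (p : E → ℕ) : Prop :=
  D.Adm p → (∃ r, ∀ v, v ≠ r → D.pv p v ≠ 3) → ∃ C, D.Good p C

/-- No vertex of weight 3: of any three real edges a good circuit avoids two. -/
def DA (p : E → ℕ) : Prop :=
  D.Adm p → (∀ v, D.pv p v ≠ 3) → ∀ f : Fin 3 → E, (∀ i, p (f i) = 1) →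
    ∃ C, D.Good p C ∧ ∃ i j, i ≠ j ∧ f i ∉ C ∧ f j ∉ C

/-- `q` is smaller than `p`: smaller support, or the same size of the support and smaller sum. -/
def Lt (q p : E → ℕ) : Prop :=
  (supp q).card < (supp p).card ∨ ((supp q).card = (supp p).card ∧ ∑ e, q e < ∑ e, p e)

end Weights

end BDu
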