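import Pool.Agent.Helper48.BDu.PAR

/-!
# BOND, dual side, module TWO: calculus of two-connected edge sets
-/

set_option autoImplicit false
set_option linter.unusedSectionVars false

namespace BDu

variable {W E : Type} [DecidableEq W] [DecidableEq E] {D : BDu W E}

theorem TwoC.conn {F : Finset E} (hF : D.TwoC F) {u v : W} (hu : u ∈ D.VS F) (hv : v ∈ D.VS F) :
    D.Lk F ∅ u v := by
  by_cases huv : u = v
  · rw [huv]
    exact Lk.refl _ _ _
  obtain ⟨e, he, hue⟩ := mem_VS.mp hu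
  obtain ⟨w, huw, hi⟩ := exists_other hue
  have hwe : w ∈ D.inc e := by rw [hi]; simp
  have h1 : D.Lk F ∅ u w := Lk.edge he hue hwe (by simp) (by simp)
  have h2 : D.Lk F {u} w v := hF.2 u w v (mem_VS.mpr ⟨e, he, hwe⟩) hv (fun h => huw h.symm)
    (fun h => huv h.symm)
  exact h1.trans (h2.mono (Finset.Subset.refl _) (Finset.empty_subset _))

theorem TwoC.two_le_dg {F : Finset E} (hF : D.TwoC F) {v : W} (hv : v ∈ D.VS F) :
    2 ≤ D.dg F v := by
  by_contra hc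
  have h1 := dg_pos.mpr hv
  have h2 : D.dg F v = 1 := by omega
  unfold dg at h2
  obtain ⟨e, he⟩ := Finset.card_eq_one.mp h2
  have hef : ∀ g ∈ F, v ∈ D.inc g → g = e := fun g hg hvg => by
    have : g ∈ F.filter fun e => v ∈ D.inc e := Finset.mem_filter.mpr ⟨hg, hvg⟩
    rw [he] at this
    exact Finset.mem_singleton.mp this
  have heF : e ∈ F.filter fun e => v ∈ D.inc e := by rw [he]; simp
  obtain ⟨heF, hve⟩ := Finset.mem_filter.mp heF
  obtain ⟨w, hvw, hi⟩ := exists_other hve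
  obtain ⟨f, hf, hfe⟩ := Finset.exists_mem_ne (by have := hF.1; omega : 1 < F.card) e
  have hvf : v ∉ D.inc f := fun h => hfe (hef f hf h)
  obtain ⟨z1, z2, hz, hif⟩ := exists_end D f
  have hz1 : z1 ∈ D.inc f := by rw [hif]; simp
  have hz2 : z2 ∈ D.inc f := by rw [hif]; simp
  obtain ⟨z, hzf, hzw⟩ : ∃ z ∈ D.inc f, z ≠ w := by
    by_cases h : z1 = w
    · exact ⟨z2, hz2, fun h' => hz (h.trans h'.symm)⟩
    · exact ⟨z1, hz1, h⟩
  have hzv : z ≠ v := fun h => hvf (h ▸ hzf)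
  have hl : D.Lk F {w} v z := hF.2 w v z hv (mem_VS.mpr ⟨f, hf, hzf⟩) hvw hzw
  have : z = v := by
    refine Lk.stay (fun x => x = v) ?_ hl rfl
    intro x y g hg hx hy hxy _ hyw hxv
    subst hxv
    have := hef g hg hx
    subst this
    rw [hi] at hy
    rcases Finset.mem_insert.mp hy with h | h
    · exact absurd h.symm hxy
    · exact absurd h hyw
  exact hzv this

theorem TwoC.exists_ne {F : Finset E} (hF : D.TwoC F) (x : W) : ∃ v ∈ D.VS F, v ≠ x := by
  obtain ⟨e, he⟩ := Finset.card_pos.mp (by have := hF.1; omega : 0 < F.card)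
  obtain ⟨u, v, huv, hi⟩ := exists_end D e
  by_cases h : u = x
  · exact ⟨v, mem_VS.mpr ⟨e, he, by rw [hi]; simp⟩, fun h' => huv (h.trans h'.symm)⟩
  · exact ⟨u, mem_VS.mpr ⟨e, he, by rw [hi]; simp⟩, h⟩

/-- Every vertex of `G` escapes to `B`. -/
theorem TwoC.extend {B G : Finset E} (hB : D.TwoC B) (hBG : B ⊆ G)
    (h : ∀ x, ∀ v ∈ D.VS G, v ≠ x → ∃ b ∈ D.VS B, b ≠ x ∧ D.Lk G {x} v b) : D.TwoC G := by
  refine ⟨hB.1.trans (Finset.card_le_card hBG), ?_⟩
  intro x u v hu hv hux hvx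
  obtain ⟨b, hb, hbx, hub⟩ := h x u hu hux
  obtain ⟨c, hc, hcx, hvc⟩ := h x v hv hvx
  exact (hub.trans ((hB.2 x b c hb hc hbx hcx).mono hBG (Finset.Subset.refl _))).trans hvc.symm

theorem TwoC.of_VS_eq {B G : Finset E} (hB : D.TwoC B) (hBG : B ⊆ G) (h : D.VS G ⊆ D.VS B) :
    D.TwoC G :=
  hB.extend hBG fun _ v hv hvx => ⟨v, h hv, hvx, Lk.refl _ _ _⟩

theorem TwoC.ear {B P : Finset E} {a b : W} (hB : D.TwoC B) (hP : D.IsPth P a b)
    (ha : a ∈ D.VS B) (hb : b ∈ D.VS B) : D.TwoC (B ∪ P) := by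
  refine hB.extend Finset.subset_union_left ?_
  intro x v hv hvx
  rcases mem_VS_union.mp hv with hv | hv
  · exact ⟨v, hv, hvx, Lk.refl _ _ _⟩
  · rcases hP.esc x v hv hvx with ⟨h1, h2⟩ | ⟨h1, h2⟩
    · exact ⟨a, ha, h1, h2.mono Finset.subset_union_right (Finset.Subset.refl _)⟩
    · exact ⟨b, hb, h1, h2.mono Finset.subset_union_right (Finset.Subset.refl _)⟩

theorem TwoC.union {B C : Finset E} (hB : D.TwoC B) (hC : D.TwoC C) {a b : W} (hab : a ≠ b)
    (ha : a ∈ D.VS B) (hb : b ∈ D.VS B) (ha' : a ∈ D.VS C) (hb' : b ∈ D.VS C) :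
    D.TwoC (B ∪ C) := by
  refine hB.extend Finset.subset_union_left ?_
  intro x v hv hvx
  rcases mem_VS_union.mp hv with hv | hv
  · exact ⟨v, hv, hvx, Lk.refl _ _ _⟩
  · by_cases hax : a = x
    · have hbx : b ≠ x := fun h => hab (hax.trans h.symm)
      exact ⟨b, hb, hbx, (hC.2 x v b hv hb' hvx hbx).mono Finset.subset_union_right
        (Finset.Subset.refl _)⟩
    · exact ⟨a, ha, hax, (hC.2 x v a hv ha' hvx hax).mono Finset.subset_union_right
        (Finset.Subset.refl _)⟩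

/-- An edge of a two-connected set is not a bridge. -/
theorem TwoC.no_bridge {F : Finset E} (hF : D.TwoC F) {e : E} (he : e ∈ F) {u v : W}
    (hu : u ∈ D.inc e) (hv : v ∈ D.inc e) : D.Lk (F.erase e) ∅ u v := by
  by_cases huv : u = v
  · rw [huv]
    exact Lk.refl _ _ _
  have hdg := hF.two_le_dg (mem_VS.mpr ⟨e, he, hu⟩)
  unfold dg at hdg
  obtain ⟨e', he', hne⟩ := Finset.exists_mem_ne (s := F.filter fun e => u ∈ D.inc e)
    (by omega) e
  obtain ⟨he'F, hue'⟩ := Finset.mem_filter.mp he'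
  obtain ⟨w, huw, hi⟩ := exists_other hue'
  have hwe' : w ∈ D.inc e' := by rw [hi]; simp
  have h1 : D.Lk (F.erase e) ∅ u w :=
    Lk.edge (Finset.mem_erase.mpr ⟨hne, he'F⟩) hue' hwe' (by simp) (by simp)
  have h2 : D.Lk F {u} w v := hF.2 u w v (mem_VS.mpr ⟨e', he'F, hwe'⟩) (mem_VS.mpr ⟨e, he, hv⟩)
    (fun h => huw h.symm) (fun h => huv h.symm)
  refine h1.trans (Relation.ReflTransGen.mono (fun x y hxy => ?_) _ _ h2)
  obtain ⟨⟨hne', g, hg, hx, hy⟩, hxA, hyA⟩ := hxy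
  refine ⟨⟨hne', g, Finset.mem_erase.mpr ⟨?_, hg⟩, hx, hy⟩, by simp, by simp⟩
  rintro rfl
  rw [Finset.mem_singleton] at hxA hyA
  rcases inc_cases hu hv huv hx with h | h
  · exact hxA h
  · rcases inc_cases hu hv huv hy with h' | h'
    · exact hyA h'
    · exact hne' (h.trans h'.symm)

end BDu
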