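import Pool.Agent.Helper48.BDu.PT1
import Pool.Agent.Helper48.BDu.TWO

/-!
# BOND, dual side, module TRM: two-terminal pieces
-/

set_option autoImplicit false
set_option linter.unusedSectionVars false

namespace BDu

variable {W E : Type} [DecidableEq W] [DecidableEq E] {D : BDu W E}

theorem IsPth.term {P : Finset E} {a b : W} (hP : D.IsPth P a b) : D.Term P a b :=
  ⟨hP.ne, hP.mem_left, hP.mem_right, hP.con a hP.mem_left b hP.mem_right, hP.esc⟩

theorem trm_nonempty {F : Finset E} {v : W} (h : v ∈ D.VS F) : F.Nonempty := by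
  obtain ⟨e, he, _⟩ := mem_VS.mp h
  exact ⟨e, he⟩

/-- Two pieces with exactly the terminals in common form a two-connected set. -/
theorem Term.twoC {F G : Finset E} {a b : W} (hF : D.Term F a b) (hG : D.Term G a b)
    (hd : Disjoint F G) (h : ∀ v, v ∈ D.VS F → v ∈ D.VS G → v = a ∨ v = b) :
    D.TwoC (F ∪ G) := by
  refine ⟨?_, ?_⟩
  · rw [Finset.card_union_of_disjoint hd]
    have h1 := Finset.card_pos.mpr (trm_nonempty hF.ma)
    have h2 := Finset.card_pos.mpr (trm_nonempty hG.ma)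
    omega
  · have hFs : F ⊆ F ∪ G := Finset.subset_union_left
    have hGs : G ⊆ F ∪ G := Finset.subset_union_right
    have hab : ∀ x, a ≠ x → b ≠ x → D.Lk (F ∪ G) {x} a b := by
      intro x hax hbx
      by_cases hxF : x ∈ D.VS F
      · by_cases hxG : x ∈ D.VS G
        · rcases h x hxF hxG with h1 | h1
          · exact absurd h1.symm hax
          · exact absurd h1.symm hbx
        · exact (Lk.avoid_not_mem hG.con hxG).mono hGs (Finset.Subset.refl _)
      · exact (Lk.avoid_not_mem hF.con hxF).mono hFs (Finset.Subset.refl _)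
    have hesc : ∀ x v, v ∈ D.VS (F ∪ G) → v ≠ x →
        (a ≠ x ∧ D.Lk (F ∪ G) {x} v a) ∨ (b ≠ x ∧ D.Lk (F ∪ G) {x} v b) := by
      intro x v hv hvx
      rcases mem_VS_union.mp hv with hv | hv
      · rcases hF.esc x v hv hvx with ⟨h1, h2⟩ | ⟨h1, h2⟩
        · exact Or.inl ⟨h1, h2.mono hFs (Finset.Subset.refl _)⟩
        · exact Or.inr ⟨h1, h2.mono hFs (Finset.Subset.refl _)⟩
      · rcases hG.esc x v hv hvx with ⟨h1, h2⟩ | ⟨h1, h2⟩
        · exact Or.inl ⟨h1, h2.mono hGs (Finset.Subset.refl _)⟩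
        · exact Or.inr ⟨h1, h2.mono hGs (Finset.Subset.refl _)⟩
    intro x u v hu hv hux hvx
    rcases hesc x u hu hux with ⟨h1, h2⟩ | ⟨h1, h2⟩ <;>
      rcases hesc x v hv hvx with ⟨h3, h4⟩ | ⟨h3, h4⟩
    · exact h2.trans h4.symm
    · exact (h2.trans (hab x h1 h3)).trans h4.symm
    · exact (h2.trans (hab x h3 h1).symm).trans h4.symm
    · exact h2.trans h4.symm

/-- The sides of a two-vertex attachment of a two-connected set are pieces. -/
theorem TwoC.term {F G : Finset E} {a b : W} (h : D.TwoC (F ∪ G)) (hab : a ≠ b)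
    (hvs : D.VS F ∩ D.VS G = {a, b}) : D.Term F a b := by
  have ha : a ∈ D.VS F ∩ D.VS G := by rw [hvs]; simp
  have hb : b ∈ D.VS F ∩ D.VS G := by rw [hvs]; simp
  rw [Finset.mem_inter] at ha hb
  have hesc : ∀ x, ∀ v ∈ D.VS F, v ≠ x →
      (a ≠ x ∧ D.Lk F {x} v a) ∨ (b ≠ x ∧ D.Lk F {x} v b) := by
    intro x v hv hvx
    by_cases hva : v = a
    · subst hva
      exact Or.inl ⟨hvx, Lk.refl _ _ _⟩
    by_cases hvb : v = b
    · subst hvb
      exact Or.inr ⟨hvx, Lk.refl _ _ _⟩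
    obtain ⟨t, ht, htx⟩ : ∃ t, (t = a ∨ t = b) ∧ t ≠ x := by
      by_cases hax : a = x
      · exact ⟨b, Or.inr rfl, fun hbx => hab (hax.trans hbx.symm)⟩
      · exact ⟨a, Or.inl rfl, hax⟩
    have htm : t ∈ D.VS (F ∪ G) := by
      rcases ht with rfl | rfl
      · exact mem_VS_union.mpr (Or.inl ha.1)
      · exact mem_VS_union.mpr (Or.inl hb.1)
    have hl := h.2 x v t (mem_VS_union.mpr (Or.inl hv)) htm hvx htx
    obtain ⟨y, y', e, he, hy, hy', hyy', hyx, hy'x, hPy, hnP, _⟩ :=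
      Lk.exit (fun w => w ∈ D.VS F ∧ w ≠ a ∧ w ≠ b ∧ D.Lk F {x} v w) hl
        ⟨hv, hva, hvb, Lk.refl _ _ _⟩ (by
          rintro ⟨_, h1, h2, _⟩
          rcases ht with h3 | h3
          · exact h1 h3
          · exact h2 h3)
    have heF : e ∈ F := by
      rcases Finset.mem_union.mp he with he | he
      · exact he
      · exfalso
        have : y ∈ D.VS F ∩ D.VS G := Finset.mem_inter.mpr ⟨hPy.1, mem_VS.mpr ⟨e, he, hy⟩⟩
        rw [hvs] at this
        simp only [Finset.mem_insert, Finset.mem_singleton] at this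
        rcases this with h1 | h1
        · exact hPy.2.1 h1
        · exact hPy.2.2.1 h1
    have hl' : D.Lk F {x} v y' := hPy.2.2.2.trans (Lk.edge heF hy hy' hyx hy'x)
    have hy'F : y' ∈ D.VS F := mem_VS.mpr ⟨e, heF, hy'⟩
    have hne : y' ≠ x := by simpa using hy'x
    by_cases h1 : y' = a
    · subst h1
      exact Or.inl ⟨hne, hl'⟩
    · by_cases h2 : y' = b
      · subst h2
        exact Or.inr ⟨hne, hl'⟩
      · exact absurd ⟨hy'F, h1, h2, hl'⟩ hnP
  refine ⟨hab, ha.1, hb.1, ?_, hesc⟩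
  by_cases hv : ∃ v ∈ D.VS F, v ≠ a ∧ v ≠ b
  · obtain ⟨v, hvF, hva, hvb⟩ := hv
    have h1 : D.Lk F {a} v b := by
      rcases hesc a v hvF hva with ⟨h1, _⟩ | ⟨_, h1⟩
      · exact absurd rfl h1
      · exact h1
    have h2 : D.Lk F {b} v a := by
      rcases hesc b v hvF hvb with ⟨_, h1⟩ | ⟨h1, _⟩
      · exact h1
      · exact absurd rfl h1
    exact (h2.mono (Finset.Subset.refl _) (Finset.empty_subset _)).symm.trans
      (h1.mono (Finset.Subset.refl _) (Finset.empty_subset _))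
  · push Not at hv
    obtain ⟨e, he, hae⟩ := mem_VS.mp ha.1
    obtain ⟨w, haw, hinc⟩ := exists_other hae
    have hwe : w ∈ D.inc e := by rw [hinc]; simp
    have hwb : w = b := hv w (mem_VS.mpr ⟨e, he, hwe⟩) haw.symm
    subst hwb
    exact Lk.edge he hae hwe (Finset.notMem_empty _) (Finset.notMem_empty _)

/-- The terminals of a piece are linked inside. -/
theorem Term.exists_path {F : Finset E} {a b : W} (hF : D.Term F a b) :
    ∃ P, P ⊆ F ∧ D.IsPth P a b := by
  obtain ⟨P, h1, h2, _⟩ := hF.con.exists_path hF.ne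
  exact ⟨P, h1, h2⟩

theorem trm_end_ne (D : BDu W E) {F : Finset E} (hF : F.Nonempty) (x : W) :
    ∃ v ∈ D.VS F, v ≠ x := by
  obtain ⟨e, he⟩ := hF
  obtain ⟨u, v, huv, hinc⟩ := exists_end D e
  by_cases hu : u = x
  · exact ⟨v, mem_VS.mpr ⟨e, he, by rw [hinc]; simp⟩, fun hv => huv (hu.trans hv.symm)⟩
  · exact ⟨u, mem_VS.mpr ⟨e, he, by rw [hinc]; simp⟩, hu⟩

/-- A proper nonempty subset of a two-connected set has at least two attachments. -/
theorem TwoC.attach {S B : Finset E} (hS : D.TwoC S) (hB : B ⊆ S) (hne : B.Nonempty)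
    (hne' : (S \ B).Nonempty) : 2 ≤ (D.VS B ∩ D.VS (S \ B)).card := by
  by_contra hcon
  obtain ⟨x, hx⟩ : ∃ x, D.VS B ∩ D.VS (S \ B) ⊆ {x} := by
    rcases (D.VS B ∩ D.VS (S \ B)).eq_empty_or_nonempty with h0 | ⟨x, hx⟩
    · obtain ⟨x, _⟩ := VS_nonempty (D := D) hne
      exact ⟨x, by rw [h0]; exact Finset.empty_subset _⟩
    · refine ⟨x, fun y hy => ?_⟩
      rw [Finset.mem_singleton]
      have h1 : (D.VS B ∩ D.VS (S \ B)).card ≤ 1 := by omega
      exact Finset.card_le_one.mp h1 y hy x hx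
  obtain ⟨u, hu, hux⟩ := trm_end_ne D hne x
  obtain ⟨v, hv, hvx⟩ := trm_end_ne D hne' x
  have hvB : v ∉ D.VS B := by
    intro h
    have := hx (Finset.mem_inter.mpr ⟨h, hv⟩)
    exact hvx (Finset.mem_singleton.mp this)
  have hl := hS.2 x u v (VS_mono hB hu) (VS_mono Finset.sdiff_subset hv) hux hvx
  obtain ⟨y, y', e, he, hy, hy', _, hyx, _, hPy, hnP, _⟩ :=
    Lk.exit (fun w => w ∈ D.VS B) hl hu hvB
  by_cases heB : e ∈ B
  · exact hnP (mem_VS.mpr ⟨e, heB, hy'⟩)
  · have h1 : y ∈ D.VS (S \ B) := mem_VS.mpr ⟨e, Finset.mem_sdiff.mpr ⟨he, heB⟩, hy⟩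
    exact hyx (hx (Finset.mem_inter.mpr ⟨hPy, h1⟩))

/-- In a `TC` set a proper subset with a circuit on both sides has at least three attachments. -/
theorem TC.attach {S B : Finset E} (hS : D.TwoC S) (hT : D.TC S) (hB : B ⊆ S)
    (h1 : ∀ a b, ¬ D.IsPth B a b) (h2 : ∀ a b, ¬ D.IsPth (S \ B) a b) (hne : B.Nonempty)
    (hne' : (S \ B).Nonempty) : 3 ≤ (D.VS B ∩ D.VS (S \ B)).card := by
  have h3 := hS.attach hB hne hne'
  by_contra hcon
  have h4 : (D.VS B ∩ D.VS (S \ B)).card = 2 := by omega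
  obtain ⟨a, b, hab, hvs⟩ := Finset.card_eq_two.mp h4
  exact hT B (S \ B) a b ⟨Finset.union_sdiff_of_subset hB, Finset.disjoint_sdiff, hab, hvs,
    h1 a b, h2 a b⟩

end BDu
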