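import Pool.Agent.Helper48.BDu.WT1

/-!
# BOND, dual side, module WT2: weight bookkeeping 2, lifting
-/

set_option autoImplicit false
set_option linter.unusedSectionVars false

namespace BDu

variable {W E : Type} [DecidableEq W] [DecidableEq E] {D : BDu W E}
variable [Fintype E]

/-- The weights along a path and along a circuit. -/
theorem pv_sub_path {p : E → ℕ} {P : Finset E} {a b : W} (hP : D.IsPth P a b) (h : P ⊆ supp p)
    (v : W) : (v = a → D.pv (sub p P) v + 1 = D.pv p v) ∧ (v = b → D.pv (sub p P) v + 1 = D.pv p v) ∧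
      (v ∈ D.VS P → v ≠ a → v ≠ b → D.pv (sub p P) v + 2 = D.pv p v) ∧
      (v ∉ D.VS P → D.pv (sub p P) v = D.pv p v) := by
  have h1 := pv_sub (D := D) h v
  refine ⟨?_, ?_, ?_, ?_⟩
  · rintro rfl
    rw [← h1, hP.dgs]
  · rintro rfl
    rw [← h1, hP.dgt]
  · intro h2 h3 h4
    rw [← h1, hP.inn v h2 h3 h4]
  · intro h2
    rw [← h1, dg_eq_zero.2 h2, add_zero]

theorem pv_sub_circ {p : E → ℕ} {C : Finset E} (hC : D.IsCirc C) (h : C ⊆ supp p)
    (v : W) : (v ∈ D.VS C → D.pv (sub p C) v + 2 = D.pv p v) ∧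
      (v ∉ D.VS C → D.pv (sub p C) v = D.pv p v) := by
  have h1 := pv_sub (D := D) h v
  constructor
  · intro h2
    rw [← h1, hC.2.1 v h2]
  · intro h2
    rw [← h1, dg_eq_zero.2 h2, add_zero]

/-- A good circuit avoids the vertices of weight 3. -/
theorem Good.avoid_three {p : E → ℕ} {C : Finset E} (hC : D.Good p C) {v : W}
    (hv : D.pv p v = 3) : v ∉ D.VS C := by
  intro h
  have h1 := (pv_sub_circ hC.1 hC.2.1 v).1 h
  have h2 := pv_ge_two hC.2.2 v
  omega

/-- Vertices of weight at least 3 survive. -/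
theorem mem_VS_of_three {p : E → ℕ} {C : Finset E} (hC : D.IsCirc C) (hCp : C ⊆ supp p) {v : W}
    (hv : 3 ≤ D.pv p v) : v ∈ D.VS (supp (sub p C)) := by
  rw [mem_VS_supp]
  by_cases h : v ∈ D.VS C
  · have := (pv_sub_circ hC hCp v).1 h
    omega
  · have := (pv_sub_circ hC hCp v).2 h
    omega

/-- Vertices not on the circuit survive. -/
theorem mem_VS_of_not_mem {p : E → ℕ} {C : Finset E} (hCp : C ⊆ supp p) {v : W}
    (hv : D.pv p v ≠ 0) (hvC : v ∉ D.VS C) : v ∈ D.VS (supp (sub p C)) := by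
  rw [mem_VS_supp]
  have h1 := pv_sub (D := D) hCp v
  rw [dg_eq_zero.2 hvC, add_zero] at h1
  rw [h1]
  exact hv

/-- Lifting over a path. -/
theorem Good.lift_path {p : E → ℕ} {P C : Finset E} {a b : W} (hP : D.IsPth P a b)
    (hPp : P ⊆ supp p) (hC : D.Good (sub p P) C) (ha : a ∈ D.VS (supp (sub (sub p P) C)))
    (hb : b ∈ D.VS (supp (sub (sub p P) C))) : D.Good p C := by
  refine ⟨hC.1, hC.2.1.trans (supp_sub_subset p P), ?_⟩
  rw [supp_peel hPp hC.2.1]
  exact hC.2.2.ear hP ha hb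

/-- Lifting over a circuit. -/
theorem Good.lift_circ {p : E → ℕ} {Z C : Finset E} {a b : W} (hZ : D.IsCirc Z)
    (hZp : Z ⊆ supp p) (hC : D.Good (sub p Z) C) (hab : a ≠ b) (haZ : a ∈ D.VS Z)
    (hbZ : b ∈ D.VS Z) (ha : a ∈ D.VS (supp (sub (sub p Z) C)))
    (hb : b ∈ D.VS (supp (sub (sub p Z) C))) : D.Good p C := by
  refine ⟨hC.1, hC.2.1.trans (supp_sub_subset p Z), ?_⟩
  rw [supp_peel hZp hC.2.1]
  exact hC.2.2.union hZ.twoC hab ha hb haZ hbZ

end BDu
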