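import Pool.Agent.Helper48.BDu.THR
import Pool.Agent.Helper48.BDu.TRM
import Pool.Agent.Helper48.BDu.WT2

/-!
# BOND, dual side, module DA0: no vertex of weight at least 5
-/

set_option autoImplicit false
set_option linter.unusedSectionVars false

namespace BDu

variable {W E : Type} [DecidableEq W] [DecidableEq E] {D : BDu W E}
variable [Fintype E]

/-- Lifting over the circuit `C` when two of its vertices have weight 2 in `sub p C` and miss the
new circuit. -/
theorem da_zero_lift {p : E → ℕ} {C C' : Finset E} (hC : D.Good p C)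
    (hC' : D.Good (sub p C) C') {a b : W} (hab : a ≠ b) (ha : a ∈ D.VS C) (hb : b ∈ D.VS C)
    (ha2 : D.pv (sub p C) a = 2) (hb2 : D.pv (sub p C) b = 2) {f g : E}
    (hf : f ∈ supp (sub p C)) (hg : g ∈ supp (sub p C)) (haf : a ∈ D.inc f) (hbg : b ∈ D.inc g)
    (hfC : f ∉ C') (hgC : g ∉ C') : D.Good p C' := by
  have ha' : a ∉ D.VS C' :=
    hC'.1.avoid_of_dg_two hC'.2.1 (dg_of_pv_two hC.2.2 ha2).1 hf haf hfC
  have hb' : b ∉ D.VS C' :=
    hC'.1.avoid_of_dg_two hC'.2.1 (dg_of_pv_two hC.2.2 hb2).1 hg hbg hgC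
  exact hC'.lift_circ hC.1 hC.2.1 hab ha hb (mem_VS_of_not_mem hC'.2.1 (by omega) ha')
    (mem_VS_of_not_mem hC'.2.1 (by omega) hb')

/-- No vertex of weight at least 5 on `C`. -/
theorem da_zero {p : E → ℕ} (hp : D.Adm p) (hT : D.TC (supp p)) (h3 : ∀ v, D.pv p v ≠ 3)
    {C : Finset E} (hC : D.Good p C) {e e' : E} (he : p e = 1) (he' : p e' = 1) (heC : e ∈ C)
    (heC' : e' ∈ C) (ih : ∀ q : E → ℕ, supp q ⊆ supp p → Lt q p → D.EX q ∧ D.DA q)
    (hnone : ∀ v ∈ D.VS C, D.pv p v < 5) : ∃ C', D.Good p C' ∧ e ∉ C' ∧ e' ∉ C' := by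
  have hcirc := hC.1
  have hCp := hC.2.1
  have hT2 := hC.2.2
  have hCv : ∀ v ∈ D.VS C, D.pv (sub p C) v = 0 ∨ D.pv (sub p C) v = 2 := by
    intro v hv
    have h1 := (pv_sub_circ hcirc hCp v).1 hv
    have h2 := hnone v hv
    have h4 := h3 v
    omega
  -- real edges of `C` disappear
  have hav : ∀ C' : Finset E, C' ⊆ supp (sub p C) → ∀ g, p g = 1 → g ∈ C → g ∉ C' := by
    intro C' hC' g hg hgC hgC'
    have h1 := mem_supp.mp (hC' hgC')
    rw [sub_mem hgC] at h1
    omega
  by_cases hbig : ∃ v, 3 ≤ D.pv (sub p C) v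
  · have hadm : D.Adm (sub p C) := ⟨fun g => (sub_le p C g).trans (hp.le g), hT2, hbig⟩
    have hno3 : ∀ v, D.pv (sub p C) v ≠ 3 := by
      intro v
      by_cases hv : v ∈ D.VS C
      · rcases hCv v hv with h | h <;> omega
      · rw [(pv_sub_circ hcirc hCp v).2 hv]
        exact h3 v
    have hDA := (ih (sub p C) (supp_sub_subset p C) (Lt_sub hCp hcirc.1)).2 hadm hno3
    by_cases hfat : ∃ f ∈ C, p f = 2
    · obtain ⟨f, hfC, hf2⟩ := hfat
      have hf1 : sub p C f = 1 := by rw [sub_mem hfC, hf2]
      have hfs : f ∈ supp (sub p C) := mem_supp.mpr (by omega)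
      obtain ⟨C', hC', i, _, _, hi, _⟩ := hDA (fun _ => f) (fun _ => hf1)
      obtain ⟨a, b, hab, hinc⟩ := exists_end D f
      have haf : a ∈ D.inc f := by rw [hinc]; simp
      have hbf : b ∈ D.inc f := by rw [hinc]; simp
      have haC : a ∈ D.VS C := mem_VS.mpr ⟨f, hfC, haf⟩
      have hbC : b ∈ D.VS C := mem_VS.mpr ⟨f, hfC, hbf⟩
      have ha2 : D.pv (sub p C) a = 2 := by
        rcases hCv a haC with h | h
        · exact absurd h (mem_VS_supp.mp (mem_VS.mpr ⟨f, hfs, haf⟩))
        · exact h
      have hb2 : D.pv (sub p C) b = 2 := by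
        rcases hCv b hbC with h | h
        · exact absurd h (mem_VS_supp.mp (mem_VS.mpr ⟨f, hfs, hbf⟩))
        · exact h
      exact ⟨C', da_zero_lift hC hC' hab haC hbC ha2 hb2 hfs hfs haf hbf hi hi,
        hav C' hC'.2.1 e he heC, hav C' hC'.2.1 e' he' heC'⟩
    · have hreal : ∀ g ∈ C, p g ≤ 1 := by
        intro g hg
        by_contra h
        have h1 := hp.le g
        exact hfat ⟨g, hg, by omega⟩
      have hsd : supp (sub p C) = supp p \ C := supp_real hreal
      have hne : (supp p \ C).Nonempty := by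
        rw [← hsd, ← Finset.card_pos]
        have := hT2.1
        omega
      have hatt := TC.attach hp.tc hT hCp
        (fun a b hab => by
          have h1 := hcirc.2.1 a (dg_pos.mp (by rw [hab.dgs]; omega))
          rw [hab.dgs] at h1
          omega)
        (fun a b hab => by
          rw [← hsd] at hab
          have h1 := hT2.two_le_dg (v := a) (dg_pos.mp (by rw [hab.dgs]; omega))
          rw [hab.dgs] at h1
          omega) hcirc.1 hne
      obtain ⟨c₀, h0, c₁, h1, c₂, h2, h01, h02, h12⟩ := Finset.two_lt_card.mp hatt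
      set c : Fin 3 → W := ![c₀, c₁, c₂] with hc
      have hcm : ∀ i, c i ∈ D.VS C ∧ c i ∈ D.VS (supp (sub p C)) := by
        intro i
        rw [hsd]
        fin_cases i
        · exact Finset.mem_inter.mp h0
        · exact Finset.mem_inter.mp h1
        · exact Finset.mem_inter.mp h2
      have hcne : ∀ i j, i ≠ j → c i ≠ c j := by
        intro i j hij
        fin_cases i <;> fin_cases j
        · exact absurd rfl hij
        · exact h01
        · exact h02
        · exact fun h => h01 h.symm
        · exact absurd rfl hij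
        · exact h12
        · exact fun h => h02 h.symm
        · exact fun h => h12 h.symm
        · exact absurd rfl hij
      have hc2 : ∀ i, D.pv (sub p C) (c i) = 2 := by
        intro i
        rcases hCv (c i) (hcm i).1 with h | h
        · exact absurd h (mem_VS_supp.mp (hcm i).2)
        · exact h
      choose f hf hcf using fun i => mem_VS.mp (hcm i).2
      have hf1 : ∀ i, sub p C (f i) = 1 := fun i =>
        (dg_of_pv_two hT2 (hc2 i)).2 (f i) (hf i) (hcf i)
      obtain ⟨C', hC', i, j, hij, hi, hj⟩ := hDA f hf1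
      exact ⟨C', da_zero_lift hC hC' (hcne i j hij) (hcm i).1 (hcm j).1 (hc2 i) (hc2 j) (hf i)
        (hf j) (hcf i) (hcf j) hi hj, hav C' hC'.2.1 e he heC, hav C' hC'.2.1 e' he' heC'⟩
  · push Not at hbig
    have hv2 : ∀ v ∈ D.VS (supp (sub p C)), D.pv (sub p C) v = 2 := by
      intro v hv
      have h1 := mem_VS_supp.mp hv
      have h2 := hbig v
      rcases pv_ge_two hT2 v with h | h
      · exact absurd h h1
      · omega
    have hcirc' : D.IsCirc (supp (sub p C)) := by
      refine ⟨?_, fun v hv => (dg_of_pv_two hT2 (hv2 v hv)).1, fun u hu v hv => hT2.conn hu hv⟩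
      rw [← Finset.card_pos]
      have := hT2.1
      omega
    have hone : ∀ g ∈ supp (sub p C), sub p C g = 1 := by
      intro g hg
      obtain ⟨a, b, _, hinc⟩ := exists_end D g
      have ha : a ∈ D.inc g := by rw [hinc]; simp
      exact (dg_of_pv_two hT2 (hv2 a (mem_VS.mpr ⟨g, hg, ha⟩))).2 g hg ha
    have hsupp : supp (sub p (supp (sub p C))) = C := by
      ext g
      rw [mem_supp]
      by_cases hgC : g ∈ C
      · have h1 := mem_supp.mp (hCp hgC)
        simp only [hgC, iff_true]
        by_cases hg : g ∈ supp (sub p C)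
        · have h2 := hone g hg
          rw [sub_mem hgC] at h2
          rw [sub_mem hg]
          omega
        · rw [sub_not_mem hg]
          exact h1
      · simp only [hgC, iff_false, not_not]
        by_cases hg : g ∈ supp (sub p C)
        · have h2 := hone g hg
          rw [sub_not_mem hgC] at h2
          rw [sub_mem hg]
          omega
        · rw [sub_not_mem hg]
          by_contra h
          exact hg (mem_supp.mpr (by rw [sub_not_mem hgC]; exact h))
    refine ⟨supp (sub p C), ⟨hcirc', supp_sub_subset p C, ?_⟩,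
      hav _ (Finset.Subset.refl _) e he heC, hav _ (Finset.Subset.refl _) e' he' heC'⟩
    rw [hsupp]
    exact hcirc.twoC

end BDu
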