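import Pool.Agent.Helper48.BDu.THR
import Pool.Agent.Helper48.BDu.WT2

/-!
# BOND, dual side, module DA1: one vertex of weight at least 5
-/

set_option autoImplicit false
set_option linter.unusedSectionVars false

namespace BDu

variable {W E : Type} [DecidableEq W] [DecidableEq E] {D : BDu W E}
variable [Fintype E]

/-- Another vertex of `C` has weight at least 3. -/
theorem da_one_other {p : E → ℕ} (hp : D.Adm p) {C : Finset E} (hC : D.Good p C) (z : W) :
    ∃ v ∈ D.VS C, v ≠ z ∧ 3 ≤ D.pv p v := by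
  obtain ⟨hcirc, hCp, hT⟩ := hC
  by_contra hcon
  push Not at hcon
  have h2 : ∀ v ∈ D.VS C, v ≠ z → D.pv p v = 2 := by
    intro v hv hvz
    have h1 := hcon v hv hvz
    rcases pv_ge_two hp.tc v with h | h
    · exact absurd h (mem_VS_supp.mp (VS_mono hCp hv))
    · omega
  obtain ⟨u, hu, huz⟩ := hT.exists_ne z
  obtain ⟨y, hy, hyz⟩ := hcirc.twoC.exists_ne z
  have huS : u ∈ D.VS (supp p) := VS_mono (supp_sub_subset p C) hu
  have hyS : y ∈ D.VS (supp p) := VS_mono hCp hy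
  have hl := hp.tc.2 z y u hyS huS hyz huz
  have huC : u ∈ D.VS C := by
    refine Lk.stay (fun w => w ∈ D.VS C) ?_ hl hy
    intro x w g hg hx hw _ hxz _ hxC
    have hxz' : x ≠ z := by simpa using hxz
    have h3 := (dg_of_pv_two hp.tc (h2 x hxC hxz')).1
    have hgC : g ∈ C := mem_of_dg_eq hCp (by rw [h3, hcirc.2.1 x hxC]) hg hx
    exact mem_VS.mpr ⟨g, hgC, hw⟩
  have h4 := (pv_sub_circ hcirc hCp u).1 huC
  have h5 := h2 u huC huz
  exact mem_VS_supp.mp hu (by omega)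

/-- The main step, with the path `P` from `z` to `w` and the rest `Q` of the circuit. -/
theorem da_one_aux {p : E → ℕ} (hp : D.Adm p) (h3 : ∀ v, D.pv p v ≠ 3) {C : Finset E}
    (hC : D.Good p C) {e e' : E} (he : p e = 1) (he' : p e' = 1) (heC : e ∈ C) (heC' : e' ∈ C)
    (ih : ∀ q : E → ℕ, supp q ⊆ supp p → Lt q p → D.EX q ∧ D.DA q)
    {z : W} (hz5 : 5 ≤ D.pv p z) (hone : ∀ v ∈ D.VS C, 5 ≤ D.pv p v → v = z)
    {P Q : Finset E} {w : W} (hu : P ∪ Q = C) (hd : Disjoint P Q) (hP : D.IsPth P z w)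
    (hQ : D.IsPth Q z w) (hcom : ∀ v, v ∈ D.VS P → v ∈ D.VS Q → v = z ∨ v = w)
    (hw : 3 ≤ D.pv p w) (hin : ∀ v ∈ D.VS P, v ≠ z → v ≠ w → D.pv p v < 3) :
    ∃ C', D.Good p C' ∧ e ∉ C' ∧ e' ∉ C' := by
  obtain ⟨hcirc, hCp, hT⟩ := hC
  have hPC : P ⊆ C := by rw [← hu]; exact Finset.subset_union_left
  have hQC : Q ⊆ C := by rw [← hu]; exact Finset.subset_union_right
  have hPp : P ⊆ supp p := hPC.trans hCp
  have hQp : Q ⊆ supp p := hQC.trans hCp
  have hzP : z ∈ D.VS P := dg_pos.mp (by rw [hP.dgs]; omega)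
  have hwP : w ∈ D.VS P := dg_pos.mp (by rw [hP.dgt]; omega)
  have hwz : w ≠ z := fun h => hP.ne h.symm
  have hw4 : D.pv p w = 4 := by
    have h1 := h3 w
    have h2 : ¬ 5 ≤ D.pv p w := fun h => hwz (hone w (VS_mono hPC hwP) h)
    omega
  -- the new weight
  have hsp : supp (sub p Q) = supp (sub p C) ∪ P := by
    rw [supp_sub_part hd.symm hPp, Finset.union_comm Q P, hu]
  have hT' : D.TwoC (supp (sub p Q)) := by
    rw [hsp]
    exact hT.ear hP (mem_VS_of_three hcirc hCp (by omega)) (mem_VS_of_three hcirc hCp hw)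
  have hpz := (pv_sub_path hQ hQp z).1 rfl
  have hpw := (pv_sub_path hQ hQp w).2.1 rfl
  have hadm : D.Adm (sub p Q) :=
    ⟨fun g => (sub_le p Q g).trans (hp.le g), hT', ⟨z, by omega⟩⟩
  have hno3 : ∀ v, v ≠ w → D.pv (sub p Q) v ≠ 3 := by
    intro v hvw
    by_cases hvz : v = z
    · subst hvz; omega
    · by_cases hvQ : v ∈ D.VS Q
      · have h1 := (pv_sub_path hQ hQp v).2.2.1 hvQ hvz hvw
        have h2 : ¬ 5 ≤ D.pv p v := fun h => hvz (hone v (VS_mono hQC hvQ) h)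
        omega
      · rw [(pv_sub_path hQ hQp v).2.2.2 hvQ]
        exact h3 v
  have hQne : Q.Nonempty := by
    have : 0 < D.dg Q z := by rw [hQ.dgs]; omega
    obtain ⟨g, hg, _⟩ := mem_VS.mp (dg_pos.mp this)
    exact ⟨g, hg⟩
  obtain ⟨C', hC'⟩ := (ih (sub p Q) (supp_sub_subset p Q) (Lt_sub hQp hQne)).1 hadm ⟨w, hno3⟩
  have hwC' : w ∉ D.VS C' := hC'.avoid_three (by omega)
  have hdis : Disjoint C' P := by
    have hPs : P ⊆ supp (sub p Q) := by rw [hsp]; exact Finset.subset_union_right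
    have hin2 : ∀ v ∈ D.VS P, v ≠ z → v ≠ w → D.dg (supp (sub p Q)) v = 2 := by
      intro v hv hvz hvw
      have hvQ : v ∉ D.VS Q := fun hq => by
        rcases hcom v hv hq with h | h
        · exact hvz h
        · exact hvw h
      have h1 := (pv_sub_path hQ hQp v).2.2.2 hvQ
      have h2 := hin v hv hvz hvw
      rcases pv_ge_two hp.tc v with h | h
      · exact absurd h (mem_VS_supp.mp (VS_mono hPp hv))
      · exact (dg_of_pv_two hT' (by omega)).1
    rcases hC'.1.all_or_none hC'.2.1 hP hPs hin2 with h | h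
    · exact h
    · exact absurd (VS_mono h hwP) hwC'
  have hav : ∀ g, p g = 1 → g ∈ C → g ∉ C' := by
    intro g hg hgC hgC'
    rw [← hu] at hgC
    rcases Finset.mem_union.mp hgC with h | h
    · exact Finset.disjoint_left.mp hdis hgC' h
    · have h1 := mem_supp.mp (hC'.2.1 hgC')
      rw [sub_mem h] at h1
      omega
  refine ⟨C', hC'.lift_path hQ hQp (mem_VS_of_three hC'.1 hC'.2.1 (by omega))
    (mem_VS_of_three hC'.1 hC'.2.1 (by omega)), hav e he heC, hav e' he' heC'⟩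

/-- Exactly one vertex of weight at least 5 on `C`. -/
theorem da_one {p : E → ℕ} (hp : D.Adm p) (h3 : ∀ v, D.pv p v ≠ 3) {C : Finset E}
    (hC : D.Good p C) {e e' : E} (he : p e = 1) (he' : p e' = 1) (heC : e ∈ C) (heC' : e' ∈ C)
    (ih : ∀ q : E → ℕ, supp q ⊆ supp p → Lt q p → D.EX q ∧ D.DA q)
    {z : W} (hz : z ∈ D.VS C) (hz5 : 5 ≤ D.pv p z) (hone : ∀ v ∈ D.VS C, 5 ≤ D.pv p v → v = z) :
    ∃ C', D.Good p C' ∧ e ∉ C' ∧ e' ∉ C' := by
  obtain ⟨z', hz', hz'z, hz'3⟩ := da_one_other hp hC z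
  obtain ⟨e₀, he₀, hze₀⟩ := mem_VS.mp hz
  obtain ⟨P, Q, a, b, hu, hd, hP, hQ, hcom, heP, haM, hbM, hin⟩ :=
    hC.1.seg ((D.VS C).filter fun v => 3 ≤ D.pv p v) (a₀ := z) (b₀ := z') hz hz'
      (Finset.mem_filter.mpr ⟨hz, by omega⟩) (Finset.mem_filter.mpr ⟨hz', hz'3⟩)
      (fun h => hz'z h.symm) he₀
  have hPC : P ⊆ C := by rw [← hu]; exact Finset.subset_union_left
  have hzP : z ∈ D.VS P := mem_VS.mpr ⟨e₀, heP, hze₀⟩
  have hin' : ∀ v ∈ D.VS P, v ≠ a → v ≠ b → D.pv p v < 3 := by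
    intro v hv hva hvb
    have h1 := hin v hv hva hvb
    rw [Finset.mem_filter] at h1
    by_contra h2
    exact h1 ⟨VS_mono hPC hv, by omega⟩
  have ha3 := (Finset.mem_filter.mp haM).2
  have hb3 := (Finset.mem_filter.mp hbM).2
  have hzab : z = a ∨ z = b := by
    by_contra h
    push Not at h
    have := hin' z hzP h.1 h.2
    omega
  rcases hzab with rfl | rfl
  · exact da_one_aux hp h3 hC he he' heC heC' ih hz5 hone hu hd hP hQ hcom hb3 hin'
  · exact da_one_aux hp h3 hC he he' heC heC' ih hz5 hone hu hd hP.symm hQ.symm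
      (fun v h1 h2 => (hcom v h1 h2).symm) ha3 (fun v h1 h2 h4 => hin' v h1 h4 h2)

end BDu
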