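import Pool.Agent.Helper48.BDu.PT2
import Pool.Agent.Helper48.BDu.WT2

/-!
# BOND, dual side, module DA2: two vertices of weight at least 5
-/

set_option autoImplicit false
set_option linter.unusedSectionVars false

namespace BDu

variable {W E : Type} [DecidableEq W] [DecidableEq E] {D : BDu W E}
variable [Fintype E]

/-- At least two vertices of weight at least 5 on `C`. -/
theorem da_two {p : E → ℕ} (hp : D.Adm p) (h3 : ∀ v, D.pv p v ≠ 3) {C : Finset E}
    (hC : D.Good p C) {e e' : E} (he : p e = 1) (he' : p e' = 1) (heC : e ∈ C) (heC' : e' ∈ C)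
    (ih : ∀ q : E → ℕ, supp q ⊆ supp p → Lt q p → D.EX q ∧ D.DA q)
    {a b : W} (hab : a ≠ b) (ha : a ∈ D.VS C) (hb : b ∈ D.VS C) (ha5 : 5 ≤ D.pv p a)
    (hb5 : 5 ≤ D.pv p b) : ∃ C', D.Good p C' ∧ e ∉ C' ∧ e' ∉ C' := by
  have hCp : C ⊆ supp p := hC.2.1
  obtain ⟨P, Q, a', b', hPQ, hd, hP, hQ, hcom, heP, haM, hbM, hin⟩ :=
    hC.1.seg ((D.VS C).filter fun v => 5 ≤ D.pv p v) ha hb
      (Finset.mem_filter.mpr ⟨ha, ha5⟩) (Finset.mem_filter.mpr ⟨hb, hb5⟩) hab heC
  have ha5' := (Finset.mem_filter.mp haM).2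
  have hb5' := (Finset.mem_filter.mp hbM).2
  have hPp : P ⊆ supp p := (hPQ ▸ Finset.subset_union_left : P ⊆ C).trans hCp
  have hQp : Q ⊆ supp p := (hPQ ▸ Finset.subset_union_right : Q ⊆ C).trans hCp
  have hPne : P.Nonempty := ⟨e, heP⟩
  -- the weights of `sub p P`
  have hs : supp (sub p P) = supp (sub p C) ∪ Q := by
    rw [supp_sub_part hd hQp, hPQ]
  have htc : D.TwoC (supp (sub p P)) := by
    rw [hs]
    exact hC.2.2.ear hQ (mem_VS_of_three hC.1 hCp (by omega)) (mem_VS_of_three hC.1 hCp (by omega))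
  have hpa : 4 ≤ D.pv (sub p P) a' := by
    have := (pv_sub_path hP hPp a').1 rfl
    omega
  have hpb : 4 ≤ D.pv (sub p P) b' := by
    have := (pv_sub_path hP hPp b').2.1 rfl
    omega
  have hadm : D.Adm (sub p P) := ⟨fun g => (sub_le p P g).trans (hp.le g), htc, a', by omega⟩
  have hn3 : ∀ v, D.pv (sub p P) v ≠ 3 := by
    intro v
    by_cases hva : v = a'
    · subst hva
      omega
    by_cases hvb : v = b'
    · subst hvb
      omega
    by_cases hvP : v ∈ D.VS P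
    · have h4 := (pv_sub_path hP hPp v).2.2.1 hvP hva hvb
      have h5 : ¬ 5 ≤ D.pv p v := by
        intro h5
        refine hin v hvP hva hvb (Finset.mem_filter.mpr ⟨VS_mono ?_ hvP, h5⟩)
        rw [← hPQ]
        exact Finset.subset_union_left
      omega
    · rw [(pv_sub_path hP hPp v).2.2.2 hvP]
      exact h3 v
  have hlt := Lt_sub hPp hPne
  obtain ⟨hEX, hDA⟩ := ih (sub p P) (supp_sub_subset p P) hlt
  have h0 : ∀ g ∈ P, p g = 1 → g ∉ supp (sub p P) := by
    intro g hg hg1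
    rw [mem_supp, sub_mem hg, hg1]
    simp
  -- lifting
  have lift : ∀ C', D.Good (sub p P) C' → D.Good p C' := by
    intro C' hC'
    exact hC'.lift_path hP hPp (mem_VS_of_three hC'.1 hC'.2.1 (by omega))
      (mem_VS_of_three hC'.1 hC'.2.1 (by omega))
  by_cases heP' : e' ∈ P
  · obtain ⟨C', hC'⟩ := hEX hadm ⟨a', fun v _ => hn3 v⟩
    exact ⟨C', lift C' hC', fun h => h0 e heP he (hC'.2.1 h), fun h => h0 e' heP' he' (hC'.2.1 h)⟩
  · obtain ⟨C', hC', i, j, _, hi, _⟩ := hDA hadm hn3 (fun _ => e') (fun _ => by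
      rw [sub_not_mem heP']; exact he')
    exact ⟨C', lift C' hC', fun h => h0 e heP he (hC'.2.1 h), hi⟩

end BDu
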