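import Pool.Agent.Helper48.BDu.TRM

/-!
# BOND, dual side, module DEL: deleting a thread
-/

set_option autoImplicit false
set_option linter.unusedSectionVars false

namespace BDu

variable {W E : Type} [DecidableEq W] [DecidableEq E] {D : BDu W E}

theorem del_aux {S P F : Finset E} {s q x : W} (hT : D.TC S) (hFP : F ∪ P = S)
    (hdis : Disjoint F P) (hcom : ∀ v, v ∈ D.VS F → v ∈ D.VS P → v = s ∨ v = q)
    (hsF : 2 ≤ D.dg F s) (hqF : 2 ≤ D.dg F q) (hsP : s ∈ D.VS P) (hqP : 0 < D.dg P q)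
    (hF : D.Term F s q) (hsx : s ≠ x) (hqx : q ≠ x) (hn : ¬ D.Lk F {x} s q) : False := by
  classical
  set E1 : Finset E := F.filter (fun e => ∃ y ∈ D.inc e, y ≠ x ∧ D.Lk F {x} s y) with hE1
  have memE1 : ∀ e, e ∈ E1 ↔ e ∈ F ∧ ∃ y ∈ D.inc e, y ≠ x ∧ D.Lk F {x} s y := by
    intro e
    rw [hE1, Finset.mem_filter]
  have hE1F : E1 ⊆ F := Finset.filter_subset _ _
  -- vertices of `E1` other than `x` are linked to `s`
  have hv1 : ∀ z ∈ D.VS E1, z ≠ x → D.Lk F {x} s z := by
    intro z hz hzx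
    obtain ⟨e, he, hze⟩ := mem_VS.mp hz
    obtain ⟨heF, y, hy, hyx, hl⟩ := (memE1 e).mp he
    exact hl.trans (Lk.edge heF hy hze (by simpa using hyx) (by simpa using hzx))
  -- edges at a vertex linked to `s` are in `E1`
  have hv2 : ∀ z, z ≠ x → D.Lk F {x} s z → ∀ e ∈ F, z ∈ D.inc e → e ∈ E1 := by
    intro z hzx hl e he hze
    exact (memE1 e).mpr ⟨he, z, hze, hzx, hl⟩
  have hs1 : s ∈ D.VS E1 := by
    obtain ⟨e, he, hse⟩ := mem_VS.mp hF.ma
    exact mem_VS.mpr ⟨e, hv2 s hsx (Lk.refl _ _ _) e he hse, hse⟩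
  have hx1 : x ∈ D.VS E1 := by
    obtain ⟨y, y', e, he, hy, hy', _, _, _, hPy, hnP, _⟩ :=
      Lk.exit (fun w => w ≠ x ∧ D.Lk F {x} s w) hF.con ⟨hsx, Lk.refl _ _ _⟩ (fun h => hn h.2)
    have hy'x : y' = x := by
      by_contra hne
      exact hnP ⟨hne, hPy.2.trans (Lk.edge he hy hy' (by simpa using hPy.1) (by simpa using hne))⟩
    subst hy'x
    exact mem_VS.mpr ⟨e, hv2 y hPy.1 hPy.2 e he hy, hy'⟩
  have hx2 : x ∈ D.VS (F \ E1) := by
    obtain ⟨y, y', e, he, hy, hy', _, _, _, hPy, hnP, _⟩ :=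
      Lk.exit (fun w => w ≠ x ∧ D.Lk F {x} q w) hF.con.symm ⟨hqx, Lk.refl _ _ _⟩
        (fun h => hn h.2.symm)
    have hy'x : y' = x := by
      by_contra hne
      exact hnP ⟨hne, hPy.2.trans (Lk.edge he hy hy' (by simpa using hPy.1) (by simpa using hne))⟩
    subst hy'x
    refine mem_VS.mpr ⟨e, Finset.mem_sdiff.mpr ⟨he, fun heE => ?_⟩, hy'⟩
    exact hn ((hv1 y (mem_VS.mpr ⟨e, heE, hy⟩) hPy.1).trans hPy.2.symm)
  have hsep : D.Sep S E1 ((F \ E1) ∪ P) x s := by
    refine ⟨?_, ?_, hsx.symm, ?_, ?_, ?_⟩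
    · rw [← hFP, ← Finset.union_assoc, Finset.union_sdiff_of_subset hE1F]
    · rw [Finset.disjoint_union_right]
      exact ⟨Finset.disjoint_sdiff, Finset.disjoint_of_subset_left hE1F hdis⟩
    · ext z
      simp only [Finset.mem_inter, Finset.mem_insert, Finset.mem_singleton]
      constructor
      · rintro ⟨hz1, hz2⟩
        by_cases hzx : z = x
        · exact Or.inl hzx
        · right
          have hl := hv1 z hz1 hzx
          rcases mem_VS_union.mp hz2 with hz2 | hz2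
          · exfalso
            obtain ⟨e, he, hze⟩ := mem_VS.mp hz2
            rw [Finset.mem_sdiff] at he
            exact he.2 (hv2 z hzx hl e he.1 hze)
          · rcases hcom z (VS_mono hE1F hz1) hz2 with h1 | h1
            · exact h1
            · subst h1
              exact absurd hl hn
      · rintro (rfl | rfl)
        · exact ⟨hx1, mem_VS_union.mpr (Or.inl hx2)⟩
        · exact ⟨hs1, mem_VS_union.mpr (Or.inr hsP)⟩
    · intro hp
      have h1 : D.dg F s ≤ D.dg E1 s := by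
        apply Finset.card_le_card
        intro e he
        rw [Finset.mem_filter] at he ⊢
        exact ⟨hv2 s hsx (Lk.refl _ _ _) e he.1 he.2, he.2⟩
      have h2 := hp.dgt
      omega
    · intro hp
      have h1 : D.dg F q ≤ D.dg (F \ E1) q := by
        apply Finset.card_le_card
        intro e he
        rw [Finset.mem_filter] at he ⊢
        refine ⟨Finset.mem_sdiff.mpr ⟨he.1, fun heE => ?_⟩, he.2⟩
        exact hn (hv1 q (mem_VS.mpr ⟨e, heE, he.2⟩) hqx)
      have h2 := hp.dg_le q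
      have h3 : D.dg ((F \ E1) ∪ P) q = D.dg (F \ E1) q + D.dg P q :=
        dg_union (Finset.disjoint_of_subset_left Finset.sdiff_subset hdis) q
      omega
  exact hT _ _ _ _ hsep

theorem TC.delete_thread {S P : Finset E} {s q : W} (hS : D.TwoC S) (hT : D.TC S) (hPS : P ⊆ S)
    (hP : D.IsPth P s q) (hin : ∀ v ∈ D.VS P, v ≠ s → v ≠ q → D.dg S v = 2)
    (hs : 3 ≤ D.dg S s) (hq : 3 ≤ D.dg S q) : D.TwoC (S \ P) := by
  have hun : (S \ P) ∪ P = S := Finset.sdiff_union_of_subset hPS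
  have hdis : Disjoint (S \ P) P := Finset.sdiff_disjoint
  have hsF : 2 ≤ D.dg (S \ P) s := by
    have h1 := dg_sdiff (D := D) hPS s
    rw [hP.dgs] at h1
    omega
  have hqF : 2 ≤ D.dg (S \ P) q := by
    have h1 := dg_sdiff (D := D) hPS q
    rw [hP.dgt] at h1
    omega
  have hcom : ∀ v, v ∈ D.VS (S \ P) → v ∈ D.VS P → v = s ∨ v = q := by
    intro v hv hv'
    by_contra hcon
    push Not at hcon
    have h1 := dg_sdiff (D := D) hPS v
    rw [hin v hv' hcon.1 hcon.2, hP.inn v hv' hcon.1 hcon.2] at h1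
    have h2 := dg_pos.mpr hv
    omega
  have hvs : D.VS (S \ P) ∩ D.VS P = {s, q} := by
    ext v
    simp only [Finset.mem_inter, Finset.mem_insert, Finset.mem_singleton]
    constructor
    · rintro ⟨h1, h2⟩
      exact hcom v h1 h2
    · rintro (rfl | rfl)
      · exact ⟨dg_pos.mp (by omega), hP.mem_left⟩
      · exact ⟨dg_pos.mp (by omega), hP.mem_right⟩
  have hterm : D.Term (S \ P) s q := by
    have h1 : D.TwoC ((S \ P) ∪ P) := by
      rw [hun]
      exact hS
    exact h1.term hP.ne hvs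
  refine ⟨?_, ?_⟩
  · exact hsF.trans (Finset.card_le_card (Finset.filter_subset _ _))
  · intro x u v hu hv hux hvx
    by_contra hcon
    have hkey : ∀ x, s ≠ x → q ≠ x → D.Lk (S \ P) {x} s q := by
      intro x h1 h2
      by_contra hn
      exact del_aux hT hun hdis hcom hsF hqF hP.mem_left (by rw [hP.dgt]; omega) hterm h1 h2 hn
    rcases hterm.esc x u hu hux with ⟨h1, h2⟩ | ⟨h1, h2⟩ <;>
      rcases hterm.esc x v hv hvx with ⟨h3, h4⟩ | ⟨h3, h4⟩
    · exact hcon (h2.trans h4.symm)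
    · exact hcon ((h2.trans (hkey x h1 h3)).trans h4.symm)
    · exact hcon ((h2.trans (hkey x h3 h1).symm).trans h4.symm)
    · exact hcon (h2.trans h4.symm)

end BDu
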