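import Pool.Agent.Helper48.BDu.THR
import Pool.Agent.Helper48.BDu.DEL
import Pool.Agent.Helper48.BDu.WT2

/-!
# BOND, dual side, module REF: one vertex of weight 3, cases fat and five
-/

set_option autoImplicit false
set_option linter.unusedSectionVars false

namespace BDu

variable {W E : Type} [DecidableEq W] [DecidableEq E] {D : BDu W E}
variable [Fintype E]

/-- The vertex of weight 3 has a fat edge. -/
theorem ex_fat {p : E → ℕ} (hp : D.Adm p) {r : W} (hr : D.pv p r = 3)
    (h3 : ∀ v, v ≠ r → D.pv p v ≠ 3) {f : E} (hf : p f = 2) (hrf : r ∈ D.inc f)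
    (ih : ∀ q : E → ℕ, supp q ⊆ supp p → Lt q p → D.EX q ∧ D.DA q) : ∃ C, D.Good p C := by
  obtain ⟨q, hrq, hfe⟩ := exists_other hrf
  have hqf : q ∈ D.inc f := by rw [hfe]; simp
  have hfs : f ∈ supp p := by rw [mem_supp]; omega
  have hP : D.IsPth {f} r q := IsPth.single hrf hqf hrq
  have hPp : ({f} : Finset E) ⊆ supp p := by simpa using hfs
  have hsub := fun v => pv_sub_path hP hPp v
  have hout : ∀ v, v ≠ r → v ≠ q → D.pv (sub p {f}) v = D.pv p v := by
    intro v h1 h2
    apply (hsub v).2.2.2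
    rw [VS_singleton, hfe]
    simp [h1, h2]
  have hpr : D.pv (sub p {f}) r = 2 := by
    have := (hsub r).1 rfl
    omega
  -- the weight at the other end
  have hq4 : 4 ≤ D.pv p q := by
    have h1 : q ∈ D.VS (supp p) := mem_VS.mpr ⟨f, hfs, hqf⟩
    have h2 := hp.tc.two_le_dg h1
    have h3' := h3 q (Ne.symm hrq)
    have h4 : 3 ≤ D.pv p q := by
      have h5 : D.pv (sub p {f}) q + 1 = D.pv p q := (hsub q).2.1 rfl
      have h6 : supp (sub p {f}) = supp p := by
        ext e
        rw [mem_supp, mem_supp]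
        by_cases he : e = f
        · subst he; rw [sub_mem (by simp)]; omega
        · rw [sub_not_mem (by simpa using he)]
      have h7 := dg_le_pv (D := D) (sub p {f}) q
      rw [h6] at h7
      omega
    omega
  have hpq : 3 ≤ D.pv (sub p {f}) q := by
    have := (hsub q).2.1 rfl
    omega
  have hsupp : supp (sub p {f}) = supp p := by
    ext e
    rw [mem_supp, mem_supp]
    by_cases he : e = f
    · subst he; rw [sub_mem (by simp)]; omega
    · rw [sub_not_mem (by simpa using he)]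
  have htc : D.TwoC (supp (sub p {f})) := by rw [hsupp]; exact hp.tc
  have hadm : D.Adm (sub p {f}) := ⟨fun e => (sub_le p _ e).trans (hp.le e), htc, q, hpq⟩
  have hih := ih (sub p {f}) (supp_sub_subset _ _) (Lt_sub hPp (Finset.singleton_nonempty f))
  have hex : ∃ C, D.Good (sub p {f}) C ∧ f ∉ C := by
    by_cases h4 : D.pv (sub p {f}) q = 3
    · obtain ⟨C, hC⟩ := hih.1 hadm ⟨q, fun v hv => by
        by_cases h5 : v = r
        · rw [h5, hpr]; omega
        · rw [hout v h5 hv]; exact h3 v h5⟩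
      refine ⟨C, hC, fun hfC => ?_⟩
      exact hC.avoid_three h4 (mem_VS.mpr ⟨f, hfC, hqf⟩)
    · obtain ⟨C, hC, i, _, _, hi, _⟩ := hih.2 hadm (fun v => by
        by_cases h5 : v = r
        · rw [h5, hpr]; omega
        · by_cases h6 : v = q
          · rw [h6]; exact h4
          · rw [hout v h5 h6]; exact h3 v h5) (fun _ => f) (fun _ => by
            rw [sub_mem (by simp)]; omega)
      exact ⟨C, hC, hi⟩
  obtain ⟨C, hC, hfC⟩ := hex
  refine ⟨C, Good.lift_path hP hPp hC ?_ (mem_VS_of_three hC.1 hC.2.1 hpq)⟩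
  apply mem_VS_of_not_mem hC.2.1 (by rw [hpr]; omega)
  exact hC.1.avoid_of_dg_two hC.2.1 (dg_of_pv_two htc hpr).1 (hsupp ▸ hfs) hrf hfC

/-- The vertex of weight 3 has a real thread to a vertex of weight at least 5. -/
theorem ex_five {p : E → ℕ} (hp : D.Adm p) (hT : D.TC (supp p)) {r : W} (hr : D.pv p r = 3)
    (h3 : ∀ v, v ≠ r → D.pv p v ≠ 3) (hreal : ∀ e ∈ supp p, r ∈ D.inc e → p e = 1)
    {P : Finset E} {q : W} (hP : D.IsPth P r q) (hPp : P ⊆ supp p) (hq : 5 ≤ D.pv p q)
    (hin : ∀ v ∈ D.VS P, v ≠ r → v ≠ q → D.pv p v = 2) (hPr : ∀ e ∈ P, p e = 1)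
    (ih : ∀ q : E → ℕ, supp q ⊆ supp p → Lt q p → D.EX q ∧ D.DA q) : ∃ C, D.Good p C := by
  have hsub := fun v => pv_sub_path hP hPp v
  have hsupp : supp (sub p P) = supp p \ P := supp_real fun e he => (hPr e he).le
  have hdr : 3 ≤ D.dg (supp p) r := by
    rw [← hr, pv_eq_sum, dg_eq_sum]
    refine Finset.sum_le_sum fun e _ => ?_
    by_cases hv : r ∈ D.inc e
    · by_cases he : e ∈ supp p
      · simp [hv, he, hreal e he hv]
      · have : p e = 0 := by
          by_contra h
          exact he (mem_supp.mpr h)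
        simp [this]
    · simp [hv]
  have hdq : 3 ≤ D.dg (supp p) q := by
    obtain ⟨e, he, hqe⟩ := mem_VS.mp hP.mem_right
    exact three_le_dg hp.le (by omega) (hPr e he) hqe
  have htc : D.TwoC (supp (sub p P)) := by
    rw [hsupp]
    exact hT.delete_thread hp.tc hPp hP
      (fun v hv h1 h2 => (dg_of_pv_two hp.tc (hin v hv h1 h2)).1) hdr hdq
  have hpr : D.pv (sub p P) r = 2 := by
    have := (hsub r).1 rfl
    omega
  have hpq : 4 ≤ D.pv (sub p P) q := by
    have := (hsub q).2.1 rfl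
    omega
  have hadm : D.Adm (sub p P) :=
    ⟨fun e => (sub_le p _ e).trans (hp.le e), htc, q, by omega⟩
  have hno3 : ∀ v, D.pv (sub p P) v ≠ 3 := by
    intro v
    by_cases h1 : v = r
    · rw [h1, hpr]; omega
    by_cases h2 : v = q
    · rw [h2]; omega
    by_cases h4 : v ∈ D.VS P
    · have h5 := (hsub v).2.2.1 h4 h1 h2
      have h6 := hin v h4 h1 h2
      omega
    · rw [(hsub v).2.2.2 h4]; exact h3 v h1
  obtain ⟨g, hg, hrg⟩ := mem_VS.mp (mem_VS_supp.mpr (by rw [hpr]; omega) :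
    r ∈ D.VS (supp (sub p P)))
  have hg' := hg
  rw [hsupp, Finset.mem_sdiff] at hg'
  have hPne : P.Nonempty := by
    obtain ⟨e, he, _⟩ := mem_VS.mp hP.mem_right
    exact ⟨e, he⟩
  obtain ⟨C, hC, i, _, _, hi, _⟩ := (ih (sub p P) (supp_sub_subset _ _) (Lt_sub hPp hPne)).2
    hadm hno3 (fun _ => g) (fun _ => by
      rw [sub_not_mem hg'.2]; exact hreal g hg'.1 hrg)
  refine ⟨C, Good.lift_path hP hPp hC ?_ (mem_VS_of_three hC.1 hC.2.1 (by omega))⟩
  apply mem_VS_of_not_mem hC.2.1 (by rw [hpr]; omega)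
  exact hC.1.avoid_of_dg_two hC.2.1 (dg_of_pv_two htc hpr).1 hg hrg hi

end BDu
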