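import Pool.Agent.Helper48.BDu.THR
import Pool.Agent.Helper48.BDu.WT2

/-!
# BOND, dual side, module RFO: one vertex of weight 3, case four
-/

set_option autoImplicit false
set_option linter.unusedSectionVars false

namespace BDu

variable {W E : Type} [DecidableEq W] [DecidableEq E] {D : BDu W E}
variable [Fintype E]

/-- The vertex of weight 3 has a real thread `P` to a vertex of weight 4; `C` is good for the
weight `add p P`. -/
theorem ex_four {p : E → ℕ} (hp : D.Adm p) {r : W} (hr : D.pv p r = 3)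
    (h3 : ∀ v, v ≠ r → D.pv p v ≠ 3) (hreal : ∀ e ∈ supp p, r ∈ D.inc e → p e = 1)
    {P : Finset E} {q : W} (hP : D.IsPth P r q) (hPp : P ⊆ supp p) (hq : D.pv p q = 4)
    (hin : ∀ v ∈ D.VS P, v ≠ r → v ≠ q → D.pv p v = 2) (hPr : ∀ e ∈ P, p e = 1)
    (ih : ∀ q : E → ℕ, supp q ⊆ supp p → Lt q p → D.EX q ∧ D.DA q)
    {C : Finset E} (hC : D.Good (add p P) C) : ∃ C', D.Good p C' := by
  have hsa : supp (add p P) = supp p := by
    ext e
    rw [mem_supp, mem_supp, add]
    split_ifs with h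
    · have := mem_supp.mp (hPp h)
      omega
    · rfl
  have hCp : C ⊆ supp p := by rw [← hsa]; exact hC.2.1
  have hrP : r ∈ D.VS P := dg_pos.mp (by rw [hP.dgs]; exact Nat.one_pos)
  have hqP : q ∈ D.VS P := dg_pos.mp (by rw [hP.dgt]; exact Nat.one_pos)
  obtain ⟨r1, hr1, hr1i⟩ := mem_VS.mp hrP
  have hdg : ∀ v ∈ D.VS P, v ≠ r → v ≠ q → D.dg (supp p) v = 2 := fun v h1 h2 h4 =>
    (dg_of_pv_two hp.tc (hin v h1 h2 h4)).1
  rcases hC.1.all_or_none hCp hP hPp hdg with hd | hPC
  · -- `C` is disjoint from `P`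
    refine ⟨C, hC.1, hCp, ?_⟩
    have h1 : supp (sub p C) = supp (sub (add p P) C) := by
      ext e
      rw [mem_supp, mem_supp, sub_apply, sub_apply, add]
      by_cases h : e ∈ P
      · have h2 : e ∉ C := Finset.disjoint_right.mp hd h
        have h4 := hPr e h
        simp [h, h2, h4]
      · simp [h]
    rw [h1]
    exact hC.2.2
  -- `P ⊆ C`
  obtain ⟨hR, hRcom⟩ := hC.1.compl_path hP hPC
  set R := C \ P with hRdef
  have hRC : R ⊆ C := Finset.sdiff_subset
  have hRp : R ⊆ supp p := hRC.trans hCp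
  have hrR : r ∈ D.VS R := dg_pos.mp (by rw [hR.dgs]; exact Nat.one_pos)
  have hqR : q ∈ D.VS R := dg_pos.mp (by rw [hR.dgt]; exact Nat.one_pos)
  obtain ⟨r2, hr2, hr2i⟩ := mem_VS.mp hrR
  have hr2P : r2 ∉ P := (Finset.mem_sdiff.mp hr2).2
  have hr2C : r2 ∈ C := (Finset.mem_sdiff.mp hr2).1
  have hr12 : r1 ≠ r2 := fun h => hr2P (h ▸ hr1)
  have hrC : r ∈ D.VS C := VS_mono hPC hrP
  have hr1p : p r1 = 1 := hPr r1 hr1
  by_cases ha : ∃ z ∈ D.VS C, 5 ≤ D.pv p z
  · -- case (a)
    obtain ⟨z, hzC, hz5⟩ := ha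
    have hzr : r ≠ z := by
      rintro rfl
      omega
    obtain ⟨P1, Q1, a, b, hPQ, hd, hP1, hQ1, hcom, heP, haM, hbM, hin1⟩ :=
      hC.1.seg ((D.VS C).filter fun v => 5 ≤ D.pv p v ∨ v = r) hrC hzC
        (Finset.mem_filter.mpr ⟨hrC, Or.inr rfl⟩) (Finset.mem_filter.mpr ⟨hzC, Or.inl hz5⟩) hzr
        hr2C
    have hP1C : P1 ⊆ C := by rw [← hPQ]; exact Finset.subset_union_left
    have hQ1C : Q1 ⊆ C := by rw [← hPQ]; exact Finset.subset_union_right
    have hP1p : P1 ⊆ supp p := hP1C.trans hCp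
    have hrP1 : r ∈ D.VS P1 := mem_VS.mpr ⟨r2, heP, hr2i⟩
    -- the other end
    obtain ⟨z', hP1', hQ1', hz', hin1'⟩ : ∃ z', D.IsPth P1 r z' ∧ D.IsPth Q1 r z' ∧
        5 ≤ D.pv p z' ∧ ∀ v ∈ D.VS P1, v ≠ r → v ≠ z' → ¬ 5 ≤ D.pv p v := by
      have hin2 : ∀ v ∈ D.VS P1, v ≠ a → v ≠ b → ¬ (5 ≤ D.pv p v ∨ v = r) := by
        intro v hv h1 h2 h4
        exact hin1 v hv h1 h2 (Finset.mem_filter.mpr ⟨VS_mono hP1C hv, h4⟩)
      by_cases hra : r = a
      · subst hra
        refine ⟨b, hP1, hQ1, ?_, fun v hv h1 h2 h4 => hin2 v hv h1 h2 (Or.inl h4)⟩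
        rcases (Finset.mem_filter.mp hbM).2 with h | h
        · exact h
        · exact absurd h.symm hP1.ne
      · by_cases hrb : r = b
        · subst hrb
          refine ⟨a, hP1.symm, hQ1.symm, ?_, fun v hv h1 h2 h4 => hin2 v hv h2 h1 (Or.inl h4)⟩
          rcases (Finset.mem_filter.mp haM).2 with h | h
          · exact h
          · exact absurd h hP1.ne
        · exact absurd (Or.inr rfl) (hin2 r hrP1 hra hrb)
    have hr1P1 : r1 ∉ P1 := by
      intro h
      have h1 : 2 ≤ D.dg P1 r := by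
        have h2 : ({r1, r2} : Finset E) ⊆ P1.filter fun e => r ∈ D.inc e := by
          intro e he
          rcases Finset.mem_insert.mp he with rfl | he
          · exact Finset.mem_filter.mpr ⟨h, hr1i⟩
          · rw [Finset.mem_singleton] at he
            subst he
            exact Finset.mem_filter.mpr ⟨heP, hr2i⟩
        have h4 := Finset.card_le_card h2
        rw [Finset.card_pair hr12] at h4
        exact h4
      rw [hP1'.dgs] at h1
      omega
    have hdP : Disjoint P1 P := by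
      rcases hP1'.all_or_none hP1p hP hPp (fun v h1 h2 h4 => ⟨hdg v h1 h2 h4, h2, by
        rintro rfl
        have := hin v h1 h2 h4
        omega⟩) with h | h
      · exact h
      · exact absurd (h hr1) hr1P1
    have hs : supp (sub p P1) = supp (sub (add p P) C) ∪ Q1 := by
      ext e
      rw [mem_supp, Finset.mem_union, mem_supp, sub_apply, sub_apply, add]
      by_cases h1 : e ∈ P1
      · have h2 : e ∉ P := Finset.disjoint_left.mp hdP h1
        have h4 : e ∉ Q1 := Finset.disjoint_left.mp hd h1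
        have h5 : e ∈ C := hP1C h1
        simp [h1, h2, h4, h5]
      · by_cases h4 : e ∈ Q1
        · have h5 := mem_supp.mp (hCp (hQ1C h4))
          simp [h1, h4, h5]
        · have h5 : e ∉ C := by
            rw [← hPQ, Finset.mem_union]
            exact fun h => h.elim h1 h4
          have h6 : e ∉ P := fun h => h5 (hPC h)
          simp [h1, h4, h5, h6]
    have hpr : 3 ≤ D.pv (add p P) r := by rw [pv_add]; omega
    have hpz : 3 ≤ D.pv (add p P) z' := by rw [pv_add]; omega
    have htc : D.TwoC (supp (sub p P1)) := by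
      rw [hs]
      exact hC.2.2.ear hQ1' (mem_VS_of_three hC.1 hC.2.1 hpr) (mem_VS_of_three hC.1 hC.2.1 hpz)
    have hqr : D.pv (sub p P1) r = 2 := by
      have := (pv_sub_path hP1' hP1p r).1 rfl
      omega
    have hqz : 4 ≤ D.pv (sub p P1) z' := by
      have := (pv_sub_path hP1' hP1p z').2.1 rfl
      omega
    have hn3 : ∀ v, D.pv (sub p P1) v ≠ 3 := by
      intro v
      by_cases hvr : v = r
      · subst hvr
        omega
      by_cases hvz : v = z'
      · subst hvz
        omega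
      by_cases hvP : v ∈ D.VS P1
      · have h4 := (pv_sub_path hP1' hP1p v).2.2.1 hvP hvr hvz
        have h5 := hin1' v hvP hvr hvz
        omega
      · rw [(pv_sub_path hP1' hP1p v).2.2.2 hvP]
        exact h3 v hvr
    have hadm : D.Adm (sub p P1) := ⟨fun g => (sub_le p P1 g).trans (hp.le g), htc, z', by omega⟩
    obtain ⟨-, hDA⟩ := ih (sub p P1) (supp_sub_subset p P1) (Lt_sub hP1p ⟨r2, heP⟩)
    have hr1' : sub p P1 r1 = 1 := by rw [sub_not_mem hr1P1]; exact hr1p
    obtain ⟨C', hC', i, j, _, hi, _⟩ := hDA hadm hn3 (fun _ => r1) (fun _ => hr1')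
    have hrC' : r ∉ D.VS C' :=
      hC'.1.avoid_of_dg_two hC'.2.1 (dg_of_pv_two htc hqr).1
        (mem_supp.mpr (by rw [hr1']; exact one_ne_zero)) hr1i hi
    exact ⟨C', hC'.lift_path hP1' hP1p (mem_VS_of_not_mem hC'.2.1 (by omega) hrC')
      (mem_VS_of_three hC'.1 hC'.2.1 (by omega))⟩
  · -- case (b)
    push Not at ha
    have hfun : sub p R = sub (add p P) C := by
      funext e
      rw [sub_apply, sub_apply, add]
      by_cases h1 : e ∈ P
      · have h2 : e ∉ R := fun h => (Finset.mem_sdiff.mp h).2 h1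
        have h4 : e ∈ C := hPC h1
        simp [h1, h2, h4]
      · by_cases h4 : e ∈ C
        · have h5 : e ∈ R := Finset.mem_sdiff.mpr ⟨h4, h1⟩
          simp [h1, h4, h5]
        · have h5 : e ∉ R := fun h => h4 (hRC h)
          simp [h1, h4, h5]
    have htc : D.TwoC (supp (sub p R)) := by
      rw [hfun]
      exact hC.2.2
    have hqr : D.pv (sub p R) r = 2 := by
      have := (pv_sub_path hR hRp r).1 rfl
      omega
    have hqq : D.pv (sub p R) q = 3 := by
      have := (pv_sub_path hR hRp q).2.1 rfl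
      omega
    have hn3 : ∀ v, v ≠ q → D.pv (sub p R) v ≠ 3 := by
      intro v hvq
      by_cases hvr : v = r
      · subst hvr
        omega
      by_cases hvR : v ∈ D.VS R
      · have h4 := (pv_sub_path hR hRp v).2.2.1 hvR hvr hvq
        have h5 := ha v (VS_mono hRC hvR)
        omega
      · rw [(pv_sub_path hR hRp v).2.2.2 hvR]
        exact h3 v hvr
    have hadm : D.Adm (sub p R) := ⟨fun g => (sub_le p R g).trans (hp.le g), htc, q, by omega⟩
    obtain ⟨hEX, -⟩ := ih (sub p R) (supp_sub_subset p R) (Lt_sub hRp ⟨r2, hr2⟩)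
    obtain ⟨C', hC'⟩ := hEX hadm ⟨q, hn3⟩
    have hqC' : q ∉ D.VS C' := hC'.avoid_three hqq
    have hPR : ∀ e ∈ P, e ∉ R := fun e h1 h2 => (Finset.mem_sdiff.mp h2).2 h1
    have hPs : P ⊆ supp (sub p R) := by
      intro e he
      rw [mem_supp, sub_not_mem (hPR e he), hPr e he]
      exact one_ne_zero
    have hdP : Disjoint C' P := by
      rcases hC'.1.all_or_none hC'.2.1 hP hPs (fun v h1 h2 h4 => by
        have h5 : v ∉ D.VS R := fun h => (hRcom v h1 h).elim h2 h4
        have h6 : D.pv (sub p R) v = 2 := by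
          rw [(pv_sub_path hR hRp v).2.2.2 h5]
          exact hin v h1 h2 h4
        exact (dg_of_pv_two htc h6).1) with h | h
      · exact h
      · exact absurd (VS_mono h hqP) hqC'
    have hrC' : r ∉ D.VS C' :=
      hC'.1.avoid_of_dg_two hC'.2.1 (dg_of_pv_two htc hqr).1 (hPs hr1) hr1i
        (Finset.disjoint_right.mp hdP hr1)
    exact ⟨C', hC'.lift_path hR hRp (mem_VS_of_not_mem hC'.2.1 (by omega) hrC')
      (mem_VS_of_not_mem hC'.2.1 (by omega) hqC')⟩

end BDu
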