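import Pool.Agent.Helper48.BDu.PT2

/-!
# BOND, dual side, module THR: threads
-/

set_option autoImplicit false
set_option linter.unusedSectionVars false

namespace BDu

variable {W E : Type} [DecidableEq W] [DecidableEq E] {D : BDu W E}

theorem thr_aux {Q P : Finset E} {a b : W} (hP : D.IsPth P a b)
    (h : ∀ v, v ∈ D.VS P → v ∈ D.VS Q → v ≠ a → v ≠ b → ∀ e ∈ P, v ∈ D.inc e → e ∈ Q) :
    Disjoint Q P ∨ P ⊆ Q := by
  by_contra hcon
  push Not at hcon
  obtain ⟨h1, h2⟩ := hcon
  have hne1 : (P ∩ Q).Nonempty := by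
    rw [Finset.not_disjoint_iff] at h1
    obtain ⟨e, he, he'⟩ := h1
    exact ⟨e, Finset.mem_inter.mpr ⟨he', he⟩⟩
  have hne2 : (P \ Q).Nonempty := by
    rw [Finset.not_subset] at h2
    obtain ⟨e, he, he'⟩ := h2
    exact ⟨e, Finset.mem_sdiff.mpr ⟨he, he'⟩⟩
  have hun : (P ∩ Q) ∪ (P \ Q) = P := by
    ext e
    simp only [Finset.mem_union, Finset.mem_inter, Finset.mem_sdiff]
    tauto
  have hdis : Disjoint (P ∩ Q) (P \ Q) := by
    rw [Finset.disjoint_left]
    intro e he he'
    exact (Finset.mem_sdiff.mp he').2 (Finset.mem_inter.mp he).2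
  obtain ⟨v, hv1, hv2, hva, hvb⟩ := hP.meet hun hdis hne1 hne2
  obtain ⟨e, he, hve⟩ := mem_VS.mp hv2
  rw [Finset.mem_sdiff] at he
  exact he.2 (h v (VS_mono Finset.inter_subset_left hv1) (VS_mono Finset.inter_subset_right hv1)
    hva hvb e he.1 hve)

/-- A circuit contains all or nothing of a path whose inner vertices have degree two. -/
theorem IsCirc.all_or_none {F C P : Finset E} {a b : W} (hC : D.IsCirc C) (hCF : C ⊆ F)
    (hP : D.IsPth P a b) (hPF : P ⊆ F) (hin : ∀ v ∈ D.VS P, v ≠ a → v ≠ b → D.dg F v = 2) :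
    Disjoint C P ∨ P ⊆ C := by
  refine thr_aux hP fun v hv hvC hva hvb e he hve => ?_
  refine mem_of_dg_eq hCF ?_ (hPF he) hve
  rw [hin v hv hva hvb, hC.2.1 v hvC]

/-- A path with an edge in `P` (inner vertices of degree two) and with no end inside `P`
contains `P`. -/
theorem IsPth.all_or_none {F Q P : Finset E} {a b c d : W} (hQ : D.IsPth Q c d) (hQF : Q ⊆ F)
    (hP : D.IsPth P a b) (hPF : P ⊆ F)
    (hin : ∀ v ∈ D.VS P, v ≠ a → v ≠ b → D.dg F v = 2 ∧ v ≠ c ∧ v ≠ d) :
    Disjoint Q P ∨ P ⊆ Q := by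
  refine thr_aux hP fun v hv hvQ hva hvb e he hve => ?_
  obtain ⟨h1, h2, h3⟩ := hin v hv hva hvb
  refine mem_of_dg_eq hQF ?_ (hPF he) hve
  rw [h1, hQ.inn v hvQ h2 h3]

/-- A vertex of degree two of `F` is not on a circuit which misses one of its edges. -/
theorem IsCirc.avoid_of_dg_two {F C : Finset E} (hC : D.IsCirc C) (hCF : C ⊆ F) {v : W}
    (hv : D.dg F v = 2) {e : E} (he : e ∈ F) (hve : v ∈ D.inc e) (heC : e ∉ C) :
    v ∉ D.VS C := by
  intro hvC
  exact heC (mem_of_dg_eq hCF (by rw [hv, hC.2.1 v hvC]) he hve)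

theorem thr_main {F : Finset E} (hF : D.TwoC F) {s : W} (hs : 3 ≤ D.dg F s) {e : E} :
    ∀ (n : ℕ) (P : Finset E) (q : W), D.IsPth P s q → P ⊆ F → e ∈ P →
      (∀ v ∈ D.VS P, v ≠ s → v ≠ q → D.dg F v = 2) → F.card - P.card = n →
      ∃ P q, D.IsPth P s q ∧ P ⊆ F ∧ e ∈ P ∧
        3 ≤ D.dg F q ∧ ∀ v ∈ D.VS P, v ≠ s → v ≠ q → D.dg F v = 2 := by
  intro n
  induction n with
  | zero =>
    intro P q hP hPF heP hin hn
    exfalso
    have h1 : P = F := Finset.eq_of_subset_of_card_le hPF (by omega)
    rw [← h1, hP.dgs] at hs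
    omega
  | succ n ih =>
    intro P q hP hPF heP hin hn
    by_cases hq3 : 3 ≤ D.dg F q
    · exact ⟨P, q, hP, hPF, heP, hq3, hin⟩
    have hqF : q ∈ D.VS F := VS_mono hPF hP.mem_right
    have hq2 : D.dg F q = 2 := by
      have := hF.two_le_dg hqF
      omega
    -- another edge at `q`
    obtain ⟨e', he', hqe', he'P⟩ : ∃ e' ∈ F, q ∈ D.inc e' ∧ e' ∉ P := by
      by_contra hcon
      push Not at hcon
      have h1 : D.dg F q ≤ D.dg P q := by
        apply Finset.card_le_card
        intro f hf
        rw [Finset.mem_filter] at hf ⊢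
        exact ⟨hcon f hf.1 hf.2, hf.2⟩
      rw [hP.dgt] at h1
      omega
    obtain ⟨q', hqq', hinc⟩ := exists_other hqe'
    have hq'e' : q' ∈ D.inc e' := by rw [hinc]; simp
    have hfull : ∀ v ∈ D.VS P, v ≠ s → v ≠ q → ∀ f ∈ F, v ∈ D.inc f → f ∈ P := by
      intro v hv h1 h2 f hf hvf
      exact mem_of_dg_eq hPF (by rw [hin v hv h1 h2, hP.inn v hv h1 h2]) hf hvf
    by_cases hq's : q' = s
    · -- a circuit through `s`: impossible
      exfalso
      subst hq's
      have hZ : P ∪ {e'} ⊆ F := by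
        intro f hf
        rcases Finset.mem_union.mp hf with hf | hf
        · exact hPF hf
        · rw [Finset.mem_singleton.mp hf]
          exact he'
      have hdis : Disjoint P {e'} := Finset.disjoint_singleton_right.mpr he'P
      have hclos : ∀ v ∈ D.VS (P ∪ {e'}), v ≠ q' → ∀ f ∈ F, v ∈ D.inc f → f ∈ P ∪ {e'} := by
        intro v hv hvs f hf hvf
        by_cases hvq : v = q
        · subst hvq
          refine mem_of_dg_eq hZ ?_ hf hvf
          rw [dg_union hdis, dg_singleton, hP.dgt, if_pos hqe', hq2]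
        · rcases mem_VS_union.mp hv with hv | hv
          · exact Finset.mem_union_left _ (hfull v hv hvs hvq f hf hvf)
          · exfalso
            rw [VS_singleton, hinc] at hv
            simp only [Finset.mem_insert, Finset.mem_singleton] at hv
            rcases hv with h1 | h1
            · exact hvq h1
            · exact hvs h1
      have hdgs : D.dg (P ∪ {e'}) q' = 2 := by
        rw [dg_union hdis, dg_singleton, hP.dgs, if_pos hq'e']
      obtain ⟨f, hf, hsf, hfZ⟩ : ∃ f ∈ F, q' ∈ D.inc f ∧ f ∉ P ∪ {e'} := by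
        by_contra hcon
        push Not at hcon
        have h1 : D.dg F q' ≤ D.dg (P ∪ {e'}) q' := by
          apply Finset.card_le_card
          intro f hf
          rw [Finset.mem_filter] at hf ⊢
          exact ⟨hcon f hf.1 hf.2, hf.2⟩
        omega
      obtain ⟨y, hsy, hincf⟩ := exists_other hsf
      have hyf : y ∈ D.inc f := by rw [hincf]; simp
      have hyZ : y ∉ D.VS (P ∪ {e'}) := fun h => hfZ (hclos y h hsy.symm f hf hyf)
      have hl := hF.2 q' q y hqF (mem_VS.mpr ⟨f, hf, hyf⟩) hqq' hsy.symm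
      apply hyZ
      refine Lk.stay (fun w => w ∈ D.VS (P ∪ {e'})) ?_ hl
        (mem_VS_union.mpr (Or.inl hP.mem_right))
      intro x x' g hg hx hx' _ hxs _ hxZ
      exact mem_VS.mpr ⟨g, hclos x hxZ (by simpa using hxs) g hg hx, hx'⟩
    · have hq'P : q' ∉ D.VS P := by
        intro h
        by_cases h1 : q' = q
        · exact hqq' h1.symm
        · exact he'P (hfull q' h hq's h1 e' he' hq'e')
      have hsing : D.IsPth {e'} q q' := IsPth.single hqe' hq'e' hqq'
      have hcom : ∀ v, v ∈ D.VS P → v ∈ D.VS {e'} → v = q := by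
        intro v hv hv'
        rw [VS_singleton, hinc] at hv'
        simp only [Finset.mem_insert, Finset.mem_singleton] at hv'
        rcases hv' with h1 | h1
        · exact h1
        · subst h1
          exact absurd hv hq'P
      obtain ⟨hdis, hpath⟩ := hP.append hsing hcom
      refine ih (P ∪ {e'}) q' hpath ?_ (Finset.mem_union_left _ heP) ?_ ?_
      · intro f hf
        rcases Finset.mem_union.mp hf with hf | hf
        · exact hPF hf
        · rw [Finset.mem_singleton.mp hf]
          exact he'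
      · intro v hv h1 h2
        by_cases hvq : v = q
        · subst hvq
          exact hq2
        · rcases mem_VS_union.mp hv with hv | hv
          · exact hin v hv h1 hvq
          · exfalso
            rw [VS_singleton, hinc] at hv
            simp only [Finset.mem_insert, Finset.mem_singleton] at hv
            rcases hv with h3 | h3
            · exact hvq h3
            · exact h2 h3
      · rw [Finset.card_union_of_disjoint hdis, Finset.card_singleton]
        omega

/-- Existence of a thread starting with a given edge `e` at a vertex `s` of degree at least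
three. -/
theorem TwoC.exists_thread {F : Finset E} (hF : D.TwoC F) {s : W} (hs : 3 ≤ D.dg F s) {e : E}
    (he : e ∈ F) (hse : s ∈ D.inc e) : ∃ P q, D.IsPth P s q ∧ P ⊆ F ∧ e ∈ P ∧
      3 ≤ D.dg F q ∧ ∀ v ∈ D.VS P, v ≠ s → v ≠ q → D.dg F v = 2 := by
  obtain ⟨t, hst, hinc⟩ := exists_other hse
  have hte : t ∈ D.inc e := by rw [hinc]; simp
  refine thr_main hF hs _ {e} t (IsPth.single hse hte hst) (Finset.singleton_subset_iff.mpr he)
    (Finset.mem_singleton_self e) ?_ rfl
  intro v hv h1 h2
  exfalso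
  rw [VS_singleton, hinc] at hv
  simp only [Finset.mem_insert, Finset.mem_singleton] at hv
  rcases hv with h3 | h3
  · exact h1 h3
  · exact h2 h3

end BDu
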