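import Pool.Agent.Helper48.BDu.SPC
import Pool.Agent.Helper48.BDu.THR
import Pool.Agent.Helper66.BDu.SPX

/-!
# BOND, dual side, module SPF: fat closing
-/

set_option autoImplicit false
set_option linter.unusedSectionVars false

namespace BDu

variable {W E : Type} [DecidableEq W] [DecidableEq E] {D : BDu W E}
variable [Fintype E]

/-- Fat closing of both sides, then gluing. -/
theorem sep_fat {p : E → ℕ} (hp : D.Adm p) {E1 E2 : Finset E} {a b : W}
    (hs : D.Sep (supp p) E1 E2 a b) {P1 P2 : Finset E} (hP1 : D.IsPth P1 a b) (hP1E : P1 ⊆ E1)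
    (hP2 : D.IsPth P2 a b) (hP2E : P2 ⊆ E2) {C1 C2 : Finset E}
    (hC1 : D.Good (clo p E1 P2 2) C1) (hC2 : D.Good (clo p E2 P1 2) C2) :
    ∃ C, D.Good p C ∧ ∀ e ∈ C, (e ∈ C1 ∧ e ∈ E1) ∨ (e ∈ C2 ∧ e ∈ E2) := by
  have hE1 : E1 ⊆ supp p := by rw [← hs.un]; exact Finset.subset_union_left
  have hE2 : E2 ⊆ supp p := by rw [← hs.un]; exact Finset.subset_union_right
  obtain ⟨-, -, -, hin1, hd1⟩ := hs.close hp.tc hP1 hP1E
  obtain ⟨-, -, -, hin2, hd2⟩ := (spx_symm hs).close hp.tc hP2 hP2E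
  have hs1 : supp (clo p E1 P2 2) = E1 ∪ P2 := supp_clo hE1 two_ne_zero
  have hs2 : supp (clo p E2 P1 2) = E2 ∪ P1 := supp_clo hE2 two_ne_zero
  have hc1 : C1 ⊆ E1 ∪ P2 := by rw [← hs1]; exact hC1.2.1
  have hc2 : C2 ⊆ E2 ∪ P1 := by rw [← hs2]; exact hC2.2.1
  rcases hC1.1.all_or_none hc1 hP2 Finset.subset_union_right
    (fun v h1 h2 h3 => (hin2 v h1 h2 h3).1) with h1 | h1
  · have h2 : C1 ⊆ E1 := by
      intro e he
      rcases Finset.mem_union.mp (hc1 he) with h | h
      · exact h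
      · exact absurd h (Finset.disjoint_left.mp h1 he)
    exact ⟨C1, spx_side hp.tc hs hP2 hP2E two_ne_zero hC1 h2, fun e he => Or.inl ⟨he, h2 he⟩⟩
  rcases hC2.1.all_or_none hc2 hP1 Finset.subset_union_right
    (fun v h1 h2 h3 => (hin1 v h1 h2 h3).1) with h2 | h2
  · have h3 : C2 ⊆ E2 := by
      intro e he
      rcases Finset.mem_union.mp (hc2 he) with h | h
      · exact h
      · exact absurd h (Finset.disjoint_left.mp h2 he)
    exact ⟨C2, spx_side hp.tc (spx_symm hs) hP1 hP1E two_ne_zero hC2 h3,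
      fun e he => Or.inr ⟨he, h3 he⟩⟩
  -- both circuits use the fat paths
  have hA : C1 \ P2 ⊆ E1 := by
    intro e he
    rw [Finset.mem_sdiff] at he
    rcases Finset.mem_union.mp (hc1 he.1) with h | h
    · exact h
    · exact absurd h he.2
  have hB : C2 \ P1 ⊆ E2 := by
    intro e he
    rw [Finset.mem_sdiff] at he
    rcases Finset.mem_union.mp (hc2 he.1) with h | h
    · exact h
    · exact absurd h he.2
  have hQ1 := (hC1.1.compl_path hP2 h1).1
  have hQ2 := (hC2.1.compl_path hP1 h2).1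
  have hdis : Disjoint (C1 \ P2) (C2 \ P1) := (hs.dis.mono_left hA).mono_right hB
  have hcirc : D.IsCirc ((C1 \ P2) ∪ (C2 \ P1)) :=
    hQ1.glue hQ2 hdis fun v hv1 hv2 => spx_common hs hA hB hv1 hv2
  set C := (C1 \ P2) ∪ (C2 \ P1) with hC
  have hCp : C ⊆ supp p := Finset.union_subset (hA.trans hE1) (hB.trans hE2)
  have hCE1 : ∀ e ∈ E1, (e ∈ C ↔ e ∈ C1) := by
    intro e he
    have h3 : e ∉ E2 := Finset.disjoint_left.mp hs.dis he
    rw [hC, Finset.mem_union, Finset.mem_sdiff]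
    constructor
    · rintro (h | h)
      · exact h.1
      · exact absurd (hB h) h3
    · intro h
      exact Or.inl ⟨h, fun h4 => h3 (hP2E h4)⟩
  have hCE2 : ∀ e ∈ E2, (e ∈ C ↔ e ∈ C2) := by
    intro e he
    have h3 : e ∉ E1 := Finset.disjoint_right.mp hs.dis he
    rw [hC, Finset.mem_union, Finset.mem_sdiff, Finset.mem_sdiff]
    constructor
    · rintro (h | h)
      · exact absurd (hA (Finset.mem_sdiff.mpr h)) h3
      · exact h.1
    · intro h
      exact Or.inr ⟨h, fun h4 => h3 (hP1E h4)⟩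
  set F1 := E1.filter fun e => sub p C e ≠ 0 with hF1
  set F2 := E2.filter fun e => sub p C e ≠ 0 with hF2
  have hF1E : F1 ⊆ E1 := Finset.filter_subset _ _
  have hF2E : F2 ⊆ E2 := Finset.filter_subset _ _
  have e1 : supp (sub (clo p E1 P2 2) C1) = F1 ∪ P2 := by
    ext e
    rw [mem_supp, Finset.mem_union, hF1, Finset.mem_filter, sub_apply, sub_apply]
    by_cases h4 : e ∈ E1
    · have h5 : e ∉ E2 := Finset.disjoint_left.mp hs.dis h4
      have h6 : e ∉ P2 := fun h => h5 (hP2E h)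
      simp [clo, h4, h6, hCE1 e h4]
    · by_cases h6 : e ∈ P2
      · simp only [clo, h4, h6, if_false, if_true, false_and, or_true, iff_true]
        split_ifs <;> omega
      · simp [clo, h4, h6]
  have e2 : supp (sub (clo p E2 P1 2) C2) = F2 ∪ P1 := by
    ext e
    rw [mem_supp, Finset.mem_union, hF2, Finset.mem_filter, sub_apply, sub_apply]
    by_cases h4 : e ∈ E2
    · have h5 : e ∉ E1 := Finset.disjoint_right.mp hs.dis h4
      have h6 : e ∉ P1 := fun h => h5 (hP1E h)
      simp [clo, h4, h6, hCE2 e h4]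
    · by_cases h6 : e ∈ P1
      · simp only [clo, h4, h6, if_false, if_true, false_and, or_true, iff_true]
        split_ifs <;> omega
      · simp [clo, h4, h6]
  have e3 : supp (sub p C) = F1 ∪ F2 := by
    ext e
    rw [mem_supp, Finset.mem_union, hF1, hF2, Finset.mem_filter, Finset.mem_filter]
    constructor
    · intro h
      have h4 : e ∈ supp p := supp_sub_subset p C (mem_supp.mpr h)
      rw [← hs.un, Finset.mem_union] at h4
      exact h4.imp (fun h5 => ⟨h5, h⟩) fun h5 => ⟨h5, h⟩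
    · rintro (h | h)
      · exact h.2
      · exact h.2
  have ht1 := spx_piece hs hP2 hP2E hF1E (by rw [← e1]; exact hC1.2.2)
  have ht2 := spx_piece (spx_symm hs) hP1 hP1E hF2E (by rw [← e2]; exact hC2.2.2)
  refine ⟨C, ⟨hcirc, hCp, ?_⟩, ?_⟩
  · rw [e3]
    exact Term.twoC ht1 ht2 ((hs.dis.mono_left hF1E).mono_right hF2E) fun v hv1 hv2 =>
      spx_common hs hF1E hF2E hv1 hv2
  · intro e he
    rw [hC, Finset.mem_union] at he
    rcases he with h | h
    · exact Or.inl ⟨(Finset.mem_sdiff.mp h).1, hA h⟩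
    · exact Or.inr ⟨(Finset.mem_sdiff.mp h).1, hB h⟩

end BDu
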