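import Pool.Agent.Helper48.BDu.SPC
import Pool.Agent.Helper48.BDu.THR
import Pool.Agent.Helper66.BDu.SPX

/-!
# BOND, dual side, module SPR: real closing
-/

set_option autoImplicit false
set_option linter.unusedSectionVars false

namespace BDu

variable {W E : Type} [DecidableEq W] [DecidableEq E] {D : BDu W E}
variable [Fintype E]

private theorem pv_clo_zero {p : E → ℕ} {F : Finset E} {v : W} (hv : v ∉ D.VS F) :
    D.pv (clo p F ∅ 0) v = 0 := by
  rw [pv_eq_sum]
  refine Finset.sum_eq_zero fun e _ => ?_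
  by_cases h1 : v ∈ D.inc e
  · have h2 : e ∉ F := fun h => hv (mem_VS.mpr ⟨e, h, h1⟩)
    simp [clo, h2]
  · simp [h1]

/-- Real closing: the side `E2` has weight at least 5 at the two vertices. -/
theorem sep_real {p : E → ℕ} (hp : D.Adm p) {E1 E2 : Finset E} {a b : W}
    (hs : D.Sep (supp p) E1 E2 a b) (h2a : 2 ≤ D.pv (clo p E2 ∅ 0) a)
    (h2b : 2 ≤ D.pv (clo p E2 ∅ 0) b) (h3 : ∀ v ∈ D.VS E2, v ≠ a → v ≠ b → D.pv p v ≠ 3)
    (h5 : 5 ≤ D.pv (clo p E2 ∅ 0) a + D.pv (clo p E2 ∅ 0) b)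
    (ih : ∀ q : E → ℕ, supp q ⊆ supp p → Lt q p → D.EX q ∧ D.DA q) :
    ∃ C, D.Good p C ∧ C ⊆ E2 := by
  obtain ⟨P1, hP1, hP1E⟩ := hs.exists_path hp.tc
  obtain ⟨htc, hcard, hsub, hin, hd⟩ := hs.close hp.tc hP1 hP1E
  have hE2 : E2 ⊆ supp p := by rw [← hs.un]; exact Finset.subset_union_right
  set q := clo p E2 P1 1 with hq
  have hsq : supp q = E2 ∪ P1 := supp_clo hE2 one_ne_zero
  have hpv : ∀ v, D.pv q v = D.pv (clo p E2 ∅ 0) v + D.dg P1 v := by
    intro v
    rw [hq, pv_clo hd, one_mul]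
  have hqa : D.pv q a = D.pv (clo p E2 ∅ 0) a + 1 := by rw [hpv, hP1.dgs]
  have hqb : D.pv q b = D.pv (clo p E2 ∅ 0) b + 1 := by rw [hpv, hP1.dgt]
  have hq3 : ∀ v, v ≠ a → v ≠ b → D.pv q v ≠ 3 := by
    intro v hva hvb
    rw [hpv]
    by_cases hvP : v ∈ D.VS P1
    · rw [pv_clo_zero (hin v hvP hva hvb).2, hP1.inn v hvP hva hvb]
      omega
    · rw [dg_eq_zero.mpr hvP, add_zero]
      by_cases hv2 : v ∈ D.VS E2
      · have hv1 : v ∉ D.VS E1 := by
          intro h
          rcases spx_common hs (subset_refl _) (subset_refl _) h hv2 with h | h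
          · exact hva h
          · exact hvb h
        have h6 := hs.pv_eq v
        rw [pv_clo_zero hv1, zero_add] at h6
        rw [← h6]
        exact h3 v hv2 hva hvb
      · rw [pv_clo_zero hv2]
        omega
  have hadm : D.Adm q := by
    refine ⟨fun e => ?_, by rw [hsq]; exact htc, a, by omega⟩
    simp only [hq, clo]
    split_ifs
    · exact hp.le e
    · omega
    · omega
  have hlt : Lt q p := Or.inl (by rw [hsq]; exact hcard)
  obtain ⟨hEX, hDA⟩ := ih q (by rw [hsq]; exact hsub) hlt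
  have hin' : ∀ v ∈ D.VS P1, v ≠ a → v ≠ b → D.dg (E2 ∪ P1) v = 2 := fun v h1 h2 h4 =>
    (hin v h1 h2 h4).1
  -- the circuit avoids `P1`
  have key : ∃ C, D.Good q C ∧ ¬ P1 ⊆ C := by
    obtain ⟨ha1, hb1⟩ := spx_mem hP1
    by_cases h6 : D.pv q a = 3
    · obtain ⟨C, hC⟩ := hEX hadm ⟨a, fun v hv => by
        by_cases hvb : v = b
        · subst hvb
          omega
        · exact hq3 v hv hvb⟩
      exact ⟨C, hC, fun h => hC.avoid_three h6 (VS_mono h ha1)⟩
    · by_cases h7 : D.pv q b = 3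
      · obtain ⟨C, hC⟩ := hEX hadm ⟨b, fun v hv => by
          by_cases hva : v = a
          · subst hva
            omega
          · exact hq3 v hva hv⟩
        exact ⟨C, hC, fun h => hC.avoid_three h7 (VS_mono h hb1)⟩
      · obtain ⟨g, hg, _⟩ := mem_VS.mp ha1
        have hg1 : q g = 1 := by
          have : g ∉ E2 := fun h => Finset.disjoint_left.mp hd h hg
          simp [hq, clo, this, hg]
        obtain ⟨C, hC, i, j, _, hi, _⟩ := hDA hadm (fun v => by
          by_cases hva : v = a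
          · subst hva
            exact h6
          · by_cases hvb : v = b
            · subst hvb
              exact h7
            · exact hq3 v hva hvb) (fun _ => g) fun _ => hg1
        exact ⟨C, hC, fun h => hi (h hg)⟩
  obtain ⟨C, hC, hCP⟩ := key
  have hCs : C ⊆ E2 ∪ P1 := by
    rw [← hsq]
    exact hC.2.1
  have hdis : Disjoint C P1 := by
    rcases hC.1.all_or_none hCs hP1 Finset.subset_union_right hin' with h | h
    · exact h
    · exact absurd h hCP
  have hC2 : C ⊆ E2 := by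
    intro e he
    rcases Finset.mem_union.mp (hCs he) with h | h
    · exact h
    · exact absurd h (Finset.disjoint_left.mp hdis he)
  exact ⟨C, spx_side hp.tc (spx_symm hs) hP1 hP1E one_ne_zero hC hC2, hC2⟩

end BDu
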