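import Pool.Agent.Helper48.BDu.SPM
import Pool.Agent.Helper48.BDu.SPR
import Pool.Agent.Helper48.BDu.SPF

/-!
# BOND, dual side, module SPE: 2-separations, final
-/

set_option autoImplicit false
set_option linter.unusedSectionVars false

namespace BDu

variable {W E : Type} [DecidableEq W] [DecidableEq E] {D : BDu W E}
variable [Fintype E]

private theorem supp_clo_empty {p : E → ℕ} {F : Finset E} (hF : F ⊆ supp p) :
    supp (clo p F ∅ 0) = F := by
  ext e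
  rw [mem_supp]
  by_cases h1 : e ∈ F
  · have := mem_supp.mp (hF h1)
    simp [clo, h1, this]
  · simp [clo, h1]

private theorem dg_le_clo {p : E → ℕ} {F : Finset E} (hF : F ⊆ supp p) (v : W) :
    D.dg F v ≤ D.pv (clo p F ∅ 0) v := by
  have := dg_le_pv (D := D) (clo p F ∅ 0) v
  rwa [supp_clo_empty hF] at this

private theorem clo_zero {p : E → ℕ} {F : Finset E} (hF : F ⊆ supp p) {v : W}
    (hv : v ∉ D.VS F) : D.pv (clo p F ∅ 0) v = 0 := by
  by_contra h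
  rw [← Ne, ← mem_VS_supp, supp_clo_empty hF] at h
  exact hv h

/-- One closed side of a separation. -/
private theorem spe_one {p : E → ℕ} (hp : D.Adm p) {E1 E2 P : Finset E} {a b : W}
    (hs : D.Sep (supp p) E1 E2 a b) (hP : D.IsPth P a b) (hPE : P ⊆ E2) :
    D.Adm (clo p E1 P 2) ∧ Lt (clo p E1 P 2) p ∧ supp (clo p E1 P 2) ⊆ supp p ∧
      D.pv (clo p E1 P 2) a = D.pv (clo p E1 ∅ 0) a + 2 ∧
      D.pv (clo p E1 P 2) b = D.pv (clo p E1 ∅ 0) b + 2 ∧
      ∀ v, v ≠ a → v ≠ b → D.pv (clo p E1 P 2) v = D.pv p v ∨ D.pv (clo p E1 P 2) v = 4 ∨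
        D.pv (clo p E1 P 2) v = 0 := by
  obtain ⟨h1, h2, h3, h4, h5⟩ := Sep.close hp.tc hs.symm hP hPE
  have hE1 : E1 ⊆ supp p := by rw [← hs.un]; exact Finset.subset_union_left
  have hE2 : E2 ⊆ supp p := by rw [← hs.un]; exact Finset.subset_union_right
  have hsup : supp (clo p E1 P 2) = E1 ∪ P := supp_clo hE1 (by omega)
  have ha : D.pv (clo p E1 P 2) a = D.pv (clo p E1 ∅ 0) a + 2 := by
    rw [pv_clo h5, hP.dgs]
  have hb : D.pv (clo p E1 P 2) b = D.pv (clo p E1 ∅ 0) b + 2 := by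
    rw [pv_clo h5, hP.dgt]
  have haE1 : a ∈ D.VS E1 := by
    have : a ∈ D.VS E1 ∩ D.VS E2 := by rw [hs.vs]; simp
    exact (Finset.mem_inter.mp this).1
  refine ⟨⟨fun e => ?_, ?_, a, ?_⟩, Or.inl ?_, ?_, ha, hb, fun v hva hvb => ?_⟩
  · unfold clo
    split_ifs
    · exact hp.le e
    · exact le_rfl
    · exact Nat.zero_le _
  · rw [hsup]; exact h1
  · have h6 := dg_le_clo (D := D) hE1 a
    have h7 := dg_pos.mpr haE1
    omega
  · rw [hsup]; exact h2
  · rw [hsup]; exact h3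
  · by_cases h6 : v ∈ D.VS P
    · obtain ⟨_, h7⟩ := h4 v h6 hva hvb
      right; left
      rw [pv_clo h5, clo_zero hE1 h7, hP.inn v h6 hva hvb]
    · rw [pv_clo h5, dg_eq_zero.mpr h6, mul_zero, add_zero]
      by_cases h7 : v ∈ D.VS E2
      · have h8 : v ∉ D.VS E1 := by
          intro h9
          have : v ∈ D.VS E1 ∩ D.VS E2 := Finset.mem_inter.mpr ⟨h9, h7⟩
          rw [hs.vs] at this
          simp [hva, hvb] at this
        right; right
        exact clo_zero hE1 h8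
      · left
        rw [hs.pv_eq v, clo_zero hE2 h7, add_zero]

/-- Both closed sides when the small side has weight 2 at the two vertices. -/
private theorem spe_two {p : E → ℕ} (hp : D.Adm p) {E1 E2 P1 P2 : Finset E} {a b : W}
    (hs : D.Sep (supp p) E1 E2 a b) (hP1 : D.IsPth P1 a b) (hP1E : P1 ⊆ E1)
    (hP2 : D.IsPth P2 a b) (hP2E : P2 ⊆ E2) (ha : D.pv (clo p E2 ∅ 0) a = 2)
    (hb : D.pv (clo p E2 ∅ 0) b = 2) (v : W) (hv : D.pv p v ≠ 3) :
    D.pv (clo p E1 P2 2) v ≠ 3 ∧ D.pv (clo p E2 P1 2) v ≠ 3 := by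
  obtain ⟨_, _, _, h1, h2, h3⟩ := spe_one hp hs hP2 hP2E
  obtain ⟨_, _, _, h4, h5, h6⟩ := spe_one hp hs.symm hP1 hP1E
  constructor
  · by_cases hva : v = a
    · subst hva
      rw [h1, ← ha, ← hs.pv_eq]; exact hv
    by_cases hvb : v = b
    · subst hvb
      rw [h2, ← hb, ← hs.pv_eq]; exact hv
    rcases h3 v hva hvb with h | h | h
    · rw [h]; exact hv
    · rw [h]; omega
    · rw [h]; omega
  · by_cases hva : v = a
    · subst hva
      rw [h4, ha]; omega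
    by_cases hvb : v = b
    · subst hvb
      rw [h5, hb]; omega
    rcases h6 v hva hvb with h | h | h
    · rw [h]; exact hv
    · rw [h]; omega
    · rw [h]; omega

/-- 2-separations: existence with one vertex of weight 3. -/
theorem sep_ex {p : E → ℕ} (hp : D.Adm p) (hT : ¬ D.TC (supp p))
    (h3 : ∃ r, ∀ v, v ≠ r → D.pv p v ≠ 3)
    (ih : ∀ q : E → ℕ, supp q ⊆ supp p → Lt q p → D.EX q ∧ D.DA q) : ∃ C, D.Good p C := by
  obtain ⟨r, hr⟩ := h3
  unfold TC at hT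
  push Not at hT
  obtain ⟨A1, A2, a0, b0, hs0⟩ := hT
  -- a property of the small side
  have hmin : ∃ E1 E2 a b, D.Sep (supp p) E1 E2 a b ∧
      (∀ v ∈ D.VS E2, v ≠ a → v ≠ b → D.pv p v ≠ 3) ∧ 2 ≤ D.dg E2 a ∧ 2 ≤ D.dg E2 b := by
    by_cases hr3 : D.pv p r = 3
    · obtain ⟨g, hg, hrg⟩ := mem_VS.mp (mem_VS_supp.mpr (by rw [hr3]; omega) :
        r ∈ D.VS (supp p))
      have hex : ∃ E1 E2 a b, D.Sep (supp p) E1 E2 a b ∧ g ∉ E2 := by
        by_cases h : g ∈ A2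
        · exact ⟨A2, A1, a0, b0, hs0.symm, fun h' => Finset.disjoint_left.mp hs0.dis h' h⟩
        · exact ⟨A1, A2, a0, b0, hs0, h⟩
      obtain ⟨E1, E2, a, b, hs, hQ, ha, hb⟩ := Sep.minimal hp.tc (fun F => g ∉ F)
        (fun A B hAB hB hA => hB (hAB hA)) hex
      refine ⟨E1, E2, a, b, hs, fun v hv hva hvb => ?_, ha, hb⟩
      apply hr
      rintro rfl
      have h1 : g ∈ E1 := by
        have := hg
        rw [← hs.un, Finset.mem_union] at this
        exact this.resolve_right hQ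
      have h2 : v ∈ D.VS E1 ∩ D.VS E2 := Finset.mem_inter.mpr ⟨mem_VS.mpr ⟨g, h1, hrg⟩, hv⟩
      rw [hs.vs] at h2
      simp [hva, hvb] at h2
    · obtain ⟨E1, E2, a, b, hs, _, ha, hb⟩ := Sep.minimal hp.tc (fun _ => True)
        (fun _ _ _ _ => trivial) ⟨A1, A2, a0, b0, hs0, trivial⟩
      refine ⟨E1, E2, a, b, hs, fun v hv hva hvb => ?_, ha, hb⟩
      by_cases h : v = r
      · rw [h]; exact hr3
      · exact hr v h
  obtain ⟨E1, E2, a, b, hs, hin, ha, hb⟩ := hmin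
  have hE2 : E2 ⊆ supp p := by rw [← hs.un]; exact Finset.subset_union_right
  have ha2 := dg_le_clo (D := D) hE2 a
  have hb2 := dg_le_clo (D := D) hE2 b
  by_cases h5 : 5 ≤ D.pv (clo p E2 ∅ 0) a + D.pv (clo p E2 ∅ 0) b
  · obtain ⟨C, hC, _⟩ := sep_real hp hs (by omega) (by omega) hin h5 ih
    exact ⟨C, hC⟩
  · have ha' : D.pv (clo p E2 ∅ 0) a = 2 := by omega
    have hb' : D.pv (clo p E2 ∅ 0) b = 2 := by omega
    obtain ⟨P1, hP1, hP1E⟩ := Sep.exists_path hp.tc hs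
    obtain ⟨P2, hP2, hP2E⟩ := Sep.exists_path hp.tc hs.symm
    obtain ⟨had1, hlt1, hsu1, _⟩ := spe_one hp hs hP2 hP2E
    obtain ⟨had2, hlt2, hsu2, _⟩ := spe_one hp hs.symm hP1 hP1E
    have h3 := spe_two hp hs hP1 hP1E hP2 hP2E ha' hb'
    obtain ⟨C1, hC1⟩ := (ih _ hsu1 hlt1).1 had1 ⟨r, fun v hv => (h3 v (hr v hv)).1⟩
    obtain ⟨C2, hC2⟩ := (ih _ hsu2 hlt2).1 had2 ⟨r, fun v hv => (h3 v (hr v hv)).2⟩
    obtain ⟨C, hC, _⟩ := sep_fat hp hs hP1 hP1E hP2 hP2E hC1 hC2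
    exact ⟨C, hC⟩

/-- 2-separations: two of three real edges are avoided. -/
theorem sep_da {p : E → ℕ} (hp : D.Adm p) (hT : ¬ D.TC (supp p)) (h3 : ∀ v, D.pv p v ≠ 3)
    (ih : ∀ q : E → ℕ, supp q ⊆ supp p → Lt q p → D.EX q ∧ D.DA q) (f : Fin 3 → E)
    (hf : ∀ i, p (f i) = 1) : ∃ C, D.Good p C ∧ ∃ i j, i ≠ j ∧ f i ∉ C ∧ f j ∉ C := by
  unfold TC at hT
  push Not at hT
  obtain ⟨A1, A2, a0, b0, hs0⟩ := hT
  have hfs : ∀ i, f i ∈ supp p := fun i => by rw [mem_supp, hf i]; omega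
  -- one of the sides has at most one of the three edges
  have hex : ∃ E1 E2 a b, D.Sep (supp p) E1 E2 a b ∧
      ∀ i j, f i ∈ E2 → f j ∈ E2 → i = j := by
    by_cases h : ∀ i j, f i ∈ A2 → f j ∈ A2 → i = j
    · exact ⟨A1, A2, a0, b0, hs0, h⟩
    · push Not at h
      obtain ⟨i, j, hi, hj, hij⟩ := h
      refine ⟨A2, A1, a0, b0, hs0.symm, fun k l hk hl => ?_⟩
      have h1 : k ≠ i := by
        rintro rfl; exact Finset.disjoint_left.mp hs0.dis hk hi
      have h2 : k ≠ j := by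
        rintro rfl; exact Finset.disjoint_left.mp hs0.dis hk hj
      have h4 : l ≠ i := by
        rintro rfl; exact Finset.disjoint_left.mp hs0.dis hl hi
      have h5 : l ≠ j := by
        rintro rfl; exact Finset.disjoint_left.mp hs0.dis hl hj
      omega
  obtain ⟨E1, E2, a, b, hs, hQ, ha, hb⟩ := Sep.minimal hp.tc
    (fun F => ∀ i j, f i ∈ F → f j ∈ F → i = j)
    (fun A B hAB hB i j hi hj => hB i j (hAB hi) (hAB hj)) hex
  have hE2 : E2 ⊆ supp p := by rw [← hs.un]; exact Finset.subset_union_right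
  have ha2 := dg_le_clo (D := D) hE2 a
  have hb2 := dg_le_clo (D := D) hE2 b
  have hE1f : ∀ i, f i ∉ E2 → f i ∈ E1 := by
    intro i hi
    have := hfs i
    rw [← hs.un, Finset.mem_union] at this
    exact this.resolve_right hi
  by_cases h5 : 5 ≤ D.pv (clo p E2 ∅ 0) a + D.pv (clo p E2 ∅ 0) b
  · obtain ⟨C, hC, hCE⟩ := sep_real hp hs (by omega) (by omega) (fun v _ _ _ => h3 v) h5 ih
    refine ⟨C, hC, ?_⟩
    have h6 : ∃ i j : Fin 3, i ≠ j ∧ f i ∉ E2 ∧ f j ∉ E2 := by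
      by_contra hno
      push Not at hno
      have h7 := hno 0 1 (by decide)
      have h8 := hno 0 2 (by decide)
      have h9 := hno 1 2 (by decide)
      by_cases h10 : f 0 ∈ E2
      · have h11 : f 1 ∉ E2 := fun h => absurd (hQ 0 1 h10 h) (by decide)
        have h12 := h9 h11
        exact absurd (hQ 0 2 h10 h12) (by decide)
      · exact absurd (hQ 1 2 (h7 h10) (h8 h10)) (by decide)
    obtain ⟨i, j, hij, hi, hj⟩ := h6
    exact ⟨i, j, hij, fun h => hi (hCE h), fun h => hj (hCE h)⟩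
  · have ha' : D.pv (clo p E2 ∅ 0) a = 2 := by omega
    have hb' : D.pv (clo p E2 ∅ 0) b = 2 := by omega
    obtain ⟨P1, hP1, hP1E⟩ := Sep.exists_path hp.tc hs
    obtain ⟨P2, hP2, hP2E⟩ := Sep.exists_path hp.tc hs.symm
    obtain ⟨had1, hlt1, hsu1, _⟩ := spe_one hp hs hP2 hP2E
    obtain ⟨had2, hlt2, hsu2, _⟩ := spe_one hp hs.symm hP1 hP1E
    have h3' := fun v => spe_two hp hs hP1 hP1E hP2 hP2E ha' hb' v (h3 v)
    have hEE : ∀ i, f i ∈ E1 → f i ∉ E2 := fun i h1 h2 =>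
      Finset.disjoint_left.mp hs.dis h1 h2
    by_cases hk : ∃ k, f k ∈ E2
    · obtain ⟨k, hk⟩ := hk
      have hi : ∃ i : Fin 3, i ≠ k := by
        by_cases h : k = 0
        · exact ⟨1, by rw [h]; decide⟩
        · exact ⟨0, fun h' => h h'.symm⟩
      obtain ⟨i, hik⟩ := hi
      have hiE2 : f i ∉ E2 := fun h => hik (hQ i k h hk)
      have hiE1 := hE1f i hiE2
      obtain ⟨C1, hC1, _, _, _, hf1, _⟩ := (ih _ hsu1 hlt1).2 had1 (fun v => (h3' v).1)
        (fun _ => f i) (fun _ => by simp [clo, hiE1, hf i])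
      obtain ⟨C2, hC2, _, _, _, hf2, _⟩ := (ih _ hsu2 hlt2).2 had2 (fun v => (h3' v).2)
        (fun _ => f k) (fun _ => by simp [clo, hk, hf k])
      obtain ⟨C, hC, hCe⟩ := sep_fat hp hs hP1 hP1E hP2 hP2E hC1 hC2
      refine ⟨C, hC, i, k, hik, fun h => ?_, fun h => ?_⟩
      · rcases hCe _ h with ⟨h1, _⟩ | ⟨_, h1⟩
        · exact hf1 h1
        · exact hiE2 h1
      · rcases hCe _ h with ⟨_, h1⟩ | ⟨h1, _⟩
        · exact hEE k h1 hk
        · exact hf2 h1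
    · push Not at hk
      obtain ⟨C1, hC1, i, j, hij, hfi, hfj⟩ := (ih _ hsu1 hlt1).2 had1 (fun v => (h3' v).1) f
        (fun i => by simp [clo, hE1f i (hk i), hf i])
      obtain ⟨C2, hC2⟩ := (ih _ hsu2 hlt2).1 had2 ⟨a, fun v _ => (h3' v).2⟩
      obtain ⟨C, hC, hCe⟩ := sep_fat hp hs hP1 hP1E hP2 hP2E hC1 hC2
      refine ⟨C, hC, i, j, hij, fun h => ?_, fun h => ?_⟩
      · rcases hCe _ h with ⟨h1, _⟩ | ⟨_, h1⟩
        · exact hfi h1
        · exact hk i h1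
      · rcases hCe _ h with ⟨h1, _⟩ | ⟨_, h1⟩
        · exact hfj h1
        · exact hk j h1

end BDu
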