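import Pool.Agent.Helper48.BDu.UOD
import Pool.Agent.Helper48.BDu.DA2
import Pool.Agent.Helper48.BDu.DA1
import Pool.Agent.Helper48.BDu.DA0
import Pool.Agent.Helper48.BDu.REF
import Pool.Agent.Helper48.BDu.RFO
import Pool.Agent.Helper48.BDu.SPE

/-!
# BOND, dual side: the rooted planar theorem from even covers
-/

set_option autoImplicit false
set_option linter.unusedSectionVars false

namespace BDu

variable {W E : Type} [DecidableEq W] [DecidableEq E] {D : BDu W E}
variable [Fintype E]

theorem ex_step {S₀ : Finset E} (hcov : D.COVE S₀) {p : E → ℕ} (hS₀ : supp p ⊆ S₀)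
    (ih : ∀ q : E → ℕ, supp q ⊆ supp p → Lt q p → D.EX q ∧ D.DA q) : D.EX p := by
  intro hp h3
  by_cases hT : D.TC (supp p)
  · obtain ⟨r, hr⟩ := h3
    by_cases hr3 : D.pv p r = 3
    · by_cases hfat : ∃ f, p f = 2 ∧ r ∈ D.inc f
      · obtain ⟨f, hf, hrf⟩ := hfat
        exact ex_fat hp hr3 hr hf hrf ih
      · have hreal : ∀ e ∈ supp p, r ∈ D.inc e → p e = 1 := by
          intro e he hre
          have h1 := mem_supp.mp he
          have h2 := hp.le e
          have h4 : p e ≠ 2 := fun h => hfat ⟨e, h, hre⟩
          omega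
        have hdg : D.dg (supp p) r = 3 := by
          rw [← hr3, dg_eq_sum, pv_eq_sum]
          refine Finset.sum_congr rfl fun e _ => ?_
          by_cases hre : r ∈ D.inc e
          · by_cases he : e ∈ supp p
            · simp [hre, he, hreal e he hre]
            · have : p e = 0 := by
                by_contra h
                exact he (mem_supp.mpr h)
              simp [hre, he, this]
          · simp [hre]
        have hrS : r ∈ D.VS (supp p) := mem_VS_supp.mpr (by omega)
        obtain ⟨e, he, hre⟩ := mem_VS.mp hrS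
        obtain ⟨P, q, hP, hPp, heP, hq, hin⟩ := hp.tc.exists_thread (by omega) he hre
        have hqr : q ≠ r := fun h => hP.ne h.symm
        obtain ⟨hPr, hin2⟩ := thread_real hp.le hP hPp
          (fun v hv h1 h2 => ⟨hin v hv h1 h2, hr v h1⟩) heP (hreal e he hre)
        have hq3 : 4 ≤ D.pv p q := by
          have h1 := dg_le_pv (D := D) p q
          have h2 := hr q hqr
          omega
        by_cases hq5 : 5 ≤ D.pv p q
        · exact ex_five hp hT hr3 hr hreal hP hPp hq5 hin2 hPr ih
        · have hq4 : D.pv p q = 4 := by omega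
          have hsupp : supp (add p P) = supp p := by
            ext g
            rw [mem_supp, mem_supp]
            unfold add
            by_cases hg : g ∈ P
            · have := hPr g hg
              simp [hg, this]
            · simp [hg]
          have hle : ∀ g, add p P g ≤ 2 := by
            intro g
            unfold add
            by_cases hg : g ∈ P
            · have := hPr g hg
              simp [hg, this]
            · have := hp.le g
              simp [hg, this]
          have hpv : ∀ v, D.pv (add p P) v = D.pv p v + D.dg P v := pv_add p P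
          obtain ⟨C, hC⟩ := unrooted (D := D) hcov (p := add p P)
            ⟨hle, by rw [hsupp]; exact hp.tc, ⟨r, by rw [hpv, hP.dgs]; omega⟩⟩
            (by rw [hsupp]; exact hS₀) (by rw [hsupp]; exact hT)
            (by
              intro v
              rw [hpv]
              by_cases hvr : v = r
              · subst hvr
                rw [hP.dgs]
                omega
              by_cases hvq : v = q
              · subst hvq
                rw [hP.dgt]
                omega
              by_cases hvP : v ∈ D.VS P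
              · rw [hP.inn v hvP hvr hvq, hin2 v hvP hvr hvq]
                omega
              · rw [dg_eq_zero.mpr hvP]
                exact hr v hvr)
            (by
              rw [hsupp]
              intro q' h1 h2
              exact (ih q' h1 (Or.inl h2)).1)
          exact ex_four hp hr3 hr hreal hP hPp hq4 hin2 hPr ih hC
    · refine unrooted hcov hp hS₀ hT (fun v => ?_) (fun q h1 h2 => (ih q h1 (Or.inl h2)).1)
      by_cases hvr : v = r
      · rw [hvr]
        exact hr3
      · exact hr v hvr
  · exact sep_ex hp hT h3 ih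

theorem da_step {S₀ : Finset E} (hcov : D.COVE S₀) {p : E → ℕ} (hS₀ : supp p ⊆ S₀)
    (ih : ∀ q : E → ℕ, supp q ⊆ supp p → Lt q p → D.EX q ∧ D.DA q) : D.DA p := by
  intro hp h3 f hf
  by_cases hT : D.TC (supp p)
  · obtain ⟨C, hC⟩ := unrooted hcov hp hS₀ hT h3 (fun q h1 h2 => (ih q h1 (Or.inl h2)).1)
    by_cases hgood : ∃ i j, i ≠ j ∧ f i ∉ C ∧ f j ∉ C
    · exact ⟨C, hC, hgood⟩
    · have hex : ∃ i j, i ≠ j ∧ f i ∈ C ∧ f j ∈ C := by
        by_cases h0 : f 0 ∈ C
        · by_cases h1 : f 1 ∈ C
          · exact ⟨0, 1, by decide, h0, h1⟩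
          · by_cases h2 : f 2 ∈ C
            · exact ⟨0, 2, by decide, h0, h2⟩
            · exact absurd ⟨1, 2, by decide, h1, h2⟩ hgood
        · by_cases h1 : f 1 ∈ C
          · by_cases h2 : f 2 ∈ C
            · exact ⟨1, 2, by decide, h1, h2⟩
            · exact absurd ⟨0, 2, by decide, h0, h2⟩ hgood
          · exact absurd ⟨0, 1, by decide, h0, h1⟩ hgood
      obtain ⟨i, j, hij, hi, hj⟩ := hex
      have key : ∃ C', D.Good p C' ∧ f i ∉ C' ∧ f j ∉ C' := by
        by_cases h0 : ∀ v ∈ D.VS C, D.pv p v < 5
        · exact da_zero hp hT h3 hC (hf i) (hf j) hi hj ih h0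
        · push Not at h0
          obtain ⟨z, hz, hz5⟩ := h0
          by_cases h1 : ∀ v ∈ D.VS C, 5 ≤ D.pv p v → v = z
          · exact da_one hp h3 hC (hf i) (hf j) hi hj ih hz hz5 h1
          · push Not at h1
            obtain ⟨z', hz', hz5', hne⟩ := h1
            exact da_two hp h3 hC (hf i) (hf j) hi hj ih hne hz' hz hz5' hz5
      obtain ⟨C', hC', h1, h2⟩ := key
      exact ⟨C', hC', i, j, hij, h1, h2⟩
  · exact sep_da hp hT h3 ih f hf

theorem main_induction {S₀ : Finset E} (hcov : D.COVE S₀) :
    ∀ n : ℕ, ∀ m : ℕ, ∀ p : E → ℕ, supp p ⊆ S₀ → (supp p).card = n → ∑ e, p e = m →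
      D.EX p ∧ D.DA p := by
  intro n
  induction n using Nat.strong_induction_on with
  | _ n ihn =>
    intro m
    induction m using Nat.strong_induction_on with
    | _ m ihm =>
      intro p hS₀ hn hm
      have ih : ∀ q : E → ℕ, supp q ⊆ supp p → Lt q p → D.EX q ∧ D.DA q := by
        intro q hq hlt
        rcases hlt with h | ⟨h1, h2⟩
        · exact ihn _ (by omega) _ q (hq.trans hS₀) rfl rfl
        · exact ihm _ (by omega) q (hq.trans hS₀) (by omega) rfl
      exact ⟨ex_step hcov hS₀ ih, da_step hcov hS₀ ih⟩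

/-- The unrooted planar theorem. -/
theorem GPu {S₀ : Finset E} (hcov : D.COVE S₀) {p : E → ℕ} (hp : D.Adm p) (hS₀ : supp p ⊆ S₀)
    (h3 : ∃ r, ∀ v, v ≠ r → D.pv p v ≠ 3) : ∃ C, D.Good p C :=
  (main_induction hcov _ _ p hS₀ rfl rfl).1 hp h3

/-- The rooted planar theorem, general degrees. -/
theorem GP {S₀ : Finset E} (hcov : D.COVE S₀) {p : E → ℕ} (hp : D.Adm p) (hS₀ : supp p ⊆ S₀)
    {r : W} (h3 : ∀ v, v ≠ r → D.pv p v ≠ 3) {g : E} (hg : p g = 1) (hrg : r ∈ D.inc g) :
    ∃ C, D.Good p C ∧ g ∉ C := by
  obtain ⟨h1, h2⟩ := main_induction hcov _ _ p hS₀ rfl rfl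
  by_cases hr : D.pv p r = 3
  · obtain ⟨C, hC⟩ := h1 hp ⟨r, h3⟩
    refine ⟨C, hC, fun hgC => ?_⟩
    exact hC.avoid_three hr (mem_VS.mpr ⟨g, hgC, hrg⟩)
  · obtain ⟨C, hC, i, _, _, hi, _⟩ := h2 hp (fun v => by
      by_cases hv : v = r
      · rw [hv]
        exact hr
      · exact h3 v hv) (fun _ => g) (fun _ => hg)
    exact ⟨C, hC, hi⟩

end BDu
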