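import Pool.Agent.Helper48.BDu.Defs

/-!
# BOND, dual side: basic lemmas on links, vertex sets, degrees and weights
-/

set_option autoImplicit false
set_option linter.unusedSectionVars false

namespace BDu

variable {W E : Type} [DecidableEq W] [DecidableEq E] {D : BDu W E}

/-! ### ends -/

theorem exists_other {e : E} {v : W} (h : v ∈ D.inc e) : ∃ w, v ≠ w ∧ D.inc e = {v, w} := by
  obtain ⟨a, b, hab, he⟩ := Finset.card_eq_two.mp (D.two e)
  rw [he] at h ⊢
  rcases Finset.mem_insert.mp h with rfl | h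
  · exact ⟨b, hab, rfl⟩
  · rw [Finset.mem_singleton] at h
    subst h
    exact ⟨a, fun h' => hab h'.symm, Finset.pair_comm a v⟩

theorem inc_eq {e : E} {u v : W} (hu : u ∈ D.inc e) (hv : v ∈ D.inc e) (h : u ≠ v) :
    D.inc e = {u, v} := by
  obtain ⟨w, _, he⟩ := exists_other hu
  rw [he] at hv ⊢
  rcases Finset.mem_insert.mp hv with rfl | hv
  · exact absurd rfl h
  · rw [Finset.mem_singleton] at hv
    subst hv
    rfl

theorem inc_cases {e : E} {u v w : W} (hu : u ∈ D.inc e) (hv : v ∈ D.inc e) (h : u ≠ v)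
    (hw : w ∈ D.inc e) : w = u ∨ w = v := by
  rw [inc_eq hu hv h] at hw
  simpa using hw

theorem exists_end (D : BDu W E) (e : E) : ∃ u v, u ≠ v ∧ D.inc e = {u, v} := by
  obtain ⟨a, b, hab, he⟩ := Finset.card_eq_two.mp (D.two e)
  exact ⟨a, b, hab, he⟩

/-! ### vertex sets -/

theorem mem_VS {F : Finset E} {v : W} : v ∈ D.VS F ↔ ∃ e ∈ F, v ∈ D.inc e := by
  unfold VS
  exact Finset.mem_biUnion

theorem VS_mono {F G : Finset E} (h : F ⊆ G) : D.VS F ⊆ D.VS G :=
  Finset.biUnion_subset_biUnion_of_subset_left _ h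

theorem VS_union (F G : Finset E) : D.VS (F ∪ G) = D.VS F ∪ D.VS G := by
  unfold VS
  exact Finset.union_biUnion ..

theorem mem_VS_union {F G : Finset E} {v : W} : v ∈ D.VS (F ∪ G) ↔ v ∈ D.VS F ∨ v ∈ D.VS G := by
  rw [VS_union, Finset.mem_union]

theorem VS_singleton (e : E) : D.VS {e} = D.inc e := by
  unfold VS
  exact Finset.singleton_biUnion

theorem VS_empty : D.VS (∅ : Finset E) = ∅ := by
  unfold VS
  exact Finset.biUnion_empty

theorem VS_nonempty {F : Finset E} (h : F.Nonempty) : (D.VS F).Nonempty := by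
  obtain ⟨e, he⟩ := h
  obtain ⟨u, v, _, hi⟩ := exists_end D e
  exact ⟨u, mem_VS.mpr ⟨e, he, by rw [hi]; simp⟩⟩

/-! ### degrees -/

theorem dg_pos {F : Finset E} {v : W} : 0 < D.dg F v ↔ v ∈ D.VS F := by
  unfold dg
  rw [Finset.card_pos, mem_VS]
  constructor
  · rintro ⟨e, he⟩
    exact ⟨e, (Finset.mem_filter.mp he).1, (Finset.mem_filter.mp he).2⟩
  · rintro ⟨e, he, hv⟩
    exact ⟨e, Finset.mem_filter.mpr ⟨he, hv⟩⟩

theorem dg_eq_zero {F : Finset E} {v : W} : D.dg F v = 0 ↔ v ∉ D.VS F := by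
  rw [← dg_pos]
  omega

theorem dg_mono {F G : Finset E} (h : F ⊆ G) (v : W) : D.dg F v ≤ D.dg G v :=
  Finset.card_le_card (Finset.filter_subset_filter _ h)

theorem dg_union {F G : Finset E} (h : Disjoint F G) (v : W) :
    D.dg (F ∪ G) v = D.dg F v + D.dg G v := by
  unfold dg
  rw [Finset.filter_union, Finset.card_union_of_disjoint]
  exact Finset.disjoint_filter_filter h

theorem dg_sdiff {F G : Finset E} (h : G ⊆ F) (v : W) :
    D.dg (F \ G) v + D.dg G v = D.dg F v := by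
  rw [← dg_union Finset.sdiff_disjoint, Finset.sdiff_union_of_subset h]

theorem dg_singleton (e : E) (v : W) : D.dg {e} v = if v ∈ D.inc e then 1 else 0 := by
  unfold dg
  rw [Finset.filter_singleton]
  split_ifs <;> simp

/-- If the degrees of `v` in `F ⊆ G` agree then every `G`-edge at `v` is in `F`. -/
theorem mem_of_dg_eq {F G : Finset E} (h : F ⊆ G) {v : W} (hd : D.dg G v ≤ D.dg F v) {e : E}
    (he : e ∈ G) (hv : v ∈ D.inc e) : e ∈ F := by
  have h1 : F.filter (fun e => v ∈ D.inc e) = G.filter (fun e => v ∈ D.inc e) :=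
    Finset.eq_of_subset_of_card_le (Finset.filter_subset_filter _ h) hd
  have h2 : e ∈ G.filter (fun e => v ∈ D.inc e) := Finset.mem_filter.mpr ⟨he, hv⟩
  rw [← h1] at h2
  exact (Finset.mem_filter.mp h2).1

/-- Handshake lemma: the degrees over `K` count the edges by their number of ends in `K`. -/
theorem sum_dg (F : Finset E) (K : Finset W) :
    ∑ v ∈ K, D.dg F v = ∑ e ∈ F, (D.inc e ∩ K).card := by
  unfold dg
  simp_rw [Finset.card_eq_sum_ones, Finset.sum_filter]
  rw [Finset.sum_comm]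
  refine Finset.sum_congr rfl fun e _ => ?_
  rw [← Finset.sum_filter, ← Finset.card_eq_sum_ones, ← Finset.card_eq_sum_ones]
  congr 1
  ext v
  simp [and_comm]

/-! ### links -/

theorem Adj.symm {F : Finset E} {u v : W} (h : D.Adj F u v) : D.Adj F v u := by
  obtain ⟨h1, e, he, hu, hv⟩ := h
  exact ⟨fun h' => h1 h'.symm, e, he, hv, hu⟩

theorem Stp.symm {F : Finset E} {A : Finset W} {u v : W} (h : D.Stp F A u v) : D.Stp F A v u :=
  ⟨h.1.symm, h.2.2, h.2.1⟩

theorem Lk.refl (F : Finset E) (A : Finset W) (u : W) : D.Lk F A u u :=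
  Relation.ReflTransGen.refl

theorem Lk.symm {F : Finset E} {A : Finset W} {u v : W} (h : D.Lk F A u v) : D.Lk F A v u := by
  unfold Lk at h ⊢
  induction h with
  | refl => exact Relation.ReflTransGen.refl
  | tail _ hbc ih => exact Relation.ReflTransGen.head hbc.symm ih

theorem Lk.trans {F : Finset E} {A : Finset W} {u v w : W} (h : D.Lk F A u v)
    (h' : D.Lk F A v w) : D.Lk F A u w :=
  Relation.ReflTransGen.trans h h'

theorem Lk.mono {F G : Finset E} {A B : Finset W} (hF : F ⊆ G) (hA : B ⊆ A) {u v : W}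
    (h : D.Lk F A u v) : D.Lk G B u v := by
  refine Relation.ReflTransGen.mono (fun a b hab => ?_) _ _ h
  obtain ⟨⟨hab, e, he, ha, hb⟩, h1, h2⟩ := hab
  exact ⟨⟨hab, e, hF he, ha, hb⟩, fun h => h1 (hA h), fun h => h2 (hA h)⟩

theorem Lk.edge {F : Finset E} {A : Finset W} {e : E} (he : e ∈ F) {u v : W} (hu : u ∈ D.inc e)
    (hv : v ∈ D.inc e) (h1 : u ∉ A) (h2 : v ∉ A) : D.Lk F A u v := by
  by_cases h : u = v
  · subst h
    exact Lk.refl _ _ _
  · exact Relation.ReflTransGen.single ⟨⟨h, e, he, hu, hv⟩, h1, h2⟩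

theorem Lk.mem_right {F : Finset E} {A : Finset W} {u v : W} (h : D.Lk F A u v) (hne : u ≠ v) :
    v ∈ D.VS F ∧ v ∉ A := by
  unfold Lk at h
  cases h with
  | refl => exact absurd rfl hne
  | tail _ hbc =>
    obtain ⟨⟨_, e, he, _, hv⟩, _, h2⟩ := hbc
    exact ⟨mem_VS.mpr ⟨e, he, hv⟩, h2⟩

theorem Lk.mem_left {F : Finset E} {A : Finset W} {u v : W} (h : D.Lk F A u v) (hne : u ≠ v) :
    u ∈ D.VS F ∧ u ∉ A :=
  h.symm.mem_right (fun h' => hne h'.symm)

/-- A property preserved by every step is preserved along links. -/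
theorem Lk.stay {F : Finset E} {A : Finset W} {u v : W} (P : W → Prop)
    (hP : ∀ x y : W, ∀ e ∈ F, x ∈ D.inc e → y ∈ D.inc e → x ≠ y → x ∉ A → y ∉ A → P x → P y)
    (h : D.Lk F A u v) (hu : P u) : P v := by
  unfold Lk at h
  induction h with
  | refl => exact hu
  | tail _ hbc ih =>
    obtain ⟨⟨hne, e, he, h1, h2⟩, h3, h4⟩ := hbc
    exact hP _ _ e he h1 h2 hne h3 h4 ih

/-- A link from inside `P` to outside `P` has a step leaving `P`. -/
theorem Lk.exit {F : Finset E} {A : Finset W} {u v : W} (P : W → Prop) (h : D.Lk F A u v)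
    (hu : P u) (hv : ¬ P v) : ∃ x y : W, ∃ e ∈ F, x ∈ D.inc e ∧ y ∈ D.inc e ∧ x ≠ y ∧ x ∉ A ∧
      y ∉ A ∧ P x ∧ ¬ P y ∧ D.Lk F A u x := by
  by_contra hc
  have key : P v ∧ D.Lk F A u v := by
    refine Lk.stay (fun w => P w ∧ D.Lk F A u w) ?_ h ⟨hu, Lk.refl _ _ _⟩
    intro x y e he h1 h2 hne h3 h4 ⟨h5, h6⟩
    by_cases h7 : P y
    · exact ⟨h7, h6.trans (Lk.edge he h1 h2 h3 h4)⟩
    · exact absurd ⟨x, y, e, he, h1, h2, hne, h3, h4, h5, h7, h6⟩ hc
  exact hv key.1

/-- A link all of whose vertices (that is, everything linked to `u`) are outside `B` avoids `B`. -/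
theorem Lk.avoid {F : Finset E} {A B : Finset W} {u v : W} (h : D.Lk F A u v)
    (hB : ∀ w, D.Lk F A u w → w ∉ B) : D.Lk F (A ∪ B) u v := by
  have key : D.Lk F A u v ∧ D.Lk F (A ∪ B) u v := by
    refine Lk.stay (fun w => D.Lk F A u w ∧ D.Lk F (A ∪ B) u w) ?_ h
      ⟨Lk.refl _ _ _, Lk.refl _ _ _⟩
    intro x y e he h1 h2 hne h3 h4 ⟨h5, h6⟩
    have h7 : D.Lk F A u y := h5.trans (Lk.edge he h1 h2 h3 h4)
    refine ⟨h7, h6.trans (Lk.edge he h1 h2 ?_ ?_)⟩
    · simp [h3, hB _ h5]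
    · simp [h4, hB _ h7]
  exact key.2

/-- If `x` is not a vertex of `F` then links avoid `x` for free. -/
theorem Lk.avoid_not_mem {F : Finset E} {u v x : W} (h : D.Lk F ∅ u v) (hx : x ∉ D.VS F) :
    D.Lk F {x} u v := by
  refine Relation.ReflTransGen.mono (fun a b hab => ?_) _ _ h
  obtain ⟨⟨hab, e, he, ha, hb⟩, _, _⟩ := hab
  refine ⟨⟨hab, e, he, ha, hb⟩, ?_, ?_⟩
  · rw [Finset.mem_singleton]
    rintro rfl
    exact hx (mem_VS.mpr ⟨e, he, ha⟩)
  · rw [Finset.mem_singleton]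
    rintro rfl
    exact hx (mem_VS.mpr ⟨e, he, hb⟩)

/-- If links from `u` use no edge of `Z` (every edge of `F` at a vertex linked to `u` is outside
`Z`), then `Z` may be deleted. -/
theorem Lk.delete {F Z : Finset E} {A : Finset W} {u v : W} (h : D.Lk F A u v)
    (hZ : ∀ w, D.Lk F A u w → w ∉ A → ∀ e ∈ F, w ∈ D.inc e → e ∉ Z) : D.Lk (F \ Z) A u v := by
  have key : D.Lk F A u v ∧ D.Lk (F \ Z) A u v := by
    refine Lk.stay (fun w => D.Lk F A u w ∧ D.Lk (F \ Z) A u w) ?_ h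
      ⟨Lk.refl _ _ _, Lk.refl _ _ _⟩
    intro x y e he h1 h2 hne h3 h4 ⟨h5, h6⟩
    have h7 : D.Lk F A u y := h5.trans (Lk.edge he h1 h2 h3 h4)
    exact ⟨h7, h6.trans (Lk.edge (Finset.mem_sdiff.mpr ⟨he, hZ x h5 h3 e he h1⟩) h1 h2 h3 h4)⟩
  exact key.2

/-! ### weights -/

section Weights

variable [Fintype E]

theorem mem_supp {p : E → ℕ} {e : E} : e ∈ supp p ↔ p e ≠ 0 := by
  unfold supp
  simp

theorem sub_apply (p : E → ℕ) (Z : Finset E) (e : E) :
    sub p Z e = p e - if e ∈ Z then 1 else 0 := rfl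

theorem sub_mem {p : E → ℕ} {Z : Finset E} {e : E} (h : e ∈ Z) : sub p Z e = p e - 1 := by
  simp [sub, h]

theorem sub_not_mem {p : E → ℕ} {Z : Finset E} {e : E} (h : e ∉ Z) : sub p Z e = p e := by
  simp [sub, h]

theorem sub_le (p : E → ℕ) (Z : Finset E) (e : E) : sub p Z e ≤ p e := Nat.sub_le _ _

theorem supp_sub_subset (p : E → ℕ) (Z : Finset E) : supp (sub p Z) ⊆ supp p := by
  intro e he
  rw [mem_supp] at he ⊢
  have := sub_le p Z e
  omega

/-- Everything of the support outside `Z` survives. -/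
theorem sdiff_subset_supp_sub (p : E → ℕ) (Z : Finset E) : supp p \ Z ⊆ supp (sub p Z) := by
  intro e he
  rw [Finset.mem_sdiff, mem_supp] at he
  rw [mem_supp, sub_not_mem he.2]
  exact he.1

theorem supp_sub_union {p : E → ℕ} {Z : Finset E} (h : Z ⊆ supp p) :
    supp (sub p Z) ∪ Z = supp p := by
  ext e
  rw [Finset.mem_union, mem_supp, mem_supp]
  by_cases he : e ∈ Z
  · have := mem_supp.mp (h he)
    simp [he, this]
  · simp [he, sub_not_mem he]

/-- The peeling identity. -/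
theorem supp_peel {p : E → ℕ} {Z C : Finset E} (hZ : Z ⊆ supp p) (hC : C ⊆ supp (sub p Z)) :
    supp (sub p C) = supp (sub (sub p Z) C) ∪ Z := by
  ext e
  rw [Finset.mem_union, mem_supp, mem_supp]
  by_cases heZ : e ∈ Z
  · have h1 := mem_supp.mp (hZ heZ)
    by_cases heC : e ∈ C
    · have h2 := mem_supp.mp (hC heC)
      rw [sub_mem heZ] at h2
      rw [sub_mem heC]
      simp only [heZ, or_true, iff_true]
      omega
    · rw [sub_not_mem heC]
      simp [heZ, h1]
  · by_cases heC : e ∈ C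
    · rw [sub_mem heC, sub_mem heC, sub_not_mem heZ]
      simp [heZ]
    · rw [sub_not_mem heC, sub_not_mem heC, sub_not_mem heZ]
      simp [heZ]

theorem mem_VS_supp {p : E → ℕ} {v : W} : v ∈ D.VS (supp p) ↔ D.pv p v ≠ 0 := by
  rw [mem_VS]
  unfold pv
  rw [Ne, Finset.sum_eq_zero_iff]
  constructor
  · rintro ⟨e, he, hv⟩ h
    exact (mem_supp.mp he) (h e (Finset.mem_filter.mpr ⟨Finset.mem_univ _, hv⟩))
  · intro h
    push Not at h
    obtain ⟨e, he, h1⟩ := h
    exact ⟨e, mem_supp.mpr h1, (Finset.mem_filter.mp he).2⟩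

theorem pv_eq_sum (p : E → ℕ) (v : W) :
    D.pv p v = ∑ e, if v ∈ D.inc e then p e else 0 := by
  unfold pv
  rw [Finset.sum_filter]

theorem dg_eq_sum (F : Finset E) (v : W) :
    D.dg F v = ∑ e, if v ∈ D.inc e then (if e ∈ F then 1 else 0) else 0 := by
  unfold dg
  rw [Finset.card_eq_sum_ones, Finset.sum_filter, ← Finset.sum_filter_add_sum_filter_not
    (Finset.univ) (fun e => e ∈ F)]
  have h1 : ∑ e ∈ Finset.univ.filter (fun e => ¬ e ∈ F),
      (if v ∈ D.inc e then (if e ∈ F then 1 else 0) else 0) = 0 := by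
    refine Finset.sum_eq_zero fun e he => ?_
    rw [Finset.mem_filter] at he
    simp [he.2]
  rw [h1, add_zero]
  have h2 : Finset.univ.filter (fun e => e ∈ F) = F := by
    ext e
    simp
  rw [h2]
  refine Finset.sum_congr rfl fun e he => ?_
  simp [he]

theorem pv_sub {p : E → ℕ} {Z : Finset E} (h : Z ⊆ supp p) (v : W) :
    D.pv (sub p Z) v + D.dg Z v = D.pv p v := by
  rw [pv_eq_sum, pv_eq_sum, dg_eq_sum, ← Finset.sum_add_distrib]
  refine Finset.sum_congr rfl fun e _ => ?_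
  by_cases hv : v ∈ D.inc e
  · by_cases he : e ∈ Z
    · have := mem_supp.mp (h he)
      rw [sub_mem he]
      simp only [hv, he, if_true]
      omega
    · rw [sub_not_mem he]
      simp [hv, he]
  · simp [hv]

theorem pv_add (p : E → ℕ) (Z : Finset E) (v : W) :
    D.pv (add p Z) v = D.pv p v + D.dg Z v := by
  rw [pv_eq_sum, pv_eq_sum, dg_eq_sum, ← Finset.sum_add_distrib]
  refine Finset.sum_congr rfl fun e _ => ?_
  by_cases hv : v ∈ D.inc e <;> simp [hv, add]

theorem sum_sub_lt {p : E → ℕ} {Z : Finset E} (h : Z ⊆ supp p) (hZ : Z.Nonempty) :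
    ∑ e, sub p Z e < ∑ e, p e := by
  obtain ⟨e, he⟩ := hZ
  refine Finset.sum_lt_sum (fun e _ => sub_le p Z e) ⟨e, Finset.mem_univ _, ?_⟩
  have := mem_supp.mp (h he)
  rw [sub_mem he]
  omega

/-- Subtracting a nonempty subset of the support gives a smaller weight. -/
theorem Lt_sub {p : E → ℕ} {Z : Finset E} (h : Z ⊆ supp p) (hZ : Z.Nonempty) :
    Lt (sub p Z) p := by
  rcases (Finset.card_le_card (supp_sub_subset p Z)).lt_or_eq with h1 | h1
  · exact Or.inl h1
  · exact Or.inr ⟨h1, sum_sub_lt h hZ⟩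

theorem supp_real {p : E → ℕ} {Z : Finset E} (h : ∀ e ∈ Z, p e ≤ 1) :
    supp (sub p Z) = supp p \ Z := by
  ext e
  rw [mem_supp, Finset.mem_sdiff, mem_supp]
  by_cases he : e ∈ Z
  · have := h e he
    rw [sub_mem he]
    simp only [he, not_true, and_false, iff_false]
    omega
  · simp [sub_not_mem he, he]

theorem dg_le_pv (p : E → ℕ) (v : W) : D.dg (supp p) v ≤ D.pv p v := by
  rw [pv_eq_sum, dg_eq_sum]
  refine Finset.sum_le_sum fun e _ => ?_
  by_cases hv : v ∈ D.inc e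
  · by_cases he : e ∈ supp p
    · have := mem_supp.mp he
      simp only [hv, he, if_true]
      omega
    · simp [hv, he]
  · simp [hv]

theorem pv_le {p : E → ℕ} (hp : ∀ e, p e ≤ 2) (v : W) : D.pv p v ≤ 2 * D.dg (supp p) v := by
  rw [pv_eq_sum, dg_eq_sum, Finset.mul_sum]
  refine Finset.sum_le_sum fun e _ => ?_
  by_cases hv : v ∈ D.inc e
  · by_cases he : e ∈ supp p
    · have := hp e
      simp only [hv, he, if_true]
      omega
    · have : p e = 0 := by
        by_contra h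
        exact he (mem_supp.mpr h)
      simp [hv, he, this]
  · simp [hv]

end Weights

end BDu
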