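import Pool.Agent.Helper48.BDu.PT1
import Pool.Agent.Helper48.BDu.TWO

/-!
# BOND, dual side, module EAR: growing a two-connected set
-/

set_option autoImplicit false
set_option linter.unusedSectionVars false

namespace BDu

variable {W E : Type} [DecidableEq W] [DecidableEq E] {D : BDu W E}

/-- If a connected set outside `VS B` is attached to two different vertices of `B`, then `B`
grows. -/
theorem TwoC.grow {B G : Finset E} (hB : D.TwoC B) (hBG : B ⊆ G) {a₁ a₂ y₁ y₂ : W}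
    (ha : a₁ ≠ a₂) (ha₁ : a₁ ∈ D.VS B) (ha₂ : a₂ ∈ D.VS B) (hy₁ : y₁ ∉ D.VS B)
    (hy₂ : y₂ ∉ D.VS B) {e₁ e₂ : E} (he₁ : e₁ ∈ G) (he₂ : e₂ ∈ G) (h1 : a₁ ∈ D.inc e₁)
    (h2 : y₁ ∈ D.inc e₁) (h3 : a₂ ∈ D.inc e₂) (h4 : y₂ ∈ D.inc e₂)
    (hl : D.Lk G (D.VS B) y₁ y₂) :
    ∃ B', B ⊆ B' ∧ B' ⊆ G ∧ D.TwoC B' ∧ (D.VS B).card < (D.VS B').card := by
  have hay1 : a₁ ≠ y₁ := fun h => hy₁ (h ▸ ha₁)
  have hay2 : a₂ ≠ y₂ := fun h => hy₂ (h ▸ ha₂)
  have hay12 : a₁ ≠ y₂ := fun h => hy₂ (h ▸ ha₁)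
  have hay21 : a₂ ≠ y₁ := fun h => hy₁ (h ▸ ha₂)
  -- it is enough to find a path
  suffices h : ∃ P, P ⊆ G ∧ D.IsPth P a₁ a₂ ∧ y₁ ∈ D.VS P by
    obtain ⟨P, hP1, hP2, hP3⟩ := h
    refine ⟨B ∪ P, Finset.subset_union_left, Finset.union_subset hBG hP1,
      hB.ear hP2 ha₁ ha₂, ?_⟩
    refine Finset.card_lt_card ⟨VS_mono Finset.subset_union_left, fun h => hy₁ (h ?_)⟩
    exact mem_VS_union.mpr (Or.inr hP3)
  have hp1 : D.IsPth {e₁} a₁ y₁ := IsPth.single h1 h2 hay1
  have hp2 : D.IsPth {e₂} y₂ a₂ := IsPth.single h4 h3 fun h => hay2 h.symm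
  by_cases hy : y₁ = y₂
  · subst hy
    have h5 := hp1.append hp2 (by
      intro v hv hv'
      rw [VS_singleton] at hv hv'
      rcases inc_cases h1 h2 hay1 hv with rfl | rfl
      · rcases inc_cases h3 h4 hay2 hv' with h | h
        · exact absurd h ha
        · exact h
      · rfl)
    refine ⟨{e₁} ∪ {e₂}, ?_, h5.2, ?_⟩
    · refine Finset.union_subset ?_ ?_ <;> simpa using by assumption
    · exact mem_VS_union.mpr (Or.inl (by rw [VS_singleton]; exact h2))
  · obtain ⟨P, hP1, hP2, hP3⟩ := hl.exists_path hy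
    have h5 := hp1.append hP2 (by
      intro v hv hv'
      rw [VS_singleton] at hv
      rcases inc_cases h1 h2 hay1 hv with rfl | rfl
      · exact absurd ha₁ (hP3 _ hv')
      · rfl)
    have h6 := h5.2.append hp2 (by
      intro v hv hv'
      rw [VS_singleton] at hv'
      rcases inc_cases h3 h4 hay2 hv' with rfl | rfl
      · exfalso
        rcases mem_VS_union.mp hv with h | h
        · rw [VS_singleton] at h
          rcases inc_cases h1 h2 hay1 h with h' | h'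
          · exact ha h'.symm
          · exact hay21 h'
        · exact hP3 _ h ha₂
      · rfl)
    refine ⟨({e₁} ∪ P) ∪ {e₂}, ?_, h6.2, ?_⟩
    · refine Finset.union_subset (Finset.union_subset ?_ hP1) ?_ <;>
        simpa using by assumption
    · exact mem_VS_union.mpr (Or.inl (mem_VS_union.mpr (Or.inl (by
        rw [VS_singleton]; exact h2))))

end BDu
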