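import Pool.Agent.Helper48.BDu.THR
import Pool.Agent.Helper48.BDu.TRM

/-!
# BOND, dual side, module EVEN: even sets and circuits
-/

set_option autoImplicit false
set_option linter.unusedSectionVars false

namespace BDu

variable {W E : Type} [DecidableEq W] [DecidableEq E] {D : BDu W E}

/-- Even edge sets. -/
def Ev (D : BDu W E) (Z : Finset E) : Prop := ∀ w, Even (D.dg Z w)

theorem IsCirc.ev {C : Finset E} (hC : D.IsCirc C) : D.Ev C := by
  intro w
  by_cases hw : w ∈ D.VS C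
  · rw [hC.2.1 w hw]
    decide
  · rw [dg_eq_zero.mpr hw]
    decide

theorem Ev.sdiff {Z Z' : Finset E} (hZ : D.Ev Z) (hZ' : D.Ev Z') (h : Z' ⊆ Z) :
    D.Ev (Z \ Z') := by
  intro w
  have h1 := dg_sdiff (D := D) h w
  have h2 := hZ w
  have h3 := hZ' w
  rw [← h1, Nat.even_add] at h2
  exact h2.mpr h3

theorem Ev.union {Z Z' : Finset E} (hZ : D.Ev Z) (hZ' : D.Ev Z') (h : Disjoint Z Z') :
    D.Ev (Z ∪ Z') := by
  intro w
  rw [dg_union h]
  exact (hZ w).add (hZ' w)

/-- A nonempty even subset of a circuit is the circuit. -/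
theorem IsCirc.minimal {C Z : Finset E} (hC : D.IsCirc C) (hZC : Z ⊆ C) (hne : Z.Nonempty)
    (hZ : D.Ev Z) : Z = C := by
  have hdg : ∀ v ∈ D.VS Z, D.dg C v ≤ D.dg Z v := by
    intro v hv
    rw [hC.2.1 v (VS_mono hZC hv)]
    have h1 := dg_pos.mpr hv
    obtain ⟨k, hk⟩ := hZ v
    omega
  obtain ⟨x, hx⟩ := VS_nonempty (D := D) hne
  refine Finset.Subset.antisymm hZC fun e he => ?_
  obtain ⟨u, v, _, hinc⟩ := exists_end D e
  have hu : u ∈ D.inc e := by rw [hinc]; simp
  have huC : u ∈ D.VS C := mem_VS.mpr ⟨e, he, hu⟩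
  have huZ : u ∈ D.VS Z := by
    refine Lk.stay (fun w => w ∈ D.VS Z) ?_ (hC.2.2 x (VS_mono hZC hx) u huC) hx
    intro y y' f hf hy hy' _ _ _ hyZ
    exact mem_VS.mpr ⟨f, mem_of_dg_eq hZC (hdg y hyZ) hf hy, hy'⟩
  exact mem_of_dg_eq hZC (hdg u huZ) he hu

/-- Two nonempty disjoint even sets are not both inside a circuit; an even set which is a proper
part of a circuit is empty. -/
theorem IsCirc.not_split {C Z : Finset E} (hC : D.IsCirc C) (hZC : Z ⊆ C) (hne : Z.Nonempty)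
    (hne' : (C \ Z).Nonempty) : ¬ D.Ev Z := by
  intro hZ
  have h := hC.minimal hZC hne hZ
  rw [h, Finset.sdiff_self] at hne'
  exact Finset.not_nonempty_empty hne'

/-- An even set splits at a vertex in which the two parts of the edge set meet. -/
theorem Ev.split {Z F1 F2 : Finset E} {x : W} (hZ : D.Ev Z) (h : Z ⊆ F1 ∪ F2)
    (hx : ∀ v, v ∈ D.VS F1 → v ∈ D.VS F2 → v = x) : D.Ev (Z ∩ F1) := by
  have key : ∀ v, v ≠ x → Even (D.dg (Z ∩ F1) v) := by
    intro v hv
    by_cases h1 : v ∈ D.VS F1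
    · have h2 : v ∉ D.VS F2 := fun h2 => hv (hx v h1 h2)
      have heq : D.dg (Z ∩ F1) v = D.dg Z v := by
        unfold dg
        congr 1
        ext e
        rw [Finset.mem_filter, Finset.mem_filter, Finset.mem_inter]
        constructor
        · rintro ⟨⟨h3, _⟩, h4⟩
          exact ⟨h3, h4⟩
        · rintro ⟨h3, h4⟩
          refine ⟨⟨h3, ?_⟩, h4⟩
          rcases Finset.mem_union.mp (h h3) with h5 | h5
          · exact h5
          · exact absurd (mem_VS.mpr ⟨e, h5, h4⟩) h2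
      rw [heq]
      exact hZ v
    · have h2 : v ∉ D.VS (Z ∩ F1) := fun h2 => h1 (VS_mono Finset.inter_subset_right h2)
      rw [dg_eq_zero.mpr h2]
      decide
  intro v
  by_cases hv : v = x
  · subst hv
    have hs : ∑ w ∈ insert v (D.VS (Z ∩ F1)), D.dg (Z ∩ F1) w =
        ∑ e ∈ Z ∩ F1, (D.inc e ∩ insert v (D.VS (Z ∩ F1))).card := sum_dg _ _
    have h2 : ∀ e ∈ Z ∩ F1, (D.inc e ∩ insert v (D.VS (Z ∩ F1))).card = 2 := by
      intro e he
      rw [← D.two e]
      congr 1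
      refine Finset.inter_eq_left.mpr fun w hw => ?_
      exact Finset.mem_insert_of_mem (mem_VS.mpr ⟨e, he, hw⟩)
    rw [Finset.sum_congr rfl h2, Finset.sum_const, smul_eq_mul] at hs
    have h3 : Even (∑ w ∈ insert v (D.VS (Z ∩ F1)), D.dg (Z ∩ F1) w) := by
      rw [hs]
      exact even_two.mul_left _
    rw [← Finset.add_sum_erase _ _ (Finset.mem_insert_self v _), Nat.even_add] at h3
    refine h3.mpr (Finset.even_sum _ fun w hw => key w (Finset.ne_of_mem_erase hw))
  · exact key v hv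

/-- Two edges at a common vertex of a two-connected set are on a common circuit. -/
theorem TwoC.circ_through {F : Finset E} (hF : D.TwoC F) {e1 e2 : E} (he1 : e1 ∈ F)
    (he2 : e2 ∈ F) (hne : e1 ≠ e2) {w : W} (h1 : w ∈ D.inc e1) (h2 : w ∈ D.inc e2) :
    ∃ C, C ⊆ F ∧ D.IsCirc C ∧ e1 ∈ C ∧ e2 ∈ C := by
  obtain ⟨x1, hwx1, hi1⟩ := exists_other h1
  obtain ⟨x2, hwx2, hi2⟩ := exists_other h2
  have hx1 : x1 ∈ D.inc e1 := by rw [hi1]; simp
  have hx2 : x2 ∈ D.inc e2 := by rw [hi2]; simp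
  by_cases hx : x1 = x2
  · subst hx
    have hP := IsPth.single h1 hx1 hwx1
    have hQ := IsPth.single h2 hx2 hwx1
    refine ⟨{e1} ∪ {e2}, ?_, hP.glue hQ ?_ ?_, ?_, ?_⟩
    · exact Finset.union_subset (Finset.singleton_subset_iff.mpr he1)
        (Finset.singleton_subset_iff.mpr he2)
    · exact Finset.disjoint_singleton.mpr hne
    · intro v hv _
      rw [VS_singleton, hi1] at hv
      simpa using hv
    · simp
    · simp
  · obtain ⟨Q, hQF, hQ, hQw⟩ := (hF.2 w x1 x2 (mem_VS.mpr ⟨e1, he1, hx1⟩)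
      (mem_VS.mpr ⟨e2, he2, hx2⟩) hwx1.symm hwx2.symm).exists_path hx
    have hwQ : w ∉ D.VS Q := fun h => hQw w h (Finset.mem_singleton_self w)
    obtain ⟨hd, hP⟩ := (IsPth.single hx1 h1 hwx1.symm).append (IsPth.single h2 hx2 hwx2) (by
      intro v hv hv'
      rw [VS_singleton, hi1] at hv
      rw [VS_singleton, hi2] at hv'
      rcases Finset.mem_insert.mp hv with h | h
      · exact h
      · rcases Finset.mem_insert.mp hv' with h' | h'
        · exact h'
        · rw [Finset.mem_singleton] at h h'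
          exact absurd (h.symm.trans h') hx)
    refine ⟨({e1} ∪ {e2}) ∪ Q, ?_, hP.glue hQ ?_ ?_, ?_, ?_⟩
    · exact Finset.union_subset (Finset.union_subset (Finset.singleton_subset_iff.mpr he1)
        (Finset.singleton_subset_iff.mpr he2)) hQF
    · rw [Finset.disjoint_left]
      intro e he heQ
      rw [Finset.mem_union, Finset.mem_singleton, Finset.mem_singleton] at he
      rcases he with rfl | rfl
      · exact hwQ (mem_VS.mpr ⟨e, heQ, h1⟩)
      · exact hwQ (mem_VS.mpr ⟨e, heQ, h2⟩)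
    · intro v hv hvQ
      rw [mem_VS_union, VS_singleton, VS_singleton, hi1, hi2] at hv
      have hvw : v ≠ w := fun h => hwQ (h ▸ hvQ)
      rcases hv with hv | hv
      · rcases Finset.mem_insert.mp hv with h | h
        · exact absurd h hvw
        · exact Or.inl (Finset.mem_singleton.mp h)
      · rcases Finset.mem_insert.mp hv with h | h
        · exact absurd h hvw
        · exact Or.inr (Finset.mem_singleton.mp h)
    · simp
    · simp

/-- In a two-connected set, two nonempty parts are met by a common circuit. -/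
theorem TwoC.circ_meet {F T1 T2 : Finset E} (hF : D.TwoC F) (hu : T1 ∪ T2 = F)
    (hd : Disjoint T1 T2) (h1 : T1.Nonempty) (h2 : T2.Nonempty) :
    ∃ C, C ⊆ F ∧ D.IsCirc C ∧ (C ∩ T1).Nonempty ∧ (C ∩ T2).Nonempty := by
  have hT1 : T1 ⊆ F := by rw [← hu]; exact Finset.subset_union_left
  have hs : F \ T1 = T2 := by
    rw [← hu, Finset.union_sdiff_cancel_left hd]
  have hatt := hF.attach hT1 h1 (by rw [hs]; exact h2)
  obtain ⟨w, hw⟩ := Finset.card_pos.mp (by omega : 0 < (D.VS T1 ∩ D.VS (F \ T1)).card)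
  rw [Finset.mem_inter, hs] at hw
  obtain ⟨e1, he1, hw1⟩ := mem_VS.mp hw.1
  obtain ⟨e2, he2, hw2⟩ := mem_VS.mp hw.2
  have hne : e1 ≠ e2 := by
    rintro rfl
    exact Finset.disjoint_left.mp hd he1 he2
  obtain ⟨C, hCF, hC, h3, h4⟩ := hF.circ_through (hT1 he1)
    (by rw [← hu]; exact Finset.mem_union_right _ he2) hne hw1 hw2
  exact ⟨C, hCF, hC, ⟨e1, Finset.mem_inter.mpr ⟨h3, he1⟩⟩, ⟨e2, Finset.mem_inter.mpr ⟨h4, he2⟩⟩⟩

/-- If every even subset of a two-connected set splits along a partition, the partition is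
trivial. -/
theorem TwoC.no_split {F T1 T2 : Finset E} (hF : D.TwoC F) (hu : T1 ∪ T2 = F)
    (hd : Disjoint T1 T2) (h1 : T1.Nonempty) (h2 : T2.Nonempty)
    (h : ∀ Z ⊆ F, D.Ev Z → D.Ev (Z ∩ T1)) : False := by
  obtain ⟨C, hCF, hC, h3, h4⟩ := hF.circ_meet hu hd h1 h2
  refine hC.not_split Finset.inter_subset_left h3 ?_ (h C hCF hC.ev)
  obtain ⟨e, he⟩ := h4
  rw [Finset.mem_inter] at he
  exact ⟨e, Finset.mem_sdiff.mpr ⟨he.1, fun h' => Finset.disjoint_left.mp hd
    (Finset.mem_inter.mp h').2 he.2⟩⟩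

/-- Criterion for two-connectedness: no nontrivial partition is respected by all even sets. -/
theorem twoC_of_no_split {F : Finset E} (hcard : 2 ≤ F.card)
    (h : ∀ T1 T2 : Finset E, T1 ∪ T2 = F → Disjoint T1 T2 → T1.Nonempty → T2.Nonempty →
      (∀ Z ⊆ F, D.Ev Z → D.Ev (Z ∩ T1)) → False) : D.TwoC F := by
  classical
  refine ⟨hcard, fun x u v hu hv hux hvx => ?_⟩
  by_contra hnl
  let P : E → Prop := fun e => ∃ y ∈ D.inc e, y ≠ x ∧ D.Lk F {x} u y
  have hPmem : ∀ e ∈ F, ∀ z ∈ D.inc e, z ≠ x → P e → D.Lk F {x} u z := by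
    rintro e he z hz hzx ⟨y, hy, hyx, hl⟩
    exact hl.trans (Lk.edge he hy hz (by simpa using hyx) (by simpa using hzx))
  refine h (F.filter P) (F.filter (fun e => ¬ P e)) (Finset.filter_union_filter_not_eq _ _)
    (Finset.disjoint_filter_filter_not _ _ _) ?_ ?_ ?_
  · obtain ⟨e, he, hue⟩ := mem_VS.mp hu
    exact ⟨e, Finset.mem_filter.mpr ⟨he, u, hue, hux, Lk.refl _ _ _⟩⟩
  · obtain ⟨e, he, hve⟩ := mem_VS.mp hv
    exact ⟨e, Finset.mem_filter.mpr ⟨he, fun hP => hnl (hPmem e he v hve hvx hP)⟩⟩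
  · intro Z hZ hZe
    refine Ev.split (F2 := F.filter (fun e => ¬ P e)) (x := x) hZe ?_ ?_
    · rw [Finset.filter_union_filter_not_eq]
      exact hZ
    · intro w hw1 hw2
      by_contra hwx
      obtain ⟨e1, he1, hwe1⟩ := mem_VS.mp hw1
      obtain ⟨e2, he2, hwe2⟩ := mem_VS.mp hw2
      rw [Finset.mem_filter] at he1 he2
      exact he2.2 ⟨w, hwe2, hwx, hPmem e1 he1.1 w hwe1 hwx he1.2⟩

end BDu
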