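import Pool.Agent.Helper48.BDu.GRO
import Pool.Agent.Helper48.BDu.WT2

/-!
# BOND, dual side, module EVN: even case
-/

set_option autoImplicit false
set_option linter.unusedSectionVars false

namespace BDu

variable {W E : Type} [DecidableEq W] [DecidableEq E] {D : BDu W E}
variable [Fintype E]

theorem even_case {S₀ : Finset E} (hcov : D.COVE S₀) {p : E → ℕ} (hp : D.Adm p)
    (hS₀ : supp p ⊆ S₀) (hT : D.TC (supp p)) (hev : ∀ v, Even (D.pv p v)) :
    ∃ C, D.Good p C := by
  obtain ⟨n, m, hm, hcount⟩ := hcov p hp.le hS₀ hp.tc hev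
  have hmem : ∀ e, e ∈ supp p ↔ ∃ i, e ∈ m i := by
    intro e
    rw [mem_supp, hcount, Finset.card_ne_zero]
    constructor
    · rintro ⟨i, hi⟩
      exact ⟨i, (Finset.mem_filter.mp hi).2⟩
    · rintro ⟨i, hi⟩
      exact ⟨i, Finset.mem_filter.mpr ⟨Finset.mem_univ _, hi⟩⟩
  have hS : supp p = Finset.univ.biUnion m := by
    ext e
    rw [hmem, Finset.mem_biUnion]
    simp
  obtain ⟨v, hv⟩ := hp.big
  have hvS : v ∈ D.VS (supp p) := mem_VS_supp.mpr (by omega)
  obtain ⟨e, he, _⟩ := mem_VS.mp hvS
  obtain ⟨i₀, _⟩ := (hmem e).mp he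
  have h1 : ∃ i, i ≠ i₀ := by
    by_contra hc
    push Not at hc
    have h2 : ∀ e, p e = if e ∈ m i₀ then 1 else 0 := by
      intro e
      rw [hcount]
      split_ifs with h
      · rw [Finset.card_eq_one]
        refine ⟨i₀, ?_⟩
        ext i
        rw [Finset.mem_filter, Finset.mem_singleton]
        constructor
        · intro _
          exact hc i
        · rintro rfl
          exact ⟨Finset.mem_univ _, h⟩
      · rw [Finset.card_eq_zero]
        ext i
        rw [Finset.mem_filter, hc i]
        simp [h]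
    have h3 : D.pv p v = D.dg (m i₀) v := by
      rw [pv_eq_sum, dg_eq_sum]
      exact Finset.sum_congr rfl fun e _ => by rw [h2]
    have h4 : D.dg (m i₀) v ≤ 2 := by
      by_cases h : v ∈ D.VS (m i₀)
      · exact ((hm i₀).2.1 v h).le
      · rw [dg_eq_zero.mpr h]
        omega
    omega
  obtain ⟨i, _, hi⟩ := grow_family m hm hS hp.tc hT i₀ h1
  refine ⟨m i, hm i, fun e he => (hmem e).mpr ⟨i, he⟩, ?_⟩
  have h5 : supp (sub p (m i)) = (Finset.univ.filter (fun j => j ≠ i)).biUnion m := by
    ext e
    rw [mem_supp, Finset.mem_biUnion, sub_apply, hcount]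
    have h6 : (Finset.univ.filter fun j => e ∈ m j).card - (if e ∈ m i then 1 else 0) =
        (Finset.univ.filter fun j => j ≠ i ∧ e ∈ m j).card := by
      split_ifs with h
      · have h7 : (Finset.univ.filter fun j => j ≠ i ∧ e ∈ m j) =
            (Finset.univ.filter fun j => e ∈ m j).erase i := by
          ext j
          simp
        have h8 : i ∈ Finset.univ.filter fun j => e ∈ m j :=
          Finset.mem_filter.mpr ⟨Finset.mem_univ _, h⟩
        rw [h7, Finset.card_erase_of_mem h8]
      · rw [Nat.sub_zero]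
        congr 1
        ext j
        simp only [Finset.mem_filter, Finset.mem_univ, true_and]
        constructor
        · intro h8
          exact ⟨fun h9 => h (h9 ▸ h8), h8⟩
        · exact fun h8 => h8.2
    rw [h6, Finset.card_ne_zero]
    constructor
    · rintro ⟨j, hj⟩
      have := (Finset.mem_filter.mp hj).2
      exact ⟨j, Finset.mem_filter.mpr ⟨Finset.mem_univ _, this.1⟩, this.2⟩
    · rintro ⟨j, hj, hje⟩
      exact ⟨j, Finset.mem_filter.mpr ⟨Finset.mem_univ _, (Finset.mem_filter.mp hj).2, hje⟩⟩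
  rw [h5]
  exact hi

end BDu
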