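import Pool.Agent.Helper48.BDu.EAR
import Pool.Agent.Helper48.BDu.TRM

/-!
# BOND, dual side, module GRO: growth argument for families of circuits
-/

set_option autoImplicit false
set_option linter.unusedSectionVars false

namespace BDu

variable {W E : Type} [DecidableEq W] [DecidableEq E] {D : BDu W E}

/-- A circuit with at most one vertex in `A` stays connected outside `A`. -/
theorem gro_link {C : Finset E} (hC : D.IsCirc C) {A : Finset W}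
    (hA : ∀ u v, u ∈ D.VS C → u ∈ A → v ∈ D.VS C → v ∈ A → u = v) {u v : W} (hu : u ∈ D.VS C)
    (hv : v ∈ D.VS C) (huA : u ∉ A) (hvA : v ∉ A) : D.Lk C A u v := by
  by_cases hc : ∃ c, c ∈ D.VS C ∧ c ∈ A
  · obtain ⟨c, hcC, hcA⟩ := hc
    have h1 : D.Lk C {c} u v := hC.link hu hv (fun h => huA (h ▸ hcA)) (fun h => hvA (h ▸ hcA))
    have h2 : D.Lk C ({c} ∪ A) u v := by
      refine h1.avoid fun w hw hwA => ?_
      by_cases huw : u = w
      · exact huA (huw ▸ hwA)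
      · obtain ⟨h3, h4⟩ := hw.mem_right huw
        exact h4 (by rw [Finset.mem_singleton]; exact hA w c h3 hwA hcC hcA)
    exact h2.mono (Finset.Subset.refl _) Finset.subset_union_right
  · have h2 : D.Lk C (∅ ∪ A) u v := by
      refine (hC.2.2 u hu v hv).avoid fun w hw hwA => ?_
      by_cases huw : u = w
      · exact huA (huw ▸ hwA)
      · exact hc ⟨w, (hw.mem_right huw).1, hwA⟩
    exact h2.mono (Finset.Subset.refl _) Finset.subset_union_right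

theorem grow_family {n : ℕ} (m : Fin n → Finset E) (hm : ∀ i, D.IsCirc (m i))
    {S : Finset E} (hSm : S = Finset.univ.biUnion m) (hS : D.TwoC S) (hT : D.TC S) (i₀ : Fin n)
    (h1 : ∃ i, i ≠ i₀) :
    ∃ i, i ≠ i₀ ∧ D.TwoC ((Finset.univ.filter (fun j => j ≠ i)).biUnion m) := by
  classical
  obtain ⟨U, hU⟩ : ∃ U : Fin n → Finset E,
      U = fun i => (Finset.univ.filter (fun j => j ≠ i)).biUnion m := ⟨_, rfl⟩
  have memU : ∀ i e, e ∈ U i ↔ ∃ j, j ≠ i ∧ e ∈ m j := by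
    intro i e
    rw [hU]
    simp
  have memS : ∀ e, e ∈ S ↔ ∃ j, e ∈ m j := by
    intro e
    rw [hSm]
    simp
  have hmU : ∀ i j, j ≠ i → m j ⊆ U i := fun i j hij e he => (memU i e).2 ⟨j, hij, he⟩
  have hUS : ∀ i, U i ⊆ S := by
    intro i e he
    obtain ⟨j, -, hj⟩ := (memU i e).1 he
    exact (memS e).2 ⟨j, hj⟩
  have hSU : ∀ i e, e ∈ S → e ∈ U i ∨ e ∈ m i := by
    intro i e he
    obtain ⟨j, hj⟩ := (memS e).1 he
    by_cases hij : j = i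
    · right; rw [← hij]; exact hj
    · left; exact (memU i e).2 ⟨j, hij, hj⟩
  suffices hsuf : ∃ i, i ≠ i₀ ∧ D.TwoC (U i) by
    obtain ⟨i, hi, h⟩ := hsuf
    rw [hU] at h
    exact ⟨i, hi, h⟩
  obtain ⟨i₁, hi₁⟩ := h1
  -- the maximal choice
  obtain ⟨i, B, hi, hm0, hBU, hB, hmax⟩ : ∃ (i : Fin n) (B : Finset E), i ≠ i₀ ∧ m i₀ ⊆ B ∧
      B ⊆ U i ∧ D.TwoC B ∧ ∀ i' B', i' ≠ i₀ → m i₀ ⊆ B' → B' ⊆ U i' → D.TwoC B' →
        (D.VS B').card * (S.card + 1) + B'.card ≤ (D.VS B).card * (S.card + 1) + B.card := by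
    obtain ⟨x, hx, hmx⟩ := Finset.exists_max_image
      ((Finset.univ ×ˢ S.powerset).filter (fun x : Fin n × Finset E => x.1 ≠ i₀ ∧ m i₀ ⊆ x.2 ∧
        x.2 ⊆ U x.1 ∧ D.TwoC x.2))
      (fun x => (D.VS x.2).card * (S.card + 1) + x.2.card)
      ⟨(i₁, m i₀), by
        simp only [Finset.mem_filter, Finset.mem_product, Finset.mem_univ, true_and,
          Finset.mem_powerset]
        exact ⟨fun e he => (memS e).2 ⟨i₀, he⟩, hi₁, Finset.Subset.refl _, hmU _ _ hi₁.symm,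
          (hm i₀).twoC⟩⟩
    simp only [Finset.mem_filter, Finset.mem_product, Finset.mem_univ, true_and,
      Finset.mem_powerset] at hx hmx
    exact ⟨x.1, x.2, hx.2.1, hx.2.2.1, hx.2.2.2.1, hx.2.2.2.2, fun i' B' h1 h2 h3 h4 =>
      hmx (i', B') ⟨h3.trans (hUS _), h1, h2, h3, h4⟩⟩
  have hBS : B ⊆ S := hBU.trans (hUS i)
  have hBcard : B.card ≤ S.card := Finset.card_le_card hBS
  have hmaxV : ∀ i' B', i' ≠ i₀ → B ⊆ B' → B' ⊆ U i' → D.TwoC B' →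
      ¬ (D.VS B).card < (D.VS B').card := by
    intro i' B' h1 h2 h3 h4 h5
    have h6 := hmax i' B' h1 (hm0.trans h2) h3 h4
    have h7 : ((D.VS B).card + 1) * (S.card + 1) ≤ (D.VS B').card * (S.card + 1) :=
      Nat.mul_le_mul_right _ h5
    have h8 : ((D.VS B).card + 1) * (S.card + 1) = (D.VS B).card * (S.card + 1) + (S.card + 1) := by
      ring
    omega
  have hmaxC : ∀ i' B', i' ≠ i₀ → B ⊆ B' → B' ⊆ U i' → D.TwoC B' → ¬ B.card < B'.card := by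
    intro i' B' h1 h2 h3 h4 h5
    have h6 := hmax i' B' h1 (hm0.trans h2) h3 h4
    have h7 : (D.VS B).card * (S.card + 1) ≤ (D.VS B').card * (S.card + 1) :=
      Nat.mul_le_mul_right _ (Finset.card_le_card (VS_mono h2))
    omega
  by_cases hBeq : B = U i
  · exact ⟨i, hi, hBeq ▸ hB⟩
  exfalso
  obtain ⟨e₀, he₀U, he₀B⟩ : ∃ e ∈ U i, e ∉ B := by
    by_contra hc
    push Not at hc
    exact hBeq (Finset.Subset.antisymm hBU hc)
  obtain ⟨j, hji, he₀j⟩ := (memU i e₀).1 he₀U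
  have hj0 : j ≠ i₀ := by
    rintro rfl
    exact he₀B (hm0 he₀j)
  -- the circuit `m j` has at most one vertex in `VS B`
  have hjB : ∀ u v, u ∈ D.VS (m j) → u ∈ D.VS B → v ∈ D.VS (m j) → v ∈ D.VS B → u = v := by
    intro u v hu huB hv hvB
    by_contra huv
    have h2 : D.TwoC (B ∪ m j) := hB.union (hm j).twoC huv huB hvB hu hv
    refine hmaxC i (B ∪ m j) hi Finset.subset_union_left
      (Finset.union_subset hBU (hmU i j hji)) h2 ?_
    exact Finset.card_lt_card ⟨Finset.subset_union_left, fun h =>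
      he₀B (h (Finset.mem_union_right _ he₀j))⟩
  have hmjB : ∀ e ∈ m j, e ∉ B := by
    intro e he heB
    obtain ⟨u, v, huv, hinc⟩ := exists_end D e
    have hu : u ∈ D.inc e := by rw [hinc]; simp
    have hv : v ∈ D.inc e := by rw [hinc]; simp
    exact huv (hjB u v (mem_VS.2 ⟨e, he, hu⟩) (mem_VS.2 ⟨e, heB, hu⟩) (mem_VS.2 ⟨e, he, hv⟩)
      (mem_VS.2 ⟨e, heB, hv⟩))
  have hUU : ∀ e ∈ U i, e ∉ m j → e ∈ U j := by
    intro e he hej
    obtain ⟨k, hk, hek⟩ := (memU i e).1 he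
    refine (memU j e).2 ⟨k, ?_, hek⟩
    rintro rfl
    exact hej hek
  have hBUj : B ⊆ U j := fun e he => hUU e (hBU he) fun h => hmjB e h he
  -- a vertex of `m j` outside
  obtain ⟨x₀, hx₀j, hx₀B⟩ : ∃ x₀ ∈ D.VS (m j), x₀ ∉ D.VS B := by
    obtain ⟨u, v, huv, hinc⟩ := exists_end D e₀
    have hu : u ∈ D.VS (m j) := mem_VS.2 ⟨e₀, he₀j, by rw [hinc]; simp⟩
    have hv : v ∈ D.VS (m j) := mem_VS.2 ⟨e₀, he₀j, by rw [hinc]; simp⟩
    by_cases huB : u ∈ D.VS B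
    · exact ⟨v, hv, fun hvB => huv (hjB u v hu huB hv hvB)⟩
    · exact ⟨u, hu, huB⟩
  have hnot : ∀ (F : Finset E) (y w : W), y ∉ D.VS B → D.Lk F (D.VS B) y w → w ∉ D.VS B := by
    intro F y w hy hw
    by_cases hyw : y = w
    · rw [← hyw]; exact hy
    · exact (hw.mem_right hyw).2
  have hmjX : ∀ w ∈ D.VS (m j), w ∉ D.VS B → D.Lk (U i) (D.VS B) x₀ w := fun w hw hwB =>
    (gro_link (hm j) hjB hx₀j hw hx₀B hwB).mono (hmU i j hji) (Finset.Subset.refl _)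
  -- attachments
  have hatt : ∀ i', i' ≠ i₀ → B ⊆ U i' → ∀ a₁ a₂ y₁ y₂ : W, ∀ e₁ e₂ : E, a₁ ∈ D.VS B →
      a₂ ∈ D.VS B → y₁ ∉ D.VS B → y₂ ∉ D.VS B → e₁ ∈ U i' → e₂ ∈ U i' → a₁ ∈ D.inc e₁ →
      y₁ ∈ D.inc e₁ → a₂ ∈ D.inc e₂ → y₂ ∈ D.inc e₂ → D.Lk (U i') (D.VS B) y₁ y₂ → a₁ = a₂ := by
    intro i' hi' hB' a₁ a₂ y₁ y₂ e₁ e₂ ha₁ ha₂ hy₁ hy₂ he₁ he₂ h1 h2 h3 h4 hl
    by_contra hne
    obtain ⟨B', h5, h6, h7, h8⟩ := hB.grow hB' hne ha₁ ha₂ hy₁ hy₂ he₁ he₂ h1 h2 h3 h4 hl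
    exact hmaxV i' B' hi' h5 h6 h7 h8
  -- the unique attachment of a component
  have hcc : ∀ y, y ∉ D.VS B → ∃ c ∈ D.VS B, ∀ z ∈ D.VS B, ∀ x : W, ∀ e ∈ U i,
      D.Lk (U i) (D.VS B) y x → x ∈ D.inc e → z ∈ D.inc e → z = c := by
    intro y hy
    by_cases hc : ∃ c ∈ D.VS B, ∃ x : W, ∃ e ∈ U i, D.Lk (U i) (D.VS B) y x ∧ x ∈ D.inc e ∧
        c ∈ D.inc e
    · obtain ⟨c, hcB, x, e, he, hyx, hxe, hce⟩ := hc
      refine ⟨c, hcB, fun z hz x' e' he' hyx' hx' hz' => ?_⟩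
      exact hatt i hi hBU z c x' x e' e hz hcB (hnot _ _ _ hy hyx') (hnot _ _ _ hy hyx) he' he
        hz' hx' hce hxe (hyx'.symm.trans hyx)
    · obtain ⟨c, hcB⟩ : (D.VS B).Nonempty :=
        VS_nonempty (Finset.card_pos.1 (by have := hB.1; omega))
      refine ⟨c, hcB, fun z hz x' e' he' hyx' hx' hz' => ?_⟩
      exact absurd ⟨z, hz, x', e', he', hyx', hx', hz'⟩ hc
  -- every component meets `m i`
  have hmeet : ∀ y, y ∉ D.VS B → y ∈ D.VS (U i) → ∃ w ∈ D.VS (m i), w ∉ D.VS B ∧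
      D.Lk (U i) (D.VS B) y w := by
    intro y hy hyU
    by_contra hno
    push Not at hno
    obtain ⟨c, hcB, hc⟩ := hcc y hy
    obtain ⟨b, hbB, hbc⟩ := hB.exists_ne c
    have hyc : y ≠ c := fun h => hy (h ▸ hcB)
    have hl : D.Lk S {c} y b := hS.2 c y b (VS_mono (hUS i) hyU) (VS_mono hBS hbB) hyc hbc
    obtain ⟨x, z, e, he, hxe, hze, hxz, hxc, hzc, hKx, hKz, -⟩ :=
      hl.exit (fun w => D.Lk (U i) (D.VS B) y w) (Lk.refl _ _ _)
        (fun h => hnot _ _ _ hy h hbB)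
    have hxB := hnot _ _ _ hy hKx
    rcases hSU i e he with h | h
    · by_cases hzB : z ∈ D.VS B
      · exact hzc (by rw [Finset.mem_singleton]; exact hc z hzB x e h hKx hxe hze)
      · exact hKz (hKx.trans (Lk.edge h hxe hze hxB hzB))
    · exact hno x (mem_VS.2 ⟨e, h, hxe⟩) hxB hKx
  -- the circuit `m i` has at most one vertex in `VS B`
  have hiB : ∀ u v, u ∈ D.VS (m i) → u ∈ D.VS B → v ∈ D.VS (m i) → v ∈ D.VS B → u = v := by
    intro u v hu huB hv hvB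
    by_contra huv
    have h2 : D.TwoC (B ∪ m i) := hB.union (hm i).twoC huv huB hvB hu hv
    obtain ⟨w, hw, hwB, -⟩ := hmeet x₀ hx₀B (VS_mono (hmU i j hji) hx₀j)
    refine hmaxV j (B ∪ m i) hj0 Finset.subset_union_left
      (Finset.union_subset hBUj (hmU j i hji.symm)) h2 ?_
    exact Finset.card_lt_card ⟨VS_mono Finset.subset_union_left, fun h =>
      hwB (h (mem_VS_union.2 (Or.inr hw)))⟩
  -- attachments of `B`
  have hmjS : m j ⊆ S \ B := fun e he =>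
    Finset.mem_sdiff.2 ⟨(memS e).2 ⟨j, he⟩, hmjB e he⟩
  have h3 : 3 ≤ (D.VS B ∩ D.VS (S \ B)).card :=
    TC.attach hS hT hBS (fun a b hP => hP.no_circ (hm i₀) hm0)
      (fun a b hP => hP.no_circ (hm j) hmjS) (Finset.card_pos.1 (by have := hB.1; omega))
      ⟨e₀, hmjS he₀j⟩
  obtain ⟨c, hcB, hc⟩ := hcc x₀ hx₀B
  have h2 : 1 < ((D.VS B ∩ D.VS (S \ B)).erase c).card := by
    have := Finset.pred_card_le_card_erase (s := D.VS B ∩ D.VS (S \ B)) (a := c)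
    omega
  obtain ⟨a₁, ha₁, a₂, ha₂, ha⟩ := Finset.one_lt_card.1 h2
  rw [Finset.mem_erase, Finset.mem_inter] at ha₁ ha₂
  have hjoin : ∀ a, a ∈ D.VS B → a ∈ D.VS (S \ B) → a ≠ c → ∃ w ∈ D.VS (m i), w ∉ D.VS B ∧
      ∃ (y : W) (e : E), e ∈ U j ∧ a ∈ D.inc e ∧ y ∈ D.inc e ∧ y ∉ D.VS B ∧
        D.Lk (U j) (D.VS B) y w := by
    intro a haB haS hac
    obtain ⟨e, he, hae⟩ := mem_VS.1 haS
    rw [Finset.mem_sdiff] at he
    obtain ⟨y, hay, hinc⟩ := exists_other hae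
    have hye : y ∈ D.inc e := by rw [hinc]; simp
    by_cases hei : e ∈ m i
    · have hy : y ∉ D.VS B := fun hyB =>
        hay (hiB a y (mem_VS.2 ⟨e, hei, hae⟩) haB (mem_VS.2 ⟨e, hei, hye⟩) hyB)
      exact ⟨y, mem_VS.2 ⟨e, hei, hye⟩, hy, y, e, hmU j i hji.symm hei, hae, hye, hy,
        Lk.refl _ _ _⟩
    · have heU : e ∈ U i := (hSU i e he.1).resolve_right hei
      have hyB : y ∉ D.VS B := by
        intro hyB
        have h4 : D.VS (insert e B) ⊆ D.VS B := by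
          intro w hw
          obtain ⟨f, hf, hwf⟩ := mem_VS.1 hw
          rcases Finset.mem_insert.1 hf with rfl | hf
          · rw [hinc, Finset.mem_insert, Finset.mem_singleton] at hwf
            rcases hwf with rfl | rfl
            · exact haB
            · exact hyB
          · exact mem_VS.2 ⟨f, hf, hwf⟩
        refine hmaxC i (insert e B) hi (Finset.subset_insert _ _)
          (Finset.insert_subset heU hBU) (hB.of_VS_eq (Finset.subset_insert _ _) h4) ?_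
        rw [Finset.card_insert_of_notMem he.2]
        omega
      obtain ⟨w, hw, hwB, hyw⟩ := hmeet y hyB (mem_VS.2 ⟨e, heU, hye⟩)
      have hyX : ¬ D.Lk (U i) (D.VS B) x₀ y := fun hX => hac (hc a haB y e heU hX hye hae)
      have hej : e ∉ m j := fun h => hyX (hmjX y (mem_VS.2 ⟨e, h, hye⟩) hyB)
      refine ⟨w, hw, hwB, y, e, hUU e heU hej, hae, hye, hyB, ?_⟩
      have h5 : D.Lk (U i \ m j) (D.VS B) y w := by
        refine hyw.delete fun w' hw' hw'B f _ hwf hfj => ?_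
        exact hyX ((hmjX w' (mem_VS.2 ⟨f, hfj, hwf⟩) hw'B).trans hw'.symm)
      refine h5.mono (fun f hf => ?_) (Finset.Subset.refl _)
      rw [Finset.mem_sdiff] at hf
      exact hUU f hf.1 hf.2
  obtain ⟨w₁, hw₁, hw₁B, y₁, f₁, hf₁, haf₁, hyf₁, hy₁, hl₁⟩ :=
    hjoin a₁ ha₁.2.1 ha₁.2.2 ha₁.1
  obtain ⟨w₂, hw₂, hw₂B, y₂, f₂, hf₂, haf₂, hyf₂, hy₂, hl₂⟩ :=
    hjoin a₂ ha₂.2.1 ha₂.2.2 ha₂.1
  have hlw : D.Lk (U j) (D.VS B) w₁ w₂ :=
    (gro_link (hm i) hiB hw₁ hw₂ hw₁B hw₂B).mono (hmU j i hji.symm) (Finset.Subset.refl _)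
  exact ha (hatt j hj0 hBUj a₁ a₂ y₁ y₂ f₁ f₂ ha₁.2.1 ha₂.2.1 hy₁ hy₂ hf₁ hf₂ haf₁ hyf₁ haf₂ hyf₂
    ((hl₁.trans hlw).trans hl₂.symm))

end BDu
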