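import Pool.Agent.Helper48.BDu.Base

/-!
# BOND, dual side, module PAR: parity: circuits and paths minus a vertex
-/

set_option autoImplicit false
set_option linter.unusedSectionVars false

namespace BDu

variable {W E : Type} [DecidableEq W] [DecidableEq E] {D : BDu W E}

/-- Handshake lemma modulo two. -/
theorem sum_dg_parity (F : Finset E) (K : Finset W) :
    ∃ m, ∑ v ∈ K, D.dg F v = 2 * m + (F.filter (fun e => (D.inc e ∩ K).card = 1)).card := by
  rw [sum_dg]
  refine ⟨(F.filter (fun e => (D.inc e ∩ K).card = 2)).card, ?_⟩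
  rw [Finset.card_filter, Finset.card_filter, Finset.mul_sum, ← Finset.sum_add_distrib]
  refine Finset.sum_congr rfl fun e _ => ?_
  have h1 : (D.inc e ∩ K).card ≤ 2 := by
    rw [← D.two e]
    exact Finset.card_le_card Finset.inter_subset_left
  interval_cases h : (D.inc e ∩ K).card <;> simp

/-- If all vertices of the component of `u` in `F - x` have degree two then all edges at `x` go to
this component. -/
theorem par_link {F : Finset E} {x u : W}
    (hcon : ∀ a ∈ D.VS F, ∀ b ∈ D.VS F, D.Lk F ∅ a b) (hx : x ∈ D.VS F) (hdx : D.dg F x ≤ 2)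
    (hu : u ∈ D.VS F) (hux : u ≠ x)
    (hdeg : ∀ w ∈ D.VS F, w ≠ x → D.Lk F {x} u w → D.dg F w = 2) :
    D.dg F x = 2 ∧ ∀ e ∈ F, x ∈ D.inc e → ∀ y ∈ D.inc e, y ≠ x → D.Lk F {x} u y := by
  classical
  set K : Finset W := (D.VS F).filter (fun w => w ≠ x ∧ D.Lk F {x} u w) with hK
  have memK : ∀ w, w ∈ K ↔ w ∈ D.VS F ∧ w ≠ x ∧ D.Lk F {x} u w := by
    intro w
    rw [hK, Finset.mem_filter]
  -- an edge with exactly one end in `K` is an edge at `x`
  have hA1 : ∀ e ∈ F, (D.inc e ∩ K).card = 1 → x ∈ D.inc e ∧ ∀ y ∈ D.inc e, y ≠ x → y ∈ K := by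
    intro e he hc
    obtain ⟨w, hw⟩ := Finset.card_eq_one.mp hc
    have hwm : w ∈ D.inc e ∩ K := by rw [hw]; exact Finset.mem_singleton_self w
    rw [Finset.mem_inter] at hwm
    obtain ⟨w', hne, hinc⟩ := exists_other hwm.1
    have hw'e : w' ∈ D.inc e := by rw [hinc]; simp
    have hw'K : w' ∉ K := by
      intro h
      have : w' ∈ D.inc e ∩ K := Finset.mem_inter.mpr ⟨hw'e, h⟩
      rw [hw, Finset.mem_singleton] at this
      exact hne this.symm
    obtain ⟨h1, h2, h3⟩ := (memK w).mp hwm.2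
    have hw'x : w' = x := by
      by_contra hne'
      apply hw'K
      rw [memK]
      refine ⟨mem_VS.mpr ⟨e, he, hw'e⟩, hne', h3.trans ?_⟩
      exact Lk.edge he hwm.1 hw'e (by simpa using h2) (by simpa using hne')
    subst hw'x
    refine ⟨hw'e, fun y hy hyx => ?_⟩
    rw [hinc, Finset.mem_insert, Finset.mem_singleton] at hy
    rcases hy with rfl | rfl
    · exact hwm.2
    · exact absurd rfl hyx
  set A : Finset E := F.filter (fun e => (D.inc e ∩ K).card = 1) with hA
  have hAsub : A ⊆ F.filter (fun e => x ∈ D.inc e) := by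
    intro e he
    rw [hA, Finset.mem_filter] at he
    exact Finset.mem_filter.mpr ⟨he.1, (hA1 e he.1 he.2).1⟩
  have hAcard : A.card ≤ D.dg F x := Finset.card_le_card hAsub
  obtain ⟨m, hm⟩ := sum_dg_parity (D := D) F K
  have hsum : ∑ v ∈ K, D.dg F v = 2 * K.card := by
    rw [Finset.sum_congr rfl (fun v hv => hdeg v ((memK v).mp hv).1 ((memK v).mp hv).2.1
      ((memK v).mp hv).2.2), Finset.sum_const, smul_eq_mul, mul_comm]
  rw [← hA, hsum] at hm
  -- `A` is nonempty
  have hAne : A.Nonempty := by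
    obtain ⟨y, y', e, he, hy, hy', hyy', _, _, hP, hnP, _⟩ :=
      Lk.exit (fun w => w ≠ x ∧ D.Lk F {x} u w) (hcon u hu x hx) ⟨hux, Lk.refl _ _ _⟩
        (fun h => h.1 rfl)
    have hy'x : y' = x := by
      by_contra hne
      exact hnP ⟨hne, hP.2.trans (Lk.edge he hy hy' (by simpa using hP.1) (by simpa using hne))⟩
    subst hy'x
    refine ⟨e, ?_⟩
    rw [hA, Finset.mem_filter]
    refine ⟨he, ?_⟩
    rw [inc_eq hy hy' hyy']
    have h1 : ({y, y'} : Finset W) ∩ K = {y} := by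
      ext w
      rw [Finset.mem_inter, Finset.mem_insert, Finset.mem_singleton, Finset.mem_singleton]
      constructor
      · rintro ⟨h | h, hw⟩
        · exact h
        · subst h
          exact absurd rfl ((memK w).mp hw).2.1
      · rintro rfl
        exact ⟨Or.inl rfl, (memK w).mpr ⟨mem_VS.mpr ⟨e, he, hy⟩, hP.1, hP.2⟩⟩
    rw [h1, Finset.card_singleton]
  have hApos : 0 < A.card := Finset.card_pos.mpr hAne
  have hA2 : A.card = 2 := by omega
  refine ⟨by omega, fun e he hxe y hy hyx => ?_⟩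
  have hAeq : A = F.filter (fun e => x ∈ D.inc e) := by
    refine Finset.eq_of_subset_of_card_le hAsub ?_
    change D.dg F x ≤ A.card
    omega
  have heA : e ∈ A := by
    rw [hAeq, Finset.mem_filter]
    exact ⟨he, hxe⟩
  rw [hA, Finset.mem_filter] at heA
  exact ((memK y).mp ((hA1 e he heA.2).2 y hy hyx)).2.2

theorem IsCirc.link {C : Finset E} (hC : D.IsCirc C) {x u v : W} (hu : u ∈ D.VS C)
    (hv : v ∈ D.VS C) (hux : u ≠ x) (hvx : v ≠ x) : D.Lk C {x} u v := by
  obtain ⟨hne, hdeg, hcon⟩ := hC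
  by_cases hx : x ∈ D.VS C
  · obtain ⟨e, he, hxe⟩ := mem_VS.mp hx
    obtain ⟨y, hxy, hinc⟩ := exists_other hxe
    have hy : y ∈ D.inc e := by rw [hinc]; simp
    have h1 := (par_link hcon hx (hdeg x hx).le hu hux (fun w hw _ _ => hdeg w hw)).2 e he hxe y hy
      (fun h => hxy h.symm)
    have h2 := (par_link hcon hx (hdeg x hx).le hv hvx (fun w hw _ _ => hdeg w hw)).2 e he hxe y hy
      (fun h => hxy h.symm)
    exact h1.trans h2.symm
  · exact Lk.avoid_not_mem (hcon u hu v hv) hx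

theorem IsPth.mem_left {P : Finset E} {a b : W} (hP : D.IsPth P a b) : a ∈ D.VS P :=
  dg_pos.mp (by rw [hP.dgs]; exact one_pos)

theorem IsPth.mem_right {P : Finset E} {a b : W} (hP : D.IsPth P a b) : b ∈ D.VS P :=
  dg_pos.mp (by rw [hP.dgt]; exact one_pos)

theorem IsPth.dg_le {P : Finset E} {a b : W} (hP : D.IsPth P a b) (v : W) : D.dg P v ≤ 2 := by
  by_cases hv : v ∈ D.VS P
  · by_cases ha : v = a
    · rw [ha, hP.dgs]
      omega
    · by_cases hb : v = b
      · rw [hb, hP.dgt]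
        omega
      · rw [hP.inn v hv ha hb]
  · rw [dg_eq_zero.mpr hv]
    omega

theorem IsPth.esc {P : Finset E} {a b : W} (hP : D.IsPth P a b) (x v : W) (hv : v ∈ D.VS P)
    (hvx : v ≠ x) : (a ≠ x ∧ D.Lk P {x} v a) ∨ (b ≠ x ∧ D.Lk P {x} v b) := by
  by_contra hc
  push Not at hc
  obtain ⟨hca, hcb⟩ := hc
  have hla : ∀ w, D.Lk P {x} v w → w ≠ x := by
    intro w hw
    by_cases hvw : v = w
    · rw [← hvw]
      exact hvx
    · have := (hw.mem_right hvw).2
      simpa using this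
  have hna : ¬ D.Lk P {x} v a := fun h => hca (hla a h) h
  have hnb : ¬ D.Lk P {x} v b := fun h => hcb (hla b h) h
  by_cases hx : x ∈ D.VS P
  · have hdeg : ∀ w ∈ D.VS P, w ≠ x → D.Lk P {x} v w → D.dg P w = 2 := by
      intro w hw _ hl
      refine hP.inn w hw ?_ ?_
      · rintro rfl
        exact hna hl
      · rintro rfl
        exact hnb hl
    obtain ⟨h2, hall⟩ := par_link hP.con hx (hP.dg_le x) hv hvx hdeg
    have hxa : a ≠ x := by
      rintro rfl
      rw [hP.dgs] at h2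
      omega
    obtain ⟨y, y', e, he, hy, hy', hyy', _, _, hPr, hnP, _⟩ :=
      Lk.exit (fun w => w = x ∨ (w ≠ x ∧ D.Lk P {x} v w)) (hP.con v hv a hP.mem_left)
        (Or.inr ⟨hvx, Lk.refl _ _ _⟩) (by
          rintro (h | h)
          · exact hxa h
          · exact hna h.2)
    have hy'x : y' ≠ x := fun h => hnP (Or.inl h)
    apply hnP
    right
    refine ⟨hy'x, ?_⟩
    rcases hPr with rfl | ⟨h1, h3⟩
    · exact hall e he hy y' hy' hy'x
    · exact h3.trans (Lk.edge he hy hy' (by simpa using h1) (by simpa using hy'x))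
  · exact hna (Lk.avoid_not_mem (hP.con v hv a hP.mem_left) hx)

theorem IsCirc.two_le {C : Finset E} (hC : D.IsCirc C) : 2 ≤ C.card := by
  obtain ⟨v, hv⟩ := VS_nonempty (D := D) hC.1
  rw [← hC.2.1 v hv]
  exact Finset.card_le_card (Finset.filter_subset _ _)

theorem IsCirc.twoC {C : Finset E} (hC : D.IsCirc C) : D.TwoC C :=
  ⟨hC.two_le, fun _ _ _ hu hv hux hvx => hC.link hu hv hux hvx⟩

/-- Two nonempty parts of a path meet in an inner vertex. -/
theorem IsPth.meet {P P1 P2 : Finset E} {a b : W} (hP : D.IsPth P a b) (hu : P1 ∪ P2 = P)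
    (hd : Disjoint P1 P2) (h1 : P1.Nonempty) (h2 : P2.Nonempty) :
    ∃ v, v ∈ D.VS P1 ∧ v ∈ D.VS P2 ∧ v ≠ a ∧ v ≠ b := by
  have key : ∃ v, v ∈ D.VS P1 ∧ v ∈ D.VS P2 := by
    by_contra hc
    push Not at hc
    obtain ⟨x, hx⟩ := VS_nonempty (D := D) h1
    obtain ⟨y, hy⟩ := VS_nonempty (D := D) h2
    have hxP : x ∈ D.VS P := VS_mono (by rw [← hu]; exact Finset.subset_union_left) hx
    have hyP : y ∈ D.VS P := VS_mono (by rw [← hu]; exact Finset.subset_union_right) hy
    obtain ⟨z, z', e, he, hz, hz', _, _, _, hP1, hnP, _⟩ :=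
      Lk.exit (fun w => w ∈ D.VS P1) (hP.con x hxP y hyP) hx (fun h => hc y h hy)
    rw [← hu, Finset.mem_union] at he
    rcases he with he | he
    · exact hnP (mem_VS.mpr ⟨e, he, hz'⟩)
    · exact hc z hP1 (mem_VS.mpr ⟨e, he, hz⟩)
  obtain ⟨v, hv1, hv2⟩ := key
  have hdg : 2 ≤ D.dg P v := by
    rw [← hu, dg_union hd]
    have := dg_pos.mpr hv1
    have := dg_pos.mpr hv2
    omega
  refine ⟨v, hv1, hv2, ?_, ?_⟩
  · rintro rfl
    rw [hP.dgs] at hdg
    omega
  · rintro rfl
    rw [hP.dgt] at hdg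
    omega

/-- No circuit is contained in a path. -/
theorem IsPth.no_circ {P C : Finset E} {a b : W} (hP : D.IsPth P a b) (hC : D.IsCirc C)
    (h : C ⊆ P) : False := by
  obtain ⟨x, hx⟩ := VS_nonempty (D := D) hC.1
  have ha : a ∈ D.VS C := by
    refine Lk.stay (fun w => w ∈ D.VS C) ?_ (hP.con x (VS_mono h hx) a hP.mem_left) hx
    intro y y' e he hy hy' _ _ _ hyC
    have hd : D.dg P y ≤ D.dg C y := by
      rw [hC.2.1 y hyC]
      exact hP.dg_le y
    exact mem_VS.mpr ⟨e, mem_of_dg_eq h hd he hy, hy'⟩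
  have h1 := dg_mono (D := D) h a
  rw [hC.2.1 a ha, hP.dgs] at h1
  omega

end BDu
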