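import Pool.Agent.Helper48.BDu.PAR

/-!
# BOND, dual side, module PT1: paths
-/

set_option autoImplicit false
set_option linter.unusedSectionVars false

namespace BDu

variable {W E : Type} [DecidableEq W] [DecidableEq E] {D : BDu W E}

/-- Steps outside `A` only use edges without an end in `A`. -/
theorem Lk.restrict {F G : Finset E} {A : Finset W} {u v : W} (h : D.Lk F A u v)
    (hG : ∀ e ∈ F, (∀ w ∈ D.inc e, w ∉ A) → e ∈ G) : D.Lk G A u v := by
  refine Lk.stay (fun w => D.Lk G A u w) ?_ h (Lk.refl _ _ _)
  intro x y e he hx hy hxy hxA hyA h1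
  refine h1.trans (Lk.edge (hG e he ?_) hx hy hxA hyA)
  intro w hw
  rcases inc_cases hx hy hxy hw with rfl | rfl
  · exact hxA
  · exact hyA

theorem IsPth.symm {P : Finset E} {a b : W} (hP : D.IsPth P a b) : D.IsPth P b a :=
  ⟨hP.ne.symm, hP.dgt, hP.dgs, fun v hv h1 h2 => hP.inn v hv h2 h1, hP.con⟩

theorem IsPth.single {e : E} {a b : W} (ha : a ∈ D.inc e) (hb : b ∈ D.inc e) (hab : a ≠ b) :
    D.IsPth {e} a b where
  ne := hab
  dgs := by rw [dg_singleton, if_pos ha]
  dgt := by rw [dg_singleton, if_pos hb]
  inn := by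
    intro v hv h1 h2
    rw [VS_singleton] at hv
    rcases inc_cases ha hb hab hv with h | h
    · exact absurd h h1
    · exact absurd h h2
  con := by
    intro u hu v hv
    rw [VS_singleton] at hu hv
    exact Lk.edge (Finset.mem_singleton_self e) hu hv (Finset.notMem_empty _)
      (Finset.notMem_empty _)

/-- Concatenation of two paths with only the vertex `b` in common. -/
theorem IsPth.append {P Q : Finset E} {a b c : W} (hP : D.IsPth P a b) (hQ : D.IsPth Q b c)
    (h : ∀ v, v ∈ D.VS P → v ∈ D.VS Q → v = b) : Disjoint P Q ∧ D.IsPth (P ∪ Q) a c := by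
  have hd : Disjoint P Q := by
    rw [Finset.disjoint_left]
    intro e heP heQ
    obtain ⟨x, y, hxy, hinc⟩ := exists_end D e
    have hx : x ∈ D.inc e := by rw [hinc]; simp
    have hy : y ∈ D.inc e := by rw [hinc]; simp
    have h1 := h x (mem_VS.mpr ⟨e, heP, hx⟩) (mem_VS.mpr ⟨e, heQ, hx⟩)
    have h2 := h y (mem_VS.mpr ⟨e, heP, hy⟩) (mem_VS.mpr ⟨e, heQ, hy⟩)
    exact hxy (h1.trans h2.symm)
  have haQ : a ∉ D.VS Q := fun ha => hP.ne (h a hP.mem_left ha)
  have hcP : c ∉ D.VS P := fun hc => hQ.ne (h c hc hQ.mem_right).symm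
  refine ⟨hd, ⟨?_, ?_, ?_, ?_, ?_⟩⟩
  · rintro rfl
    exact haQ hQ.mem_right
  · rw [dg_union hd, hP.dgs, dg_eq_zero.mpr haQ]
  · rw [dg_union hd, hQ.dgt, dg_eq_zero.mpr hcP]
  · intro v hv h1 h2
    rw [dg_union hd]
    by_cases hb : v = b
    · rw [hb, hP.dgt, hQ.dgs]
    · rw [mem_VS_union] at hv
      rcases hv with hv | hv
      · have : v ∉ D.VS Q := fun h' => hb (h v hv h')
        rw [dg_eq_zero.mpr this, hP.inn v hv h1 hb]
      · have : v ∉ D.VS P := fun h' => hb (h v h' hv)
        rw [dg_eq_zero.mpr this, hQ.inn v hv hb h2]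
  · have key : ∀ v ∈ D.VS (P ∪ Q), D.Lk (P ∪ Q) ∅ v b := by
      intro v hv
      rw [mem_VS_union] at hv
      rcases hv with hv | hv
      · exact (hP.con v hv b hP.mem_right).mono Finset.subset_union_left (Finset.Subset.refl _)
      · exact (hQ.con v hv b hQ.mem_left).mono Finset.subset_union_right (Finset.Subset.refl _)
    intro u hu v hv
    exact (key u hu).trans (key v hv).symm

theorem dg_erase {P : Finset E} {e : E} (he : e ∈ P) (v : W) :
    D.dg (P.erase e) v + (if v ∈ D.inc e then 1 else 0) = D.dg P v := by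
  rw [← dg_singleton (D := D) e v, Finset.erase_eq]
  exact dg_sdiff (Finset.singleton_subset_iff.mpr he) v

/-- Erasing the end edge of a path. -/
theorem IsPth.erase_end {P : Finset E} {a b c : W} (hP : D.IsPth P a b) {e : E} (he : e ∈ P)
    (ha : a ∈ D.inc e) (hc : c ∈ D.inc e) (hac : a ≠ c) :
    (P = {e} ∧ c = b) ∨ (D.IsPth (P.erase e) c b ∧ a ∉ D.VS (P.erase e)) := by
  have haz : a ∉ D.VS (P.erase e) := by
    rw [← dg_eq_zero]
    have := dg_erase (D := D) he a
    rw [if_pos ha, hP.dgs] at this
    omega
  by_cases hcb : c = b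
  · left
    refine ⟨?_, hcb⟩
    subst hcb
    have hcz : c ∉ D.VS (P.erase e) := by
      rw [← dg_eq_zero]
      have := dg_erase (D := D) he c
      rw [if_pos hc, hP.dgt] at this
      omega
    have hemp : P.erase e = ∅ := by
      by_contra hne
      obtain ⟨w, hw⟩ := VS_nonempty (D := D) (Finset.nonempty_iff_ne_empty.mpr hne)
      have hwP : w ∈ D.VS P := VS_mono (Finset.erase_subset _ _) hw
      have hst : w = a ∨ w = c := by
        refine Lk.stay (fun w => w = a ∨ w = c) ?_ (hP.con a hP.mem_left w hwP) (Or.inl rfl)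
        intro x y f hf hx hy hxy _ _ hxac
        have hfe : f = e := by
          by_contra hfe
          have hxE : x ∈ D.VS (P.erase e) := mem_VS.mpr ⟨f, Finset.mem_erase.mpr ⟨hfe, hf⟩, hx⟩
          rcases hxac with rfl | rfl
          · exact haz hxE
          · exact hcz hxE
        subst hfe
        exact inc_cases ha hc hac hy
      rcases hst with rfl | rfl
      · exact haz hw
      · exact hcz hw
    rw [← Finset.insert_erase he, hemp]
    rfl
  · right
    refine ⟨⟨hcb, ?_, ?_, ?_, ?_⟩, haz⟩
    · have h1 := dg_erase (D := D) he c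
      rw [if_pos hc, hP.inn c (mem_VS.mpr ⟨e, he, hc⟩) hac.symm hcb] at h1
      omega
    · have h1 := dg_erase (D := D) he b
      have hb : b ∉ D.inc e := by
        intro hb
        rcases inc_cases ha hc hac hb with h | h
        · exact hP.ne h.symm
        · exact hcb h.symm
      rw [if_neg hb, hP.dgt] at h1
      omega
    · intro v hv h1 h2
      have hva : v ≠ a := fun h => haz (h ▸ hv)
      have h3 := dg_erase (D := D) he v
      have hve : v ∉ D.inc e := by
        intro h
        rcases inc_cases ha hc hac h with h | h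
        · exact hva h
        · exact h1 h
      rw [if_neg hve, hP.inn v (VS_mono (Finset.erase_subset _ _) hv) hva h2] at h3
      omega
    · have key : ∀ v ∈ D.VS (P.erase e), D.Lk (P.erase e) ∅ v b := by
        intro v hv
        have hva : v ≠ a := fun h => haz (h ▸ hv)
        rcases hP.esc a v (VS_mono (Finset.erase_subset _ _) hv) hva with h | h
        · exact absurd rfl h.1
        · refine (h.2.restrict (G := P.erase e) ?_).mono (Finset.Subset.refl _)
            (Finset.empty_subset _)
          intro f hf hfa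
          refine Finset.mem_erase.mpr ⟨?_, hf⟩
          rintro rfl
          exact hfa a ha (Finset.mem_singleton_self a)
      intro u hu v hv
      exact (key u hu).trans (key v hv).symm

/-- Splitting a path at an inner vertex. -/
theorem IsPth.split {P : Finset E} {a b z : W} (hP : D.IsPth P a b) (hz : z ∈ D.VS P)
    (hza : z ≠ a) (hzb : z ≠ b) : ∃ P1 P2, P1 ∪ P2 = P ∧ Disjoint P1 P2 ∧ D.IsPth P1 a z ∧
      D.IsPth P2 z b ∧ ∀ v, v ∈ D.VS P1 → v ∈ D.VS P2 → v = z := by
  induction hn : P.card using Nat.strong_induction_on generalizing P a with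
  | _ n ih =>
    obtain ⟨e, he, ha⟩ := mem_VS.mp hP.mem_left
    obtain ⟨c, hac, hinc⟩ := exists_other ha
    have hc : c ∈ D.inc e := by rw [hinc]; simp
    rcases hP.erase_end he ha hc hac with ⟨h1, h2⟩ | ⟨h1, h2⟩
    · subst h2
      rw [h1, VS_singleton] at hz
      rcases inc_cases ha hc hac hz with h | h
      · exact absurd h hza
      · exact absurd h hzb
    · by_cases hzc : z = c
      · subst hzc
        refine ⟨{e}, P.erase e, ?_, ?_, IsPth.single ha hc hac, h1, ?_⟩
        · rw [← Finset.insert_eq, Finset.insert_erase he]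
        · rw [Finset.disjoint_singleton_left]
          exact Finset.notMem_erase e P
        · intro v hv hv'
          rw [VS_singleton] at hv
          rcases inc_cases ha hc hac hv with h | h
          · exact absurd (h ▸ hv') h2
          · exact h
      · have hz' : z ∈ D.VS (P.erase e) := by
          obtain ⟨f, hf, hzf⟩ := mem_VS.mp hz
          refine mem_VS.mpr ⟨f, Finset.mem_erase.mpr ⟨?_, hf⟩, hzf⟩
          rintro rfl
          rcases inc_cases ha hc hac hzf with h | h
          · exact hza h
          · exact hzc h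
        obtain ⟨P1, P2, hu, hd, hP1, hP2, hcom⟩ :=
          ih (P.erase e).card (by rw [← hn]; exact Finset.card_erase_lt_of_mem he) h1 hz' hzc rfl
        have hP1s : P1 ⊆ P.erase e := by rw [← hu]; exact Finset.subset_union_left
        have hP2s : P2 ⊆ P.erase e := by rw [← hu]; exact Finset.subset_union_right
        obtain ⟨hd1, hap⟩ := (IsPth.single ha hc hac).append hP1 (by
          intro v hv hv'
          rw [VS_singleton] at hv
          rcases inc_cases ha hc hac hv with h | h
          · subst h
            exact absurd (VS_mono hP1s hv') h2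
          · exact h)
        refine ⟨{e} ∪ P1, P2, ?_, ?_, hap, hP2, ?_⟩
        · rw [Finset.union_assoc, hu, ← Finset.insert_eq, Finset.insert_erase he]
        · rw [Finset.disjoint_union_left]
          refine ⟨?_, hd⟩
          rw [Finset.disjoint_singleton_left]
          intro h
          exact Finset.notMem_erase e P (hP2s h)
        · intro v hv hv'
          rw [mem_VS_union, VS_singleton] at hv
          rcases hv with hv | hv
          · rcases inc_cases ha hc hac hv with h | h
            · subst h
              exact absurd (VS_mono hP2s hv') h2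
            · subst h
              exact hcom _ hP1.mem_left hv'
          · exact hcom v hv hv'

/-- A link contains a path. -/
theorem Lk.exists_path {F : Finset E} {A : Finset W} {u v : W} (h : D.Lk F A u v) (hne : u ≠ v) :
    ∃ P, P ⊆ F ∧ D.IsPth P u v ∧ ∀ w ∈ D.VS P, w ∉ A := by
  have key : u = v ∨ ∃ P, P ⊆ F ∧ D.IsPth P u v ∧ ∀ w ∈ D.VS P, w ∉ A := by
    refine Lk.stay (fun v => u = v ∨ ∃ P, P ⊆ F ∧ D.IsPth P u v ∧ ∀ w ∈ D.VS P, w ∉ A) ?_ h
      (Or.inl rfl)
    intro y z e he hy hz hyz hyA hzA hPr
    by_cases huz : u = z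
    · exact Or.inl huz
    right
    have hinc : ∀ w ∈ D.VS {e}, w ∉ A := by
      intro w hw
      rw [VS_singleton] at hw
      rcases inc_cases hy hz hyz hw with rfl | rfl
      · exact hyA
      · exact hzA
    rcases hPr with rfl | ⟨P, hPF, hP, hPA⟩
    · exact ⟨{e}, Finset.singleton_subset_iff.mpr he, IsPth.single hy hz hyz, hinc⟩
    · by_cases hzP : z ∈ D.VS P
      · obtain ⟨P1, P2, hu, _, hP1, _, _⟩ := hP.split hzP (fun h => huz h.symm) (fun h => hyz h.symm)
        have hs : P1 ⊆ P := by rw [← hu]; exact Finset.subset_union_left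
        exact ⟨P1, hs.trans hPF, hP1, fun w hw => hPA w (VS_mono hs hw)⟩
      · obtain ⟨_, hap⟩ := hP.append (IsPth.single hy hz hyz) (by
          intro v hv hv'
          rw [VS_singleton] at hv'
          rcases inc_cases hy hz hyz hv' with h | h
          · exact h
          · subst h
            exact absurd hv hzP)
        refine ⟨P ∪ {e}, Finset.union_subset hPF (Finset.singleton_subset_iff.mpr he), hap, ?_⟩
        intro w hw
        rw [mem_VS_union] at hw
        rcases hw with hw | hw
        · exact hPA w hw
        · exact hinc w hw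
  rcases key with h | h
  · exact absurd h hne
  · exact h

end BDu
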