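import Pool.Agent.Helper48.BDu.PT1
import Pool.Agent.Helper48.BDu.TWO

/-!
# BOND, dual side, module PT2: paths and circuits
-/

set_option autoImplicit false
set_option linter.unusedSectionVars false

namespace BDu

variable {W E : Type} [DecidableEq W] [DecidableEq E] {D : BDu W E}

theorem IsPth.pt2_ma {P : Finset E} {a b : W} (hP : D.IsPth P a b) : a ∈ D.VS P := by
  rw [← dg_pos, hP.dgs]
  exact Nat.one_pos

theorem IsPth.pt2_mb {P : Finset E} {a b : W} (hP : D.IsPth P a b) : b ∈ D.VS P := by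
  rw [← dg_pos, hP.dgt]
  exact Nat.one_pos

theorem IsPth.pt2_ne {P : Finset E} {a b : W} (hP : D.IsPth P a b) : P.Nonempty := by
  obtain ⟨e, he, _⟩ := mem_VS.mp hP.pt2_ma
  exact ⟨e, he⟩

/-- Two paths with the same ends and nothing else in common form a circuit. -/
theorem IsPth.glue {P Q : Finset E} {a b : W} (hP : D.IsPth P a b) (hQ : D.IsPth Q a b)
    (hd : Disjoint P Q) (h : ∀ v, v ∈ D.VS P → v ∈ D.VS Q → v = a ∨ v = b) :
    D.IsCirc (P ∪ Q) := by
  have key : ∀ v ∈ D.VS (P ∪ Q), D.Lk (P ∪ Q) ∅ v a := by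
    intro v hv
    rcases mem_VS_union.mp hv with hv | hv
    · exact (hP.con v hv a hP.pt2_ma).mono Finset.subset_union_left (Finset.Subset.refl _)
    · exact (hQ.con v hv a hQ.pt2_ma).mono Finset.subset_union_right (Finset.Subset.refl _)
  refine ⟨hP.pt2_ne.mono Finset.subset_union_left, ?_, fun u hu v hv =>
    (key u hu).trans (key v hv).symm⟩
  intro v hv
  rw [dg_union hd]
  by_cases hva : v = a
  · rw [hva, hP.dgs, hQ.dgs]
  by_cases hvb : v = b
  · rw [hvb, hP.dgt, hQ.dgt]
  rcases mem_VS_union.mp hv with hv | hv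
  · have : v ∉ D.VS Q := fun hv' => by
      rcases h v hv hv' with h | h
      · exact hva h
      · exact hvb h
    rw [hP.inn v hv hva hvb, dg_eq_zero.mpr this]
  · have : v ∉ D.VS P := fun hv' => by
      rcases h v hv' hv with h | h
      · exact hva h
      · exact hvb h
    rw [hQ.inn v hv hva hvb, dg_eq_zero.mpr this]

/-- The complement of a path in a circuit. -/
theorem IsCirc.compl_path {C P : Finset E} {a b : W} (hC : D.IsCirc C) (hP : D.IsPth P a b)
    (hPC : P ⊆ C) : D.IsPth (C \ P) a b ∧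
      ∀ v, v ∈ D.VS P → v ∈ D.VS (C \ P) → v = a ∨ v = b := by
  classical
  have hsd := fun v => dg_sdiff (D := D) hPC v
  have hCv : ∀ v ∈ D.VS P, D.dg C v = 2 := fun v hv => hC.2.1 v (VS_mono hPC hv)
  have hcommon : ∀ v, v ∈ D.VS P → v ∈ D.VS (C \ P) → v = a ∨ v = b := by
    intro v hv hv'
    by_contra hc
    push Not at hc
    have h1 := hP.inn v hv hc.1 hc.2
    have h2 := hsd v
    rw [hCv v hv, h1] at h2
    have h3 := dg_pos.mpr hv'
    omega
  have hda : D.dg (C \ P) a = 1 := by
    have h2 := hsd a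
    rw [hCv a hP.pt2_ma, hP.dgs] at h2
    omega
  have hdb : D.dg (C \ P) b = 1 := by
    have h2 := hsd b
    rw [hCv b hP.pt2_mb, hP.dgt] at h2
    omega
  have hdin : ∀ v ∈ D.VS (C \ P), v ≠ a → v ≠ b → D.dg (C \ P) v = 2 ∧ v ∉ D.VS P := by
    intro v hv hva hvb
    have h1 : v ∉ D.VS P := fun h => by
      rcases hcommon v h hv with h | h
      · exact hva h
      · exact hvb h
    have h2 := hsd v
    rw [dg_eq_zero.mpr h1, add_zero, hC.2.1 v (VS_mono Finset.sdiff_subset hv)] at h2
    exact ⟨h2, h1⟩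
  have key : ∀ v ∈ D.VS (C \ P), D.Lk (C \ P) ∅ v a := by
    intro v hv
    by_contra hna
    set K : Finset W := (D.VS (C \ P)).filter fun w => D.Lk (C \ P) ∅ v w with hK
    have hvK : v ∈ K := Finset.mem_filter.mpr ⟨hv, Lk.refl _ _ _⟩
    have haK : a ∉ K := fun h => hna (Finset.mem_filter.mp h).2
    have hclosed : ∀ e ∈ C \ P, ∀ x ∈ D.inc e, ∀ y ∈ D.inc e, x ∈ K → y ∈ K := by
      intro e he x hx y hy hxK
      refine Finset.mem_filter.mpr ⟨mem_VS.mpr ⟨e, he, hy⟩, ?_⟩
      exact (Finset.mem_filter.mp hxK).2.trans (Lk.edge he hx hy (by simp) (by simp))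
    have heven : Even (∑ w ∈ K, D.dg (C \ P) w) := by
      rw [sum_dg]
      refine Finset.even_sum _ fun e he => ?_
      by_cases h : ∃ x ∈ D.inc e, x ∈ K
      · obtain ⟨x, hx, hxK⟩ := h
        have h1 : D.inc e ∩ K = D.inc e := by
          rw [Finset.inter_eq_left]
          intro y hy
          exact hclosed e he x hx y hy hxK
        rw [h1, D.two e]
        exact even_two
      · push Not at h
        have h1 : D.inc e ∩ K = ∅ := by
          rw [Finset.eq_empty_iff_forall_notMem]
          intro y hy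
          exact h y (Finset.mem_inter.mp hy).1 (Finset.mem_inter.mp hy).2
        rw [h1, Finset.card_empty]
        exact Even.zero
    by_cases hbK : b ∈ K
    · -- parity
      have h1 : ∑ w ∈ K, D.dg (C \ P) w = 1 + ∑ w ∈ K.erase b, 2 := by
        rw [← Finset.add_sum_erase K _ hbK, hdb]
        congr 1
        refine Finset.sum_congr rfl fun w hw => ?_
        have hw' := Finset.mem_erase.mp hw
        refine (hdin w (Finset.mem_filter.mp hw'.2).1 ?_ hw'.1).1
        rintro rfl
        exact haK hw'.2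
      rw [h1, Finset.sum_const, smul_eq_mul] at heven
      obtain ⟨k, hk⟩ := heven
      omega
    · -- closed in the circuit
      have haC : a ∈ D.VS C := VS_mono hPC hP.pt2_ma
      have hvC : v ∈ D.VS C := VS_mono Finset.sdiff_subset hv
      have h1 := hC.2.2 v hvC a haC
      have h2 : a ∈ K := by
        refine Lk.stay (fun w => w ∈ K) ?_ h1 hvK
        intro x y e he hx hy _ _ _ hxK
        have hxR := (Finset.mem_filter.mp hxK).1
        have hxP := (hdin x hxR (fun h => haK (h ▸ hxK)) (fun h => hbK (h ▸ hxK))).2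
        have heP : e ∉ P := fun h => hxP (mem_VS.mpr ⟨e, h, hx⟩)
        exact hclosed e (Finset.mem_sdiff.mpr ⟨he, heP⟩) x hx y hy hxK
      exact haK h2
  exact ⟨⟨hP.ne, hda, hdb, fun v hv h1 h2 => (hdin v hv h1 h2).1, fun u hu v hv =>
    (key u hu).trans (key v hv).symm⟩, hcommon⟩

/-- Two vertices of a circuit split it into two paths. -/
theorem IsCirc.split {C : Finset E} (hC : D.IsCirc C) {a b : W} (ha : a ∈ D.VS C)
    (hb : b ∈ D.VS C) (hab : a ≠ b) : ∃ P Q, P ∪ Q = C ∧ Disjoint P Q ∧ D.IsPth P a b ∧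
      D.IsPth Q a b ∧ ∀ v, v ∈ D.VS P → v ∈ D.VS Q → v = a ∨ v = b := by
  obtain ⟨P, hPC, hP, _⟩ := Lk.exists_path (hC.2.2 a ha b hb) hab
  obtain ⟨h1, h2⟩ := hC.compl_path hP hPC
  exact ⟨P, C \ P, Finset.union_sdiff_of_subset hPC, Finset.disjoint_sdiff, hP, h1, h2⟩

/-- Every edge of a two-connected set is on a circuit. -/
theorem TwoC.exists_circ {F : Finset E} (hF : D.TwoC F) {e : E} (he : e ∈ F) :
    ∃ C, C ⊆ F ∧ D.IsCirc C ∧ e ∈ C := by
  obtain ⟨u, v, huv, hi⟩ := exists_end D e
  have hu : u ∈ D.inc e := by rw [hi]; simp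
  have hv : v ∈ D.inc e := by rw [hi]; simp
  obtain ⟨P, hPF, hP, _⟩ := Lk.exists_path (hF.no_bridge he hu hv) huv
  have heP : e ∉ P := fun h => (Finset.mem_erase.mp (hPF h)).1 rfl
  have hS := IsPth.single hu hv huv
  refine ⟨P ∪ {e}, ?_, hP.glue hS (Finset.disjoint_singleton_right.mpr heP) ?_, by simp⟩
  · intro g hg
    rcases Finset.mem_union.mp hg with hg | hg
    · exact (Finset.mem_erase.mp (hPF hg)).2
    · rw [Finset.mem_singleton.mp hg]
      exact he
  · intro w _ hw
    rw [VS_singleton, hi] at hw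
    simpa using hw

/-- Segments of a circuit between consecutive marked vertices. -/
theorem IsCirc.seg {C : Finset E} (hC : D.IsCirc C) (M : Finset W) {a₀ b₀ : W}
    (ha₀ : a₀ ∈ D.VS C) (hb₀ : b₀ ∈ D.VS C) (haM : a₀ ∈ M) (hbM : b₀ ∈ M) (hab : a₀ ≠ b₀)
    {e : E} (he : e ∈ C) : ∃ P Q a b, P ∪ Q = C ∧ Disjoint P Q ∧ D.IsPth P a b ∧ D.IsPth Q a b ∧
      (∀ v, v ∈ D.VS P → v ∈ D.VS Q → v = a ∨ v = b) ∧ e ∈ P ∧ a ∈ M ∧ b ∈ M ∧
      ∀ v ∈ D.VS P, v ≠ a → v ≠ b → v ∉ M := by
  have key : ∀ n : ℕ, ∀ (P Q : Finset E) (a b : W), P.card = n → P ∪ Q = C → Disjoint P Q →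
      D.IsPth P a b → D.IsPth Q a b → (∀ v, v ∈ D.VS P → v ∈ D.VS Q → v = a ∨ v = b) → e ∈ P →
      a ∈ M → b ∈ M → ∃ P Q a b, P ∪ Q = C ∧ Disjoint P Q ∧ D.IsPth P a b ∧ D.IsPth Q a b ∧
      (∀ v, v ∈ D.VS P → v ∈ D.VS Q → v = a ∨ v = b) ∧ e ∈ P ∧ a ∈ M ∧ b ∈ M ∧
      ∀ v ∈ D.VS P, v ≠ a → v ≠ b → v ∉ M := by
    intro n
    induction n using Nat.strong_induction_on with
    | _ n ih =>
      intro P Q a b hn hu hd hP hQ hc heP hMa hMb
      by_cases hz : ∃ z ∈ D.VS P, z ≠ a ∧ z ≠ b ∧ z ∈ M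
      · obtain ⟨z, hzP, hza, hzb, hzM⟩ := hz
        obtain ⟨P1, P2, h1, h2, h3, h4, h5⟩ := hP.split hzP hza hzb
        have hP1 : P1 ⊆ P := h1 ▸ Finset.subset_union_left
        have hP2 : P2 ⊆ P := h1 ▸ Finset.subset_union_right
        have hcard : P1.card + P2.card = P.card := by
          rw [← Finset.card_union_of_disjoint h2, h1]
        have hc1 : 0 < P1.card := Finset.card_pos.mpr h3.pt2_ne
        have hc2 : 0 < P2.card := Finset.card_pos.mpr h4.pt2_ne
        have haP2 : a ∉ D.VS P2 := fun h => hza (h5 a h3.pt2_ma h).symm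
        have hbP1 : b ∉ D.VS P1 := fun h => hzb (h5 b h h4.pt2_mb).symm
        rw [← h1] at heP
        rcases Finset.mem_union.mp heP with heP | heP
        · have hap := IsPth.append h4 hQ.symm (fun v hv hv' => by
            rcases hc v (VS_mono hP2 hv) hv' with h | h
            · rw [h] at hv
              exact absurd hv haP2
            · exact h)
          refine ih P1.card (by omega) P1 (P2 ∪ Q) a z rfl ?_ ?_ h3 hap.2.symm ?_ heP hMa hzM
          · rw [← Finset.union_assoc, h1, hu]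
          · rw [Finset.disjoint_union_right]
            exact ⟨h2, Finset.disjoint_of_subset_left hP1 hd⟩
          · intro v hv hv'
            rcases mem_VS_union.mp hv' with hv' | hv'
            · exact Or.inr (h5 v hv hv')
            · rcases hc v (VS_mono hP1 hv) hv' with h | h
              · exact Or.inl h
              · rw [h] at hv
                exact absurd hv hbP1
        · have hap := IsPth.append hQ.symm h3 (fun v hv hv' => by
            rcases hc v (VS_mono hP1 hv') hv with h | h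
            · exact h
            · rw [h] at hv'
              exact absurd hv' hbP1)
          refine ih P2.card (by omega) P2 (Q ∪ P1) z b rfl ?_ ?_ h4 hap.2.symm ?_ heP hzM hMb
          · rw [Finset.union_comm Q P1, ← Finset.union_assoc, Finset.union_comm P2 P1, h1, hu]
          · rw [Finset.disjoint_union_right]
            exact ⟨Finset.disjoint_of_subset_left hP2 hd, h2.symm⟩
          · intro v hv hv'
            rcases mem_VS_union.mp hv' with hv' | hv'
            · rcases hc v (VS_mono hP2 hv) hv' with h | h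
              · rw [h] at hv
                exact absurd hv haP2
              · exact Or.inr h
            · exact Or.inl (h5 v hv' hv)
      · push Not at hz
        exact ⟨P, Q, a, b, hu, hd, hP, hQ, hc, heP, hMa, hMb, hz⟩
  obtain ⟨P, Q, h1, h2, h3, h4, h5⟩ := hC.split ha₀ hb₀ hab
  rw [← h1] at he
  rcases Finset.mem_union.mp he with he | he
  · exact key P.card P Q a₀ b₀ rfl h1 h2 h3 h4 h5 he haM hbM
  · exact key Q.card Q P a₀ b₀ rfl (by rw [Finset.union_comm, h1]) h2.symm h4 h3
      (fun v hv hv' => h5 v hv' hv) he haM hbM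

end BDu
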