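import Pool.Agent.Helper48.BDu.TRM
import Pool.Agent.Helper48.BDu.WT2

/-!
# BOND, dual side, module SPC: closing the sides of a separation
-/

set_option autoImplicit false
set_option linter.unusedSectionVars false

namespace BDu

variable {W E : Type} [DecidableEq W] [DecidableEq E] {D : BDu W E}
variable [Fintype E]

theorem pv_clo {p : E → ℕ} {F P : Finset E} (hd : Disjoint F P) (k : ℕ) (v : W) :
    D.pv (clo p F P k) v = D.pv (clo p F ∅ 0) v + k * D.dg P v := by
  rw [pv_eq_sum, pv_eq_sum, dg_eq_sum, Finset.mul_sum, ← Finset.sum_add_distrib]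
  refine Finset.sum_congr rfl fun e _ => ?_
  by_cases hv : v ∈ D.inc e
  · by_cases hF : e ∈ F
    · have hP : e ∉ P := Finset.disjoint_left.mp hd hF
      simp [clo, hv, hF, hP]
    · by_cases hP : e ∈ P <;> simp [clo, hv, hF, hP]
  · simp [hv]

theorem supp_clo {p : E → ℕ} {F P : Finset E} (hF : F ⊆ supp p) {k : ℕ} (hk : k ≠ 0) :
    supp (clo p F P k) = F ∪ P := by
  ext e
  rw [mem_supp, Finset.mem_union]
  by_cases h1 : e ∈ F
  · have := mem_supp.mp (hF h1)
    simp [clo, h1, this]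
  · by_cases h2 : e ∈ P <;> simp [clo, h1, h2, hk]

/-- The weight of a vertex is split over the two sides. -/
theorem Sep.pv_eq {p : E → ℕ} {E1 E2 : Finset E} {a b : W} (hs : D.Sep (supp p) E1 E2 a b)
    (v : W) : D.pv p v = D.pv (clo p E1 ∅ 0) v + D.pv (clo p E2 ∅ 0) v := by
  rw [pv_eq_sum, pv_eq_sum, pv_eq_sum, ← Finset.sum_add_distrib]
  refine Finset.sum_congr rfl fun e _ => ?_
  by_cases hv : v ∈ D.inc e
  · by_cases h1 : e ∈ E1
    · have h2 : e ∉ E2 := Finset.disjoint_left.mp hs.dis h1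
      simp [clo, hv, h1, h2]
    · by_cases h2 : e ∈ E2
      · simp [clo, hv, h1, h2]
      · have h3 : p e = 0 := by
          by_contra h
          have := mem_supp.mpr h
          rw [← hs.un, Finset.mem_union] at this
          exact this.elim h1 h2
        simp [clo, hv, h1, h2, h3]
  · simp [hv]

private theorem Sep.term1 {S E1 E2 : Finset E} {a b : W} (hS : D.TwoC S)
    (hs : D.Sep S E1 E2 a b) : D.Term E1 a b :=
  TwoC.term (F := E1) (G := E2) (by rw [hs.un]; exact hS) hs.ne hs.vs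

private theorem Sep.term2 {S E1 E2 : Finset E} {a b : W} (hS : D.TwoC S)
    (hs : D.Sep S E1 E2 a b) : D.Term E2 a b :=
  TwoC.term (F := E2) (G := E1) (by rw [Finset.union_comm, hs.un]; exact hS) hs.ne
    (by rw [Finset.inter_comm]; exact hs.vs)

/-- Closing a side of a separation by a path through the other side. -/
theorem Sep.close {S E1 E2 P1 : Finset E} {a b : W} (hS : D.TwoC S) (hs : D.Sep S E1 E2 a b)
    (hP1 : D.IsPth P1 a b) (hP1E : P1 ⊆ E1) : D.TwoC (E2 ∪ P1) ∧ (E2 ∪ P1).card < S.card ∧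
      E2 ∪ P1 ⊆ S ∧ (∀ v ∈ D.VS P1, v ≠ a → v ≠ b → D.dg (E2 ∪ P1) v = 2 ∧ v ∉ D.VS E2) ∧
      Disjoint E2 P1 := by
  have hd : Disjoint E2 P1 := (hs.dis.mono_left hP1E).symm
  have hcom : ∀ v, v ∈ D.VS E2 → v ∈ D.VS P1 → v = a ∨ v = b := by
    intro v h1 h2
    have : v ∈ D.VS E1 ∩ D.VS E2 := Finset.mem_inter.mpr ⟨VS_mono hP1E h2, h1⟩
    rw [hs.vs] at this
    simpa using this
  have hsub : E2 ∪ P1 ⊆ S := by
    rw [← hs.un]
    exact Finset.union_subset Finset.subset_union_right (hP1E.trans Finset.subset_union_left)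
  refine ⟨Term.twoC (hs.term2 hS) hP1.term hd hcom, ?_, hsub, ?_, hd⟩
  · have h1 : P1 ⊂ E1 := by
      refine Finset.ssubset_iff_subset_ne.mpr ⟨hP1E, ?_⟩
      rintro rfl
      exact hs.np1 hP1
    have h2 := Finset.card_lt_card h1
    rw [Finset.card_union_of_disjoint hd, ← hs.un, Finset.card_union_of_disjoint hs.dis]
    omega
  · intro v hv hva hvb
    have h1 : v ∉ D.VS E2 := fun h => (hcom v h hv).elim hva hvb
    refine ⟨?_, h1⟩
    rw [dg_union hd, dg_eq_zero.mpr h1, hP1.inn v hv hva hvb]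

theorem Sep.exists_path {S E1 E2 : Finset E} {a b : W} (hS : D.TwoC S)
    (hs : D.Sep S E1 E2 a b) : ∃ P1, D.IsPth P1 a b ∧ P1 ⊆ E1 := by
  obtain ⟨P, h1, h2⟩ := (hs.term1 hS).exists_path
  exact ⟨P, h2, h1⟩

end BDu
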