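import Pool.Agent.Helper48.BDu.TRM

/-!
# BOND, dual side, module SPM: a minimal 2-separation
-/

set_option autoImplicit false
set_option linter.unusedSectionVars false

namespace BDu

variable {W E : Type} [DecidableEq W] [DecidableEq E] {D : BDu W E}

theorem Sep.symm {S E1 E2 : Finset E} {a b : W} (h : D.Sep S E1 E2 a b) :
    D.Sep S E2 E1 a b where
  un := by rw [Finset.union_comm]; exact h.un
  dis := h.dis.symm
  ne := h.ne
  vs := by rw [Finset.inter_comm]; exact h.vs
  np1 := h.np2
  np2 := h.np1

theorem Sep.spm_swap {S E1 E2 : Finset E} {a b : W} (h : D.Sep S E1 E2 a b) :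
    D.Sep S E1 E2 b a where
  un := h.un
  dis := h.dis
  ne := h.ne.symm
  vs := by rw [Finset.pair_comm]; exact h.vs
  np1 := fun h' => h.np1 h'.symm
  np2 := fun h' => h.np2 h'.symm

/-- one end of a minimal 2-separation has degree at least two in the second side. -/
theorem Sep.spm_two {S E1 E2 : Finset E} {a b : W} (hS : D.TwoC S) (h : D.Sep S E1 E2 a b)
    (hmin : ∀ E1' E2' a' b', D.Sep S E1' E2' a' b' → E2' ⊆ E2 → E2.card ≤ E2'.card) :
    2 ≤ D.dg E2 a := by
  by_contra hlt
  have haV : a ∈ D.VS E1 ∩ D.VS E2 := by rw [h.vs]; simp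
  have hbV : b ∈ D.VS E1 ∩ D.VS E2 := by rw [h.vs]; simp
  rw [Finset.mem_inter] at haV hbV
  have hpos := dg_pos.mpr haV.2
  have hdg : D.dg E2 a = 1 := by omega
  obtain ⟨r, hr, har⟩ := mem_VS.mp haV.2
  obtain ⟨a', haa', hinc⟩ := exists_other har
  have ha'r : a' ∈ D.inc r := by rw [hinc]; simp
  -- `a` is not a vertex of the rest
  have haz : a ∉ D.VS (E2.erase r) := by
    rw [← dg_eq_zero]
    have := dg_erase (D := D) hr a
    rw [if_pos har, hdg] at this
    omega
  have hrE1 : r ∉ E1 := fun h1 => Finset.disjoint_left.mp h.dis h1 hr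
  by_cases hab : a' = b
  · subst hab
    -- the rest is nonempty
    have hne : (E2.erase r).Nonempty := by
      rw [Finset.nonempty_iff_ne_empty]
      intro h0
      have : E2 = {r} := by rw [← Finset.insert_erase hr, h0]; rfl
      apply h.np2
      rw [this]
      exact IsPth.single har ha'r haa'
    have hsub : E2.erase r ⊆ S := by
      rw [← h.un]
      exact (Finset.erase_subset _ _).trans Finset.subset_union_right
    have hrS : r ∈ S \ E2.erase r := by
      rw [Finset.mem_sdiff, ← h.un]
      exact ⟨Finset.mem_union_right _ hr, Finset.notMem_erase r E2⟩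
    have h2 := hS.attach hsub hne ⟨r, hrS⟩
    have h3 : D.VS (E2.erase r) ∩ D.VS (S \ E2.erase r) ⊆ {a'} := by
      intro v hv
      rw [Finset.mem_inter] at hv
      obtain ⟨hv1, hv2⟩ := hv
      have hva : v ≠ a := fun h' => haz (h' ▸ hv1)
      obtain ⟨f, hf, hvf⟩ := mem_VS.mp hv2
      rw [Finset.mem_sdiff, ← h.un, Finset.mem_union] at hf
      rw [Finset.mem_singleton]
      rcases hf with ⟨hf1 | hf1, hf2⟩
      · have : v ∈ D.VS E1 ∩ D.VS E2 := Finset.mem_inter.mpr
          ⟨mem_VS.mpr ⟨f, hf1, hvf⟩, VS_mono (Finset.erase_subset _ _) hv1⟩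
        rw [h.vs, Finset.mem_insert, Finset.mem_singleton] at this
        rcases this with h' | h'
        · exact absurd h' hva
        · exact h'
      · have hfr : f = r := by
          by_contra hne'
          exact hf2 (Finset.mem_erase.mpr ⟨hne', hf1⟩)
        subst hfr
        rcases inc_cases har ha'r haa' hvf with h' | h'
        · exact absurd h' hva
        · exact h'
    have h4 := Finset.card_le_card h3
    rw [Finset.card_singleton] at h4
    omega
  · -- shift the separation
    have ha'1 : a' ∉ D.VS E1 := by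
      intro h1
      have : a' ∈ D.VS E1 ∩ D.VS E2 := Finset.mem_inter.mpr ⟨h1, mem_VS.mpr ⟨r, hr, ha'r⟩⟩
      rw [h.vs, Finset.mem_insert, Finset.mem_singleton] at this
      rcases this with h' | h'
      · exact haa' h'.symm
      · exact hab h'
    have hbr : b ∉ D.inc r := by
      intro hb
      rcases inc_cases har ha'r haa' hb with h' | h'
      · exact h.ne h'.symm
      · exact hab h'.symm
    have ha'2 : a' ∈ D.VS (E2.erase r) := by
      have hS2 : a' ∈ D.VS S := by
        rw [← h.un]
        exact mem_VS_union.mpr (Or.inr (mem_VS.mpr ⟨r, hr, ha'r⟩))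
      have h1 := hS.two_le_dg hS2
      rw [← h.un, dg_union h.dis, dg_eq_zero.mpr ha'1] at h1
      have h2 := dg_erase (D := D) hr a'
      rw [if_pos ha'r] at h2
      rw [← dg_pos]
      omega
    have hb2 : b ∈ D.VS (E2.erase r) := by
      obtain ⟨f, hf, hbf⟩ := mem_VS.mp hbV.2
      refine mem_VS.mpr ⟨f, Finset.mem_erase.mpr ⟨?_, hf⟩, hbf⟩
      rintro rfl
      exact hbr hbf
    have hsep : D.Sep S (insert r E1) (E2.erase r) a' b := by
      refine ⟨?_, ?_, hab, ?_, ?_, ?_⟩
      · rw [← h.un]
        ext e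
        simp only [Finset.mem_union, Finset.mem_insert, Finset.mem_erase]
        constructor
        · rintro ((rfl | h1) | h1)
          · exact Or.inr hr
          · exact Or.inl h1
          · exact Or.inr h1.2
        · rintro (h1 | h1)
          · exact Or.inl (Or.inr h1)
          · by_cases her : e = r
            · exact Or.inl (Or.inl her)
            · exact Or.inr ⟨her, h1⟩
      · rw [Finset.disjoint_left]
        intro e he he'
        rw [Finset.mem_insert] at he
        rw [Finset.mem_erase] at he'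
        rcases he with rfl | he
        · exact he'.1 rfl
        · exact Finset.disjoint_left.mp h.dis he he'.2
      · ext v
        rw [Finset.mem_inter, Finset.mem_insert, Finset.mem_singleton]
        constructor
        · rintro ⟨h1, h2⟩
          obtain ⟨f, hf, hvf⟩ := mem_VS.mp h1
          rw [Finset.mem_insert] at hf
          rcases hf with rfl | hf
          · rcases inc_cases har ha'r haa' hvf with h' | h'
            · exact absurd (h' ▸ h2) haz
            · exact Or.inl h'
          · have : v ∈ D.VS E1 ∩ D.VS E2 := Finset.mem_inter.mpr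
              ⟨mem_VS.mpr ⟨f, hf, hvf⟩, VS_mono (Finset.erase_subset _ _) h2⟩
            rw [h.vs, Finset.mem_insert, Finset.mem_singleton] at this
            rcases this with h' | h'
            · exact absurd (h' ▸ h2) haz
            · exact Or.inr h'
        · rintro (rfl | rfl)
          · exact ⟨mem_VS.mpr ⟨r, Finset.mem_insert_self _ _, ha'r⟩, ha'2⟩
          · exact ⟨VS_mono (Finset.subset_insert _ _) hbV.1, hb2⟩
      · intro hP
        rcases hP.erase_end (Finset.mem_insert_self r E1) ha'r har haa'.symm with ⟨_, h2⟩ | ⟨h2, _⟩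
        · exact h.ne h2
        · rw [Finset.erase_insert hrE1] at h2
          exact h.np1 h2
      · intro hP
        have h1 := IsPth.append (IsPth.single har ha'r haa') hP (by
          intro v hv hv'
          rw [VS_singleton] at hv
          rcases inc_cases har ha'r haa' hv with h' | h'
          · exact absurd (h' ▸ hv') haz
          · exact h')
        have h2 : {r} ∪ E2.erase r = E2 := by
          rw [← Finset.insert_eq, Finset.insert_erase hr]
        rw [h2] at h1
        exact h.np2 h1.2
    have h5 := hmin _ _ _ _ hsep (Finset.erase_subset _ _)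
    rw [Finset.card_erase_of_mem hr] at h5
    have h6 : 0 < E2.card := Finset.card_pos.mpr ⟨r, hr⟩
    omega

theorem Sep.minimal {S : Finset E} (hS : D.TwoC S) (Q : Finset E → Prop)
    (hQ : ∀ A B, A ⊆ B → Q B → Q A) (h : ∃ E1 E2 a b, D.Sep S E1 E2 a b ∧ Q E2) :
    ∃ E1 E2 a b, D.Sep S E1 E2 a b ∧ Q E2 ∧ 2 ≤ D.dg E2 a ∧ 2 ≤ D.dg E2 b := by
  classical
  have hex : ∃ n, ∃ E1 E2 a b, D.Sep S E1 E2 a b ∧ Q E2 ∧ E2.card = n := by
    obtain ⟨E1, E2, a, b, h1, h2⟩ := h
    exact ⟨_, E1, E2, a, b, h1, h2, rfl⟩
  obtain ⟨E1, E2, a, b, h1, h2, h3⟩ := Nat.find_spec hex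
  have hmin : ∀ E1' E2' a' b', D.Sep S E1' E2' a' b' → E2' ⊆ E2 → E2.card ≤ E2'.card := by
    intro E1' E2' a' b' h' hsub
    rw [h3]
    exact Nat.find_min' hex ⟨E1', E2', a', b', h', hQ _ _ hsub h2, rfl⟩
  exact ⟨E1, E2, a, b, h1, h2, h1.spm_two hS hmin, h1.spm_swap.spm_two hS hmin⟩

end BDu
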