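import Pool.Agent.Helper48.BDu.EVN
import Pool.Agent.Helper48.BDu.DEL
import Pool.Agent.Helper48.BDu.THR

/-!
# BOND, dual side, module UOD: unrooted existence
-/

set_option autoImplicit false
set_option linter.unusedSectionVars false

namespace BDu

variable {W E : Type} [DecidableEq W] [DecidableEq E] {D : BDu W E}
variable [Fintype E]

/-- Unrooted existence from the induction hypothesis (no vertex of weight 3). -/
theorem unrooted {S₀ : Finset E} (hcov : D.COVE S₀) {p : E → ℕ} (hp : D.Adm p)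
    (hS₀ : supp p ⊆ S₀) (hT : D.TC (supp p)) (h3 : ∀ v, D.pv p v ≠ 3)
    (ih : ∀ q : E → ℕ, supp q ⊆ supp p → (supp q).card < (supp p).card → D.EX q) :
    ∃ C, D.Good p C := by
  by_cases hev : ∀ v, Even (D.pv p v)
  · exact even_case hcov hp hS₀ hT hev
  push Not at hev
  obtain ⟨s, hs⟩ := hev
  rw [Nat.not_even_iff_odd] at hs
  have hs5 : 5 ≤ D.pv p s := by
    have h1 := h3 s
    obtain ⟨k, hk⟩ := hs
    rcases pv_ge_two hp.tc s with h2 | h2 <;> omega
  obtain ⟨e, he, hse⟩ := exists_real hp.le hs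
  have hds : 3 ≤ D.dg (supp p) s := three_le_dg hp.le (by omega) he hse
  have hes : e ∈ supp p := mem_supp.mpr (by omega)
  obtain ⟨P, q, hP, hPp, heP, hq, hin⟩ := hp.tc.exists_thread hds hes hse
  obtain ⟨hreal, hin2⟩ := thread_real hp.le hP hPp
    (fun v hv h1 h2 => ⟨hin v hv h1 h2, h3 v⟩) heP he
  have hsup : supp (sub p P) = supp p \ P := supp_real fun g hg => (hreal g hg).le
  have htc : D.TwoC (supp (sub p P)) := by
    rw [hsup]
    exact hT.delete_thread hp.tc hPp hP hin hds hq
  have hq4 : 4 ≤ D.pv p q := by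
    have h1 := dg_le_pv (D := D) p q
    have h2 := h3 q
    omega
  have hs' := (pv_sub_path hP hPp s).1 rfl
  have hq' := (pv_sub_path hP hPp q).2.1 rfl
  have hadm : D.Adm (sub p P) :=
    ⟨fun e => (sub_le p P e).trans (hp.le e), htc, s, by omega⟩
  have hcard : (supp (sub p P)).card < (supp p).card := by
    rw [hsup]
    refine Finset.card_lt_card ⟨Finset.sdiff_subset, fun h => ?_⟩
    exact (Finset.mem_sdiff.mp (h hes)).2 heP
  obtain ⟨C, hC⟩ := ih (sub p P) (supp_sub_subset p P) hcard hadm ⟨q, fun v hv => by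
    by_cases h1 : v = s
    · subst h1
      omega
    · by_cases h2 : v ∈ D.VS P
      · have h4 := (pv_sub_path hP hPp v).2.2.1 h2 h1 hv
        have h5 := hin2 v h2 h1 hv
        omega
      · rw [(pv_sub_path hP hPp v).2.2.2 h2]
        exact h3 v⟩
  refine ⟨C, hC.lift_path hP hPp ?_ ?_⟩
  · exact mem_VS_of_three hC.1 hC.2.1 (by omega)
  · exact mem_VS_of_three hC.1 hC.2.1 (by omega)

end BDu
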