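import Pool.Agent.Helper48.BDu.TWO

/-!
# BOND, dual side, module WT1: weight bookkeeping 1
-/

set_option autoImplicit false
set_option linter.unusedSectionVars false

namespace BDu

variable {W E : Type} [DecidableEq W] [DecidableEq E] {D : BDu W E}
variable [Fintype E]

theorem pv_eq_supp (p : E → ℕ) (v : W) :
    D.pv p v = ∑ e ∈ (supp p).filter (fun e => v ∈ D.inc e), p e := by
  unfold pv
  symm
  refine Finset.sum_subset (Finset.filter_subset_filter _ (Finset.subset_univ _)) ?_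
  intro e he he'
  by_contra h
  exact he' (Finset.mem_filter.mpr ⟨mem_supp.mpr h, (Finset.mem_filter.mp he).2⟩)

theorem pv_lower {p : E → ℕ} {e : E} (he : e ∈ supp p) {v : W} (hv : v ∈ D.inc e) :
    p e + D.dg (supp p) v ≤ D.pv p v + 1 := by
  have heS : e ∈ (supp p).filter (fun e => v ∈ D.inc e) := Finset.mem_filter.mpr ⟨he, hv⟩
  rw [pv_eq_supp, ← Finset.add_sum_erase _ _ heS]
  have h1 : (((supp p).filter (fun e => v ∈ D.inc e)).erase e).card • 1 ≤
      ∑ x ∈ ((supp p).filter (fun e => v ∈ D.inc e)).erase e, p x := by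
    refine Finset.card_nsmul_le_sum _ _ _ ?_
    intro x hx
    have := mem_supp.mp (Finset.mem_filter.mp (Finset.mem_of_mem_erase hx)).1
    omega
  have h2 := Finset.card_erase_add_one heS
  unfold dg
  rw [smul_eq_mul, mul_one] at h1
  omega

theorem pv_upper {p : E → ℕ} (hp : ∀ e, p e ≤ 2) {e : E} (he : e ∈ supp p) {v : W}
    (hv : v ∈ D.inc e) : D.pv p v + 2 ≤ p e + 2 * D.dg (supp p) v := by
  have heS : e ∈ (supp p).filter (fun e => v ∈ D.inc e) := Finset.mem_filter.mpr ⟨he, hv⟩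
  rw [pv_eq_supp, ← Finset.add_sum_erase _ _ heS]
  have h1 : ∑ x ∈ ((supp p).filter (fun e => v ∈ D.inc e)).erase e, p x ≤
      (((supp p).filter (fun e => v ∈ D.inc e)).erase e).card • 2 :=
    Finset.sum_le_card_nsmul _ _ _ (fun x _ => hp x)
  have h2 := Finset.card_erase_add_one heS
  unfold dg
  rw [smul_eq_mul] at h1
  omega

/-- Weights in a two-connected support are 0 or at least 2. -/
theorem pv_ge_two {p : E → ℕ} (h : D.TwoC (supp p)) (v : W) : D.pv p v = 0 ∨ 2 ≤ D.pv p v := by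
  by_cases h0 : D.pv p v = 0
  · exact Or.inl h0
  · right
    have h1 := h.two_le_dg (mem_VS_supp.mpr h0)
    have h2 := dg_le_pv (D := D) p v
    omega

/-- A vertex of weight 2 has exactly two edges, both real. -/
theorem dg_of_pv_two {p : E → ℕ} (h : D.TwoC (supp p)) {v : W} (hv : D.pv p v = 2) :
    D.dg (supp p) v = 2 ∧ ∀ e ∈ supp p, v ∈ D.inc e → p e = 1 := by
  have h1 := h.two_le_dg (mem_VS_supp.mpr (by omega : D.pv p v ≠ 0))
  have h2 := dg_le_pv (D := D) p v
  refine ⟨by omega, fun e he hve => ?_⟩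
  have h3 := pv_lower he hve
  have h4 := mem_supp.mp he
  omega

/-- A vertex of degree 2 with a real edge has weight 2 or 3. -/
theorem pv_of_dg_two {p : E → ℕ} (hp : ∀ e, p e ≤ 2) {v : W} (hd : D.dg (supp p) v = 2) {e : E}
    (he : p e = 1) (hve : v ∈ D.inc e) : D.pv p v = 2 ∨ D.pv p v = 3 := by
  have heS : e ∈ supp p := mem_supp.mpr (by omega)
  have h3 := pv_lower heS hve
  have h4 := pv_upper hp heS hve
  omega

/-- A vertex of weight at least 4 with a real edge has degree at least 3. -/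
theorem three_le_dg {p : E → ℕ} (hp : ∀ e, p e ≤ 2) {v : W} (hd : 4 ≤ D.pv p v) {e : E}
    (he : p e = 1) (hve : v ∈ D.inc e) : 3 ≤ D.dg (supp p) v := by
  have heS : e ∈ supp p := mem_supp.mpr (by omega)
  have h4 := pv_upper hp heS hve
  omega

/-- A vertex of odd weight has a real edge. -/
theorem exists_real {p : E → ℕ} (hp : ∀ e, p e ≤ 2) {v : W} (hv : Odd (D.pv p v)) :
    ∃ e, p e = 1 ∧ v ∈ D.inc e := by
  by_contra hc
  push Not at hc
  rw [← Nat.not_even_iff_odd] at hv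
  apply hv
  unfold pv
  refine Finset.even_sum _ fun e he => ?_
  have h1 := hp e
  have h2 : p e ≠ 1 := fun h => hc e h (Finset.mem_filter.mp he).2
  have h3 : p e = 0 ∨ p e = 2 := by omega
  rcases h3 with h | h <;> rw [h] <;> decide

/-- Threads with one real edge are real. -/
theorem thread_real {p : E → ℕ} (hp : ∀ e, p e ≤ 2) {P : Finset E} {a b : W}
    (hP : D.IsPth P a b) (hPp : P ⊆ supp p)
    (hin : ∀ v ∈ D.VS P, v ≠ a → v ≠ b → D.dg (supp p) v = 2 ∧ D.pv p v ≠ 3) {e : E}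
    (he : e ∈ P) (he1 : p e = 1) :
    (∀ g ∈ P, p g = 1) ∧ ∀ v ∈ D.VS P, v ≠ a → v ≠ b → D.pv p v = 2 := by
  have key : ∀ g ∈ P, p g = 1 := by
    by_contra hc
    push Not at hc
    obtain ⟨g, hg, hg1⟩ := hc
    obtain ⟨v, hv1, hv2, hva, hvb⟩ := hP.meet (P1 := P.filter (fun x => p x = 1))
      (P2 := P.filter (fun x => ¬ p x = 1)) (Finset.filter_union_filter_not_eq _ _)
      (Finset.disjoint_filter_filter_not _ _ _) ⟨e, Finset.mem_filter.mpr ⟨he, he1⟩⟩
      ⟨g, Finset.mem_filter.mpr ⟨hg, hg1⟩⟩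
    obtain ⟨e1, he1', hve1⟩ := mem_VS.mp hv1
    obtain ⟨e2, he2', hve2⟩ := mem_VS.mp hv2
    rw [Finset.mem_filter] at he1' he2'
    obtain ⟨hd, h3⟩ := hin v (mem_VS.mpr ⟨e1, he1'.1, hve1⟩) hva hvb
    have h4 := pv_of_dg_two hp hd he1'.2 hve1
    have h5 := pv_lower (hPp he2'.1) hve2
    have h6 := mem_supp.mp (hPp he2'.1)
    have h7 := he2'.2
    omega
  refine ⟨key, fun v hv hva hvb => ?_⟩
  obtain ⟨e1, he1', hve1⟩ := mem_VS.mp hv
  obtain ⟨hd, h3⟩ := hin v hv hva hvb
  have h4 := pv_of_dg_two hp hd (key e1 he1') hve1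
  omega

/-- Subtracting in two steps. -/
theorem sub_sub_union {p : E → ℕ} {P Q : Finset E} (h : Disjoint P Q) :
    sub (sub p P) Q = sub p (P ∪ Q) := by
  funext e
  unfold sub
  by_cases hP : e ∈ P
  · have hQ : e ∉ Q := Finset.disjoint_left.mp h hP
    simp [hP, hQ]
  · by_cases hQ : e ∈ Q
    · simp [hP, hQ]
    · simp [hP, hQ]

/-- What remains after subtracting a part `P` of `P ∪ Q`. -/
theorem supp_sub_part {p : E → ℕ} {P Q : Finset E} (h : Disjoint P Q) (hQ : Q ⊆ supp p) :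
    supp (sub p P) = supp (sub p (P ∪ Q)) ∪ Q := by
  rw [← sub_sub_union h]
  symm
  refine supp_sub_union ?_
  intro e he
  rw [mem_supp, sub_not_mem (Finset.disjoint_right.mp h he)]
  exact mem_supp.mp (hQ he)

end BDu
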